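import Pool.Agent.Helper96.LN3.Defs

/-!
# LN3-L2 (MP_730da0_ag): algebra of the winding numbers

Paper proof.  `M = per F = |Perm F|`, so `σ ^ M = 1` for all permutations (`pow_card_eq_one'`).  `(g h g⁻¹)^M = g h^M g⁻¹` (`conj_pow`), and with `(h^M).p = 1`:
`(g h^M g⁻¹).d (g a) (g b) = (g⁻¹).d (g a) (g b) + (h^M).d a b + g.d a b = (h^M).d a b`.
`Good` is closed under products, inverses, powers.  `exp ((g^M).d a b) = 1`, so `(g^M).d a b = 2πi n` (`Complex.exp_eq_one_iff`), `wd g a b = n`, `wn g a b = n`.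
-/

namespace Pool.Agent.Helper96.LN3

variable {F : Type}

theorem per_pos [Finite F] : 0 < per F := by
  unfold per
  exact Nat.card_pos

theorem per_pow [Finite F] (σ : Equiv.Perm F) : σ ^ per F = 1 := by
  unfold per
  exact pow_card_eq_one'

theorem pow_p (g : WG F) (n : ℕ) : (g ^ n).p = g.p ^ n := by
  induction n with
  | zero => simp
  | succ n ih => rw [pow_succ, pow_succ, WG.mul_p, ih]

theorem wd_conj [Finite F] (g h : WG F) (a b : F) : wd (g * h * g⁻¹) (g.p a) (g.p b) = wd h a b := by
  unfold wd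
  rw [conj_pow]
  congr 1
  have hp : (h ^ per F).p = 1 := by rw [pow_p, per_pow]
  simp [hp]

theorem wn_conj [Finite F] (g h : WG F) (a b : F) : wn (g * h * g⁻¹) (g.p a) (g.p b) = wn h a b := by
  unfold wn
  rw [wd_conj]

theorem wn_comm [Finite F] (g h : WG F) (hgh : g * h = h * g) (a b : F) : wn h (g.p a) (g.p b) = wn h a b := by
  have := wn_conj g h a b
  rwa [hgh, mul_assoc, mul_inv_cancel, mul_one] at this

theorem Good.mul {e : F → ℂ} (he : Function.Injective e) {g h : WG F} (hg : Good e g) (hh : Good e h) :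
    Good e (g * h) := by
  refine ⟨fun a b hab => ?_, fun a b => ?_, fun a => ?_⟩
  · have hpab : h.p a ≠ h.p b := fun H => hab (h.p.injective H)
    have h1 : e (h.p a) - e (h.p b) ≠ 0 := sub_ne_zero.2 fun H => hpab (he H)
    rw [WG.mul_d, Complex.exp_add, hh.exp a b hab, hg.exp _ _ hpab, WG.mul_p, Equiv.Perm.mul_apply,
      Equiv.Perm.mul_apply, mul_comm]
    exact div_mul_div_cancel₀ h1
  · rw [WG.mul_d, WG.mul_d, hh.sym a b, hg.sym]
  · rw [WG.mul_d, hh.diag, hg.diag, add_zero]

theorem Good.one {e : F → ℂ} (he : Function.Injective e) : Good e (1 : WG F) := by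
  refine ⟨fun a b hab => ?_, fun a b => rfl, fun a => rfl⟩
  have h1 : e a - e b ≠ 0 := sub_ne_zero.2 fun H => hab (he H)
  simp [h1]

theorem Good.pow {e : F → ℂ} (he : Function.Injective e) {g : WG F} (hg : Good e g) (n : ℕ) :
    Good e (g ^ n) := by
  induction n with
  | zero => rw [pow_zero]; exact Good.one he
  | succ n ih => rw [pow_succ]; exact Good.mul he ih hg

theorem Good.wd_eq [Finite F] {e : F → ℂ} (he : Function.Injective e) {g : WG F} (hg : Good e g) (a b : F) :
    wd g a b = wn g a b := by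
  have hG := Good.pow he hg (per F)
  have h2 : (2 * Real.pi * Complex.I : ℂ) ≠ 0 := Complex.two_pi_I_ne_zero
  have key : ∃ n : ℤ, wd g a b = n := by
    by_cases hab : a = b
    · subst hab
      refine ⟨0, ?_⟩
      unfold wd
      rw [hG.diag]
      simp
    · have h1 := hG.exp a b hab
      have hp : (g ^ per F).p = 1 := by rw [pow_p, per_pow]
      have h3 : e a - e b ≠ 0 := sub_ne_zero.2 fun H => hab (he H)
      rw [hp, Equiv.Perm.one_apply, Equiv.Perm.one_apply, div_self h3, Complex.exp_eq_one_iff] at h1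
      obtain ⟨n, hn⟩ := h1
      refine ⟨n, ?_⟩
      unfold wd
      rw [hn, mul_div_assoc, div_self h2, mul_one]
  obtain ⟨n, hn⟩ := key
  have : wn g a b = n := by
    unfold wn
    rw [hn, Complex.intCast_re, round_intCast]
  rw [this, hn]

theorem Good.wn_sym [Finite F] {e : F → ℂ} (he : Function.Injective e) {g : WG F} (hg : Good e g) (a b : F) :
    wn g a b = wn g b a := by
  unfold wn wd
  rw [(Good.pow he hg (per F)).sym a b]

theorem Good.pow_d [Finite F] {e : F → ℂ} (he : Function.Injective e) {g : WG F} (hg : Good e g) (a b : F) :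
    (g ^ per F).d a b = 2 * Real.pi * Complex.I * wn g a b := by
  have h2 : (2 * Real.pi * Complex.I : ℂ) ≠ 0 := Complex.two_pi_I_ne_zero
  rw [← Good.wd_eq he hg a b]
  unfold wd
  rw [mul_div_cancel₀ _ h2]

end Pool.Agent.Helper96.LN3
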