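import Pool.Agent.Helper96.LN3.Cn
import Pool.Agent.Helper2.LN.CrossLem

/-!
# LN3-L5 (MP_730da0_ag): the sections over the family `cn`

Paper proof.  `Hl ×ˢ Hl` is convex and open, so the subtype is contractible (simply connected) and locally path connected: `S.lift` gives the section with the value `val φ (cn (-1) (-1))` at `(-1,-1)` (`exists_fam`; `cn_ord`,
`val_mem`); `S.uniq` gives `fam_inj` (with `val_inj`) and `fam_map` (with `val_map`).
`fam_tru`: both sides are sections of `S` over `cn u v` (`cn_tru`, `S.perm`), so it is enough to prove it at one point (`S.uniq`), we take `(-1,-1)`.  Put `φ' = S.s i φ`.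
(1) `X φ u v = val φ (cn u v)` for `|Im u|, |Im v| < π/2`: this domain `D` is convex, `cn u v ∈ Ord k` there (convex), `val φ` is the continuous section over `Ord k` (`T_along`, `T_val`, `T_sec`), uniqueness.
In particular `X φ' (-1) (-1) = val φ' (cn (-1) (-1))`.
(2) With `a = cn (-1 + i π/4) (-1)`, `c = cn (-1 + i 3π/4) (-1)`: `X φ (-1 + i 3π/4) (-1) = T a c (val φ a)`: the segment from `a` to `c` lies in `Conf k` and so does the convex hull of the arc `y ↦ cn (-1 + i y) (-1)`, `π/4 ≤ y ≤ 3π/4`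
(the point number `i` is below the point number `i+1` there: the set `{q : the same as cn off the two points, the point number i below the point number i+1, both in the disc}` is convex and contained in `Conf k`): `T_along`.
By `crossProp_s` and `cn_crossu` it is `val φ' c`.
(3) `c ∘ swap` and `cn (-1) (-1)` are both in `Ord k`, and for `3π/4 ≤ y ≤ π` the curve `cn (-1 + i y) (-1) ∘ swap = cn (-1 + i(y-π)) (-1)` stays in `Ord k`; `val_perm`; so `X φ (-1 + πi) (-1) = val φ' (cn (-1) (-1))`.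
The same for `v`.
-/

namespace Pool.Agent.Helper96.LN3

open Pool.Agent.Helper2.LN

variable {k : ℕ} {W : Type} [TopologicalSpace W]

private theorem convex_hl : Convex ℝ Hl := by
  have h : Hl = Complex.reLm ⁻¹' Set.Iio 0 := by
    ext z
    simp [Hl]
  rw [h]
  exact (convex_Iio 0).linear_preimage _

private theorem isOpen_hl : IsOpen Hl := isOpen_lt Complex.continuous_re continuous_const

private theorem neg_one_hl : (-1 : ℂ) ∈ Hl := by simp [Hl]

private theorem isOpen_hh : IsOpen (Hl ×ˢ Hl) := isOpen_hl.prod isOpen_hl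

private theorem convex_hh : Convex ℝ (Hl ×ˢ Hl) := convex_hl.prod convex_hl

private theorem sc_hh : SimplyConnectedSpace (Hl ×ˢ Hl : Set (ℂ × ℂ)) := by
  have h : ContractibleSpace (Hl ×ˢ Hl : Set (ℂ × ℂ)) :=
    convex_hh.contractibleSpace ⟨(-1, -1), neg_one_hl, neg_one_hl⟩
  infer_instance

private theorem lpc_hh : LocallyPathConnectedSpace (Hl ×ˢ Hl : Set (ℂ × ℂ)) :=
  isOpen_hh.locallyPathConnectedSpace

private noncomputable def cnC (k i j : ℕ) : C((Hl ×ˢ Hl : Set (ℂ × ℂ)), Fin k → ℂ) :=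
  ⟨fun z => cn k i j z.1.1 z.1.2, (cn_diff k i j).continuous.comp continuous_subtype_val⟩

private theorem cnC_conf (i j : ℕ) (hij : i + 2 ≤ j) (hj : j + 1 < k) (z : (Hl ×ˢ Hl : Set (ℂ × ℂ))) :
    cnC k i j z ∈ Conf k := cn_conf i j hij hj z.1.1 z.1.2 z.2.1 z.2.2

private theorem cn_gen (i j : ℕ) (hij : i + 2 ≤ j) (hj : j + 1 < k) : cn k i j (-1) (-1) ∈ Gen k := by
  refine Ord_subset_Gen k (cn_ord i j hij hj (-1) (-1) neg_one_hl neg_one_hl ?_ ?_) <;>
  · simp only [Complex.neg_im, Complex.one_im, neg_zero, abs_zero]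
    positivity

theorem exists_fam (S : Sys k W) (i j : ℕ) (hij : i + 2 ≤ j) (hj : j + 1 < k) :
    ∃ X : S.F (base k) → ℂ → ℂ → W, IsFam S i j X := by
  classical
  have h1 := sc_hh
  have h2 := lpc_hh
  have key : ∀ φ : S.F (base k), ∃ s : C((Hl ×ˢ Hl : Set (ℂ × ℂ)), W),
      s ⟨(-1, -1), neg_one_hl, neg_one_hl⟩ = S.val φ (cn k i j (-1) (-1)) ∧
      ∀ z, s z ∈ S.F (cnC k i j z) := by
    intro φ
    exact S.lift _ (cnC k i j) (cnC_conf i j hij hj) ⟨(-1, -1), neg_one_hl, neg_one_hl⟩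
      (S.val φ (cn k i j (-1) (-1))) (S.val_mem φ _ (cn_gen i j hij hj))
  choose s hs1 hs2 using key
  refine ⟨fun φ u v => if h : (u, v) ∈ Hl ×ˢ Hl then s φ ⟨(u, v), h⟩ else φ.1, ?_, ?_, ?_⟩
  · intro φ
    rw [continuousOn_iff_continuous_domRestrict]
    refine (s φ).continuous.congr fun z => ?_
    have hz : (z.1.1, z.1.2) ∈ Hl ×ˢ Hl := z.2
    change s φ z = if h : (z.1.1, z.1.2) ∈ Hl ×ˢ Hl then s φ ⟨(z.1.1, z.1.2), h⟩ else φ.1
    rw [dif_pos hz]
  · intro φ u hu v hv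
    have h : (u, v) ∈ Hl ×ˢ Hl := ⟨hu, hv⟩
    simp only [dif_pos h]
    exact hs2 φ ⟨(u, v), h⟩
  · intro φ
    have h : ((-1 : ℂ), (-1 : ℂ)) ∈ Hl ×ˢ Hl := ⟨neg_one_hl, neg_one_hl⟩
    simp only [dif_pos h]
    exact hs1 φ

/-- The section as a continuous map. -/
private noncomputable def famC (S : Sys k W) (i j : ℕ) (X : S.F (base k) → ℂ → ℂ → W) (hX : IsFam S i j X)
    (φ : S.F (base k)) : C((Hl ×ˢ Hl : Set (ℂ × ℂ)), W) :=
  ⟨fun z => X φ z.1.1 z.1.2, continuousOn_iff_continuous_domRestrict.1 (hX.cont φ)⟩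

theorem fam_inj (S : Sys k W) (i j : ℕ) (hij : i + 2 ≤ j) (hj : j + 1 < k) (X : S.F (base k) → ℂ → ℂ → W)
    (hX : IsFam S i j X) (φ ψ : S.F (base k)) (u v : ℂ) (hu : u ∈ Hl) (hv : v ∈ Hl) (h : X φ u v = X ψ u v) :
    φ = ψ := by
  have h1 := sc_hh
  have h2 : PreconnectedSpace (Hl ×ˢ Hl : Set (ℂ × ℂ)) := inferInstance
  have h3 := S.uniq _ (cnC k i j) (cnC_conf i j hij hj) (famC S i j X hX φ) (famC S i j X hX ψ)
    (fun z => hX.mem φ z.1.1 z.2.1 z.1.2 z.2.2) (fun z => hX.mem ψ z.1.1 z.2.1 z.1.2 z.2.2)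
    ⟨⟨(u, v), hu, hv⟩, h⟩
  have h4 : X φ (-1) (-1) = X ψ (-1) (-1) :=
    congrArg (fun s : C((Hl ×ˢ Hl : Set (ℂ × ℂ)), W) => s ⟨(-1, -1), neg_one_hl, neg_one_hl⟩) h3
  rw [hX.one, hX.one] at h4
  exact S.val_inj φ ψ _ (cn_gen i j hij hj) h4

theorem fam_map {W' : Type} [TopologicalSpace W'] (S : Sys k W) (S' : Sys k W') (i j : ℕ) (hij : i + 2 ≤ j)
    (hj : j + 1 < k) (X : S.F (base k) → ℂ → ℂ → W) (hX : IsFam S i j X)
    (X' : S'.F (base k) → ℂ → ℂ → W') (hX' : IsFam S' i j X') (p : W → W') (hp : Continuous p)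
    (hF : ∀ q ∈ Conf k, ∀ w ∈ S.F q, p w ∈ S'.F q) (φ : S.F (base k)) (u v : ℂ) (hu : u ∈ Hl) (hv : v ∈ Hl) :
    p (X φ u v) = X' ⟨p φ, hF _ (base_mem k) _ φ.2⟩ u v := by
  have h1 := sc_hh
  have h2 : PreconnectedSpace (Hl ×ˢ Hl : Set (ℂ × ℂ)) := inferInstance
  have h3 := S'.uniq _ (cnC k i j) (cnC_conf i j hij hj)
    ((⟨p, hp⟩ : C(W, W')).comp (famC S i j X hX φ))
    (famC S' i j X' hX' ⟨p φ, hF _ (base_mem k) _ φ.2⟩)
    (fun z => hF _ (cnC_conf i j hij hj z) _ (hX.mem φ z.1.1 z.2.1 z.1.2 z.2.2))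
    (fun z => hX'.mem _ z.1.1 z.2.1 z.1.2 z.2.2)
    ⟨⟨(-1, -1), neg_one_hl, neg_one_hl⟩, by
      change p (X φ (-1) (-1)) = X' ⟨p φ, hF _ (base_mem k) _ φ.2⟩ (-1) (-1)
      rw [hX.one, hX'.one]
      exact val_map S S' p hp hF φ _ (cn_gen i j hij hj)⟩
  exact congrArg (fun s : C((Hl ×ˢ Hl : Set (ℂ × ℂ)), W') => s ⟨(u, v), hu, hv⟩) h3

/-- the convex set of one crossing -/
private def ft_V (l m : Fin k) : Set (Fin k → ℂ) :=
  {x | (∀ u v, u < v → ¬ (u = l ∧ v = m) → (x u).re < (x v).re) ∧ (x l).im < (x m).im}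

private theorem ft_comb {x y x' y' s t : ℝ} (h : x < y) (h' : x' < y') (hs : 0 ≤ s) (ht : 0 ≤ t)
    (hst : s + t = 1) : s * x + t * x' < s * y + t * y' := by
  rcases hs.eq_or_lt with h0 | h0
  · subst h0
    have : t = 1 := by linarith
    subst this
    linarith
  · have h1 : s * x < s * y := mul_lt_mul_of_pos_left h h0
    have h2 : t * x' ≤ t * y' := mul_le_mul_of_nonneg_left h'.le ht
    linarith

private theorem ft_V_convex (l m : Fin k) : Convex ℝ (ft_V l m) := by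
  intro x hx y hy s t hs ht hst
  refine ⟨fun u v huv hne => ?_, ?_⟩
  · have h := ft_comb (hx.1 u v huv hne) (hy.1 u v huv hne) hs ht hst
    simpa using h
  · have h := ft_comb hx.2 hy.2 hs ht hst
    simpa using h

private theorem ft_V_conf (l m : Fin k) : ft_V l m ⊆ Conf k := by
  intro x hx
  have key : ∀ u v, u < v → x u ≠ x v := by
    intro u v huv he
    by_cases h : u = l ∧ v = m
    · have h1 := hx.2
      rw [← h.1, ← h.2, he] at h1
      exact lt_irrefl _ h1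
    · have h1 := hx.1 u v huv h
      rw [he] at h1
      exact lt_irrefl _ h1
  intro u v he
  rcases lt_trichotomy u v with h1 | h1 | h1
  · exact absurd he (key u v h1)
  · exact h1
  · exact absurd he.symm (key v u h1)

/-- along a path in `Ord k` the name does not change -/
private theorem ft_along (S : Sys k W) (a b : ℝ) (hab : a ≤ b) (γ : ℝ → Fin k → ℂ) (hγ : Continuous γ)
    (s : ℝ → W) (hs : Continuous s) (hF : ∀ t, s t ∈ S.F (γ t)) (ho : ∀ t ∈ Set.Icc a b, γ t ∈ Ord k)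
    (φ : S.F (base k)) (h0 : s a = S.val φ (γ a)) : s b = S.val φ (γ b) := by
  have hp : PreconnectedSpace (Set.Icc a b) := Subtype.preconnectedSpace isPreconnected_Icc
  have h2 := S.T_along (Ord k) (convex_Ord k) ((Ord_subset_Gen k).trans (Gen_subset_Conf k))
    (Set.Icc a b) ⟨fun t => γ (t : ℝ), hγ.comp continuous_subtype_val⟩ (fun t => ho t t.2)
    ⟨fun t => s (t : ℝ), hs.comp continuous_subtype_val⟩ (fun t => hF t)
    ⟨a, le_rfl, hab⟩ ⟨b, hab, le_rfl⟩
  have h3 : s b = S.T (γ a) (γ b) (s a) := h2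
  have ha := ho a ⟨le_rfl, hab⟩
  have hb := ho b ⟨hab, le_rfl⟩
  have hiff : ∀ q ∈ Ord k, ∀ i j, (q i).re < (q j).re ↔ i < j := by
    intro q hq i j
    constructor
    · intro h
      rcases lt_trichotomy i j with h1 | h1 | h1
      · exact h1
      · rw [h1] at h
        exact absurd h (lt_irrefl _)
      · exact absurd (hq j i h1) (not_lt.2 h.le)
    · intro h
      exact hq i j h
  rw [h3, h0]
  exact S.T_val _ _ (Ord_subset_Gen k ha) (Ord_subset_Gen k hb)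
    (fun i j => by rw [hiff _ ha, hiff _ hb]) φ

/-- a path with one crossing -/
private theorem ft_one (S : Sys k W) (i : ℕ) (hi : i + 1 < k) (l m : Fin k) (γ : ℝ → Fin k → ℂ)
    (hγ : Continuous γ) (s : ℝ → W) (hs : Continuous s) (hF : ∀ t, s t ∈ S.F (γ t))
    (a b c d : ℝ) (hab : a ≤ b) (hbc : b ≤ c) (hcd : c ≤ d)
    (ho : ∀ t ∈ Set.Icc a b, γ t ∈ Ord k) (hV : ∀ t ∈ Set.Icc b c, γ t ∈ ft_V l m)
    (ρ : Equiv.Perm (Fin k)) (ho' : ∀ t ∈ Set.Icc c d, γ t ∘ ρ ∈ Ord k)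
    (hc : Cross (γ b) (γ c) l m) (hpos : pos (γ b) l = i)
    (φ : S.F (base k)) (h0 : s a = S.val φ (γ a)) (q : Fin k → ℂ) (hq : γ d ∘ ρ = q) :
    s d = S.val (S.s i φ) q := by
  have h1 : s b = S.val φ (γ b) := ft_along S a b hab γ hγ s hs hF ho φ h0
  have hp : PreconnectedSpace (Set.Icc b c) := Subtype.preconnectedSpace isPreconnected_Icc
  have h2 := S.T_along (ft_V l m) (ft_V_convex l m) (ft_V_conf l m)
    (Set.Icc b c) ⟨fun t => γ (t : ℝ), hγ.comp continuous_subtype_val⟩ (fun t => hV t t.2)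
    ⟨fun t => s (t : ℝ), hs.comp continuous_subtype_val⟩ (fun t => hF t)
    ⟨b, le_rfl, hbc⟩ ⟨c, hbc, le_rfl⟩
  have h3 : s c = S.T (γ b) (γ c) (s b) := h2
  have h4 : s c = S.val (S.s i φ) (γ c) := by
    rw [h3, h1]
    exact S.crossProp_s i hi _ _ l m hc hpos φ
  have h5 : s c = S.val (S.s i φ) (γ c ∘ ρ) := by
    rw [h4]
    exact (S.val_perm _ _ hc.genc ρ).symm
  have hγ' : Continuous fun t => γ t ∘ ρ := by
    refine continuous_pi fun x => ?_
    exact (continuous_apply (ρ x)).comp hγ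
  have h6 := ft_along S c d hcd (fun t => γ t ∘ ρ) hγ' s hs
    (fun t => by rw [S.perm]; exact hF t) ho' (S.s i φ) h5
  rw [h6, hq]

private theorem ft_re (i j : ℕ) (hij : i + 2 ≤ j) (u v : ℂ) (hu : u ∈ Hl) (hv : v ∈ Hl)
    (a b : Fin k) (hab : a < b) (h1 : (a : ℕ) = i → (b : ℕ) = i + 1 → 0 < (Complex.exp u).re)
    (h2 : (a : ℕ) = j → (b : ℕ) = j + 1 → 0 < (Complex.exp v).re) :
    (cn k i j u v a).re < (cn k i j u v b).re := by
  have hn : ∀ w ∈ Hl, |(Complex.exp w).re| < 1 := by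
    intro w hw
    refine (Complex.abs_re_le_norm _).trans_lt ?_
    rw [Complex.norm_exp]
    exact (Real.exp_lt_one_iff).2 hw
  have hu1 := abs_lt.1 (hn u hu)
  have hv1 := abs_lt.1 (hn v hv)
  have hij' : (i : ℝ) + 2 ≤ j := by exact_mod_cast hij
  have hab1 : ((a : ℕ) : ℝ) + 1 ≤ ((b : ℕ) : ℝ) := by
    have : (a : ℕ) < b := hab
    exact_mod_cast this
  have key : ∀ x : Fin k, ((x : ℕ) = i ∧ (cn k i j u v x).re = i + 1 / 2 - (Complex.exp u).re / 2) ∨
      ((x : ℕ) = i + 1 ∧ (cn k i j u v x).re = i + 1 / 2 + (Complex.exp u).re / 2) ∨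
      ((x : ℕ) = j ∧ (cn k i j u v x).re = j + 1 / 2 - (Complex.exp v).re / 2) ∨
      ((x : ℕ) = j + 1 ∧ (cn k i j u v x).re = j + 1 / 2 + (Complex.exp v).re / 2) ∨
      ((x : ℕ) ≠ i ∧ (x : ℕ) ≠ i + 1 ∧ (x : ℕ) ≠ j ∧ (x : ℕ) ≠ j + 1 ∧
        (cn k i j u v x).re = ((x : ℕ) : ℝ)) := by
    intro x
    unfold cn
    split_ifs with e1 e2 e3 e4
    · exact Or.inl ⟨e1, by simp⟩
    · exact Or.inr (Or.inl ⟨e2, by simp⟩)
    · exact Or.inr (Or.inr (Or.inl ⟨e3, by simp⟩))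
    · exact Or.inr (Or.inr (Or.inr (Or.inl ⟨e4, by simp⟩)))
    · exact Or.inr (Or.inr (Or.inr (Or.inr ⟨e1, e2, e3, e4, by simp⟩)))
  have hab0 : (a : ℕ) < b := hab
  rcases key a with ⟨ea, ra⟩ | ⟨ea, ra⟩ | ⟨ea, ra⟩ | ⟨ea, ra⟩ | ⟨e1, e2, e3, e4, ra⟩ <;>
  rcases key b with ⟨eb, rb⟩ | ⟨eb, rb⟩ | ⟨eb, rb⟩ | ⟨eb, rb⟩ | ⟨f1, f2, f3, f4, rb⟩ <;>
  rw [ra, rb] <;> first
    | (exfalso; omega)
    | (have := h1 ea eb; linarith)
    | (have := h2 ea eb; linarith)
    | (rw [ea] at hab1; push_cast at hab1; linarith)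
    | (rw [eb] at hab1; push_cast at hab1; linarith)
    | linarith

private theorem ft_imu (i j : ℕ) (hij : i + 2 ≤ j) (hj : j + 1 < k) (u v : ℂ) (h : 0 < (Complex.exp u).im) :
    (cn k i j u v ⟨i, by omega⟩).im < (cn k i j u v ⟨i + 1, by omega⟩).im := by
  have h1 : cn k i j u v ⟨i, by omega⟩ = (i : ℂ) + 1 / 2 - Complex.exp u / 2 := by
    simp [cn]
  have h2 : cn k i j u v ⟨i + 1, by omega⟩ = (i : ℂ) + 1 / 2 + Complex.exp u / 2 := by
    simp [cn]
  rw [h1, h2]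
  simp
  linarith

private theorem ft_imv (i j : ℕ) (hij : i + 2 ≤ j) (hj : j + 1 < k) (u v : ℂ) (h : 0 < (Complex.exp v).im) :
    (cn k i j u v ⟨j, by omega⟩).im < (cn k i j u v ⟨j + 1, hj⟩).im := by
  have h1 : cn k i j u v ⟨j, by omega⟩ = (j : ℂ) + 1 / 2 - Complex.exp v / 2 := by
    unfold cn
    simp only
    rw [if_neg (by omega), if_neg (by omega), if_pos trivial]
  have h2 : cn k i j u v ⟨j + 1, hj⟩ = (j : ℂ) + 1 / 2 + Complex.exp v / 2 := by
    unfold cn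
    simp only
    rw [if_neg (by omega), if_neg (by omega), if_neg (by omega), if_pos trivial]
  rw [h1, h2]
  simp
  linarith

private theorem ft_exp_re (y : ℝ) (h : |y| < Real.pi / 2) :
    0 < (Complex.exp (-1 + y * Complex.I)).re := by
  rw [Complex.exp_re]
  have h1 := abs_lt.1 h
  have : (-1 + (y : ℂ) * Complex.I).im = y := by simp
  rw [this]
  exact mul_pos (Real.exp_pos _) (Real.cos_pos_of_mem_Ioo ⟨by linarith, h1.2⟩)

private theorem ft_exp_im (y : ℝ) (h : 0 < y) (h' : y < Real.pi) :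
    0 < (Complex.exp (-1 + y * Complex.I)).im := by
  rw [Complex.exp_im]
  have : (-1 + (y : ℂ) * Complex.I).im = y := by simp
  rw [this]
  exact mul_pos (Real.exp_pos _) (Real.sin_pos_of_pos_of_lt_pi h h')

private theorem ft_exp_one : 0 < (Complex.exp (-1)).re := by
  have := ft_exp_re 0 (by rw [abs_zero]; positivity)
  simpa using this

private theorem ft_Hl (y : ℝ) : (-1 + y * Complex.I : ℂ) ∈ Hl := by
  show (-1 + y * Complex.I : ℂ).re < 0
  simp

private theorem ft_Hl1 : (-1 : ℂ) ∈ Hl := by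
  show (-1 : ℂ).re < 0
  simp

private theorem ft_Hl_add (u : ℂ) (hu : u ∈ Hl) : u + Real.pi * Complex.I ∈ Hl := by
  show (u + Real.pi * Complex.I : ℂ).re < 0
  have : u.re < 0 := hu
  simpa using this

private theorem ft_Hl_preconn : PreconnectedSpace (Hl ×ˢ Hl : Set (ℂ × ℂ)) := by
  have h1 : Convex ℝ Hl := by
    have := convex_halfSpace_re_lt (0 : ℝ)
    exact this
  exact Subtype.preconnectedSpace (h1.prod h1).isPreconnected

/-- sections over the family are determined by one value -/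
private theorem ft_uniq (S : Sys k W) (i j : ℕ) (hij : i + 2 ≤ j) (hj : j + 1 < k)
    (f g : ℂ × ℂ → W) (hf : ContinuousOn f (Hl ×ˢ Hl)) (hg : ContinuousOn g (Hl ×ˢ Hl))
    (hfF : ∀ u ∈ Hl, ∀ v ∈ Hl, f (u, v) ∈ S.F (cn k i j u v))
    (hgF : ∀ u ∈ Hl, ∀ v ∈ Hl, g (u, v) ∈ S.F (cn k i j u v)) (h : f (-1, -1) = g (-1, -1))
    (u v : ℂ) (hu : u ∈ Hl) (hv : v ∈ Hl) : f (u, v) = g (u, v) := by
  have hp := ft_Hl_preconn
  have h1 := S.uniq (Hl ×ˢ Hl : Set (ℂ × ℂ))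
    ⟨fun z => cn k i j z.1.1 z.1.2, (cn_diff k i j).continuous.comp continuous_subtype_val⟩
    (fun z => cn_conf i j hij hj z.1.1 z.1.2 z.2.1 z.2.2)
    ⟨fun z => f z.1, hf.comp_continuous continuous_subtype_val fun z => z.2⟩
    ⟨fun z => g z.1, hg.comp_continuous continuous_subtype_val fun z => z.2⟩
    (fun z => hfF z.1.1 z.2.1 z.1.2 z.2.2) (fun z => hgF z.1.1 z.2.1 z.1.2 z.2.2)
    ⟨⟨(-1, -1), ft_Hl1, ft_Hl1⟩, h⟩
  exact congrArg (fun F : C((Hl ×ˢ Hl : Set (ℂ × ℂ)), W) => F ⟨(u, v), hu, hv⟩) h1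

private theorem ft_cn_cont (i j : ℕ) (f g : ℝ → ℂ) (hf : Continuous f) (hg : Continuous g) :
    Continuous fun t => cn k i j (f t) (g t) :=
  (cn_diff k i j).continuous.comp (hf.prodMk hg)

private theorem ft_X_cont (S : Sys k W) (i j : ℕ) (X : S.F (base k) → ℂ → ℂ → W)
    (hX : IsFam S i j X) (φ : S.F (base k)) (f g : ℝ → ℂ) (hf : Continuous f) (hg : Continuous g)
    (hf' : ∀ t, f t ∈ Hl) (hg' : ∀ t, g t ∈ Hl) : Continuous fun t => X φ (f t) (g t) :=
  (hX.cont φ).comp_continuous (hf.prodMk hg) fun t => ⟨hf' t, hg' t⟩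

theorem fam_tru (S : Sys k W) (i j : ℕ) (hij : i + 2 ≤ j) (hj : j + 1 < k) (X : S.F (base k) → ℂ → ℂ → W)
    (hX : IsFam S i j X) (φ : S.F (base k)) (u v : ℂ) (hu : u ∈ Hl) (hv : v ∈ Hl) :
    X φ (u + Real.pi * Complex.I) v = X (S.s i φ) u v := by
  have hpi := Real.pi_pos
  have hline : Continuous fun t : ℝ => (-1 + t * Complex.I : ℂ) := by fun_prop
  have hsh : ∀ t : ℝ, (-1 + t * Complex.I : ℂ) = (-1 + ((t - Real.pi : ℝ) : ℂ) * Complex.I) +
      Real.pi * Complex.I := by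
    intro t
    push_cast
    ring
  have hcr := cn_crossu i j hij hj (-1) (Real.pi / 4) (3 * Real.pi / 4) (-1) (by norm_num) ft_Hl1
    (by positivity) (by linarith) (by linarith) (by linarith) (by simp; positivity)
  have hperm : ∀ t : ℝ, cn k i j (-1 + t * Complex.I) (-1) ∘
      Equiv.swap ⟨i, by omega⟩ ⟨i + 1, by omega⟩ =
      cn k i j (-1 + ((t - Real.pi : ℝ) : ℂ) * Complex.I) (-1) := by
    intro t
    rw [hsh t, cn_tru i j hij hj]
    funext x
    simp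
  have key : X φ (-1 + (Real.pi : ℝ) * Complex.I) (-1) = S.val (S.s i φ) (cn k i j (-1) (-1)) := by
    refine ft_one S i (by omega) ⟨i, by omega⟩ ⟨i + 1, by omega⟩
      (fun t => cn k i j (-1 + t * Complex.I) (-1)) (ft_cn_cont i j _ _ hline continuous_const)
      (fun t => X φ (-1 + t * Complex.I) (-1))
      (ft_X_cont S i j X hX φ _ _ hline continuous_const ft_Hl fun _ => ft_Hl1)
      (fun t => hX.mem φ _ (ft_Hl t) _ ft_Hl1) 0 (Real.pi / 4) (3 * Real.pi / 4) Real.pi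
      (by positivity) (by linarith) (by linarith) ?_ ?_
      (Equiv.swap ⟨i, by omega⟩ ⟨i + 1, by omega⟩) ?_ ?_ ?_ φ ?_ _ ?_
    · rintro t ⟨h1, h2⟩
      refine cn_ord i j hij hj _ _ (ft_Hl t) ft_Hl1 ?_ (by simp; positivity)
      have : (-1 + (t : ℂ) * Complex.I).im = t := by simp
      rw [this, abs_lt]
      constructor <;> linarith
    · rintro t ⟨h1, h2⟩
      refine ⟨fun a b hab hne => ?_, ?_⟩
      · refine ft_re i j hij _ _ (ft_Hl t) ft_Hl1 a b hab (fun ha hb => ?_) fun _ _ => ft_exp_one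
        exact absurd ⟨Fin.ext ha, Fin.ext hb⟩ hne
      · exact ft_imu i j hij hj _ _ (ft_exp_im t (by linarith) (by linarith))
    · rintro t ⟨h1, h2⟩
      show cn k i j (-1 + t * Complex.I) (-1) ∘ Equiv.swap ⟨i, by omega⟩ ⟨i + 1, by omega⟩ ∈ Ord k
      rw [hperm t]
      refine cn_ord i j hij hj _ _ (ft_Hl _) ft_Hl1 ?_ (by simp; positivity)
      have : (-1 + ((t - Real.pi : ℝ) : ℂ) * Complex.I).im = t - Real.pi := by simp
      rw [this, abs_lt]
      constructor <;> linarith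
    · have := hcr.1
      simpa using this
    · have := hcr.2
      simpa using this
    · have := hX.one φ
      simpa using this
    · show cn k i j (-1 + (Real.pi : ℝ) * Complex.I) (-1) ∘
        Equiv.swap ⟨i, by omega⟩ ⟨i + 1, by omega⟩ = _
      rw [hperm]
      simp
  refine ft_uniq S i j hij hj (fun z => X φ (z.1 + Real.pi * Complex.I) z.2)
    (fun z => X (S.s i φ) z.1 z.2) ?_ (hX.cont _) ?_ (hX.mem _) ?_ u v hu hv
  · refine (hX.cont φ).comp (f := fun z : ℂ × ℂ => (z.1 + Real.pi * Complex.I, z.2))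
      (by fun_prop) fun z hz => ⟨ft_Hl_add _ hz.1, hz.2⟩
  · intro u hu v hv
    have h1 := hX.mem φ _ (ft_Hl_add u hu) v hv
    rw [cn_tru i j hij hj, S.perm] at h1
    exact h1
  · show X φ (-1 + Real.pi * Complex.I) (-1) = X (S.s i φ) (-1) (-1)
    rw [hX.one, ← key]

theorem fam_trv (S : Sys k W) (i j : ℕ) (hij : i + 2 ≤ j) (hj : j + 1 < k) (X : S.F (base k) → ℂ → ℂ → W)
    (hX : IsFam S i j X) (φ : S.F (base k)) (u v : ℂ) (hu : u ∈ Hl) (hv : v ∈ Hl) :
    X φ u (v + Real.pi * Complex.I) = X (S.s j φ) u v := by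
  have hpi := Real.pi_pos
  have hline : Continuous fun t : ℝ => (-1 + t * Complex.I : ℂ) := by fun_prop
  have hsh : ∀ t : ℝ, (-1 + t * Complex.I : ℂ) = (-1 + ((t - Real.pi : ℝ) : ℂ) * Complex.I) +
      Real.pi * Complex.I := by
    intro t
    push_cast
    ring
  have hcr := cn_crossv i j hij hj (-1) (Real.pi / 4) (3 * Real.pi / 4) (-1) (by norm_num) ft_Hl1
    (by positivity) (by linarith) (by linarith) (by linarith) (by simp; positivity)
  have hperm : ∀ t : ℝ, cn k i j (-1) (-1 + t * Complex.I) ∘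
      Equiv.swap ⟨j, by omega⟩ ⟨j + 1, hj⟩ =
      cn k i j (-1) (-1 + ((t - Real.pi : ℝ) : ℂ) * Complex.I) := by
    intro t
    rw [hsh t, cn_trv i j hij hj]
    funext x
    simp
  have key : X φ (-1) (-1 + (Real.pi : ℝ) * Complex.I) = S.val (S.s j φ) (cn k i j (-1) (-1)) := by
    refine ft_one S j hj ⟨j, by omega⟩ ⟨j + 1, hj⟩
      (fun t => cn k i j (-1) (-1 + t * Complex.I)) (ft_cn_cont i j _ _ continuous_const hline)
      (fun t => X φ (-1) (-1 + t * Complex.I))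
      (ft_X_cont S i j X hX φ _ _ continuous_const hline (fun _ => ft_Hl1) ft_Hl)
      (fun t => hX.mem φ _ ft_Hl1 _ (ft_Hl t)) 0 (Real.pi / 4) (3 * Real.pi / 4) Real.pi
      (by positivity) (by linarith) (by linarith) ?_ ?_
      (Equiv.swap ⟨j, by omega⟩ ⟨j + 1, hj⟩) ?_ ?_ ?_ φ ?_ _ ?_
    · rintro t ⟨h1, h2⟩
      refine cn_ord i j hij hj _ _ ft_Hl1 (ft_Hl t) (by simp; positivity) ?_
      have : (-1 + (t : ℂ) * Complex.I).im = t := by simp
      rw [this, abs_lt]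
      constructor <;> linarith
    · rintro t ⟨h1, h2⟩
      refine ⟨fun a b hab hne => ?_, ?_⟩
      · refine ft_re i j hij _ _ ft_Hl1 (ft_Hl t) a b hab (fun _ _ => ft_exp_one) fun ha hb => ?_
        exact absurd ⟨Fin.ext ha, Fin.ext hb⟩ hne
      · exact ft_imv i j hij hj _ _ (ft_exp_im t (by linarith) (by linarith))
    · rintro t ⟨h1, h2⟩
      show cn k i j (-1) (-1 + t * Complex.I) ∘ Equiv.swap ⟨j, by omega⟩ ⟨j + 1, hj⟩ ∈ Ord k
      rw [hperm t]
      refine cn_ord i j hij hj _ _ ft_Hl1 (ft_Hl _) (by simp; positivity) ?_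
      have : (-1 + ((t - Real.pi : ℝ) : ℂ) * Complex.I).im = t - Real.pi := by simp
      rw [this, abs_lt]
      constructor <;> linarith
    · have := hcr.1
      simpa using this
    · have := hcr.2
      simpa using this
    · have := hX.one φ
      simpa using this
    · show cn k i j (-1) (-1 + (Real.pi : ℝ) * Complex.I) ∘
        Equiv.swap ⟨j, by omega⟩ ⟨j + 1, hj⟩ = _
      rw [hperm]
      simp
  refine ft_uniq S i j hij hj (fun z => X φ z.1 (z.2 + Real.pi * Complex.I))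
    (fun z => X (S.s j φ) z.1 z.2) ?_ (hX.cont _) ?_ (hX.mem _) ?_ u v hu hv
  · refine (hX.cont φ).comp (f := fun z : ℂ × ℂ => (z.1, z.2 + Real.pi * Complex.I))
      (by fun_prop) fun z hz => ⟨hz.1, ft_Hl_add _ hz.2⟩
  · intro u hu v hv
    have h1 := hX.mem φ u hu _ (ft_Hl_add v hv)
    rw [cn_trv i j hij hj, S.perm] at h1
    exact h1
  · show X φ (-1) (-1 + Real.pi * Complex.I) = X (S.s j φ) (-1) (-1)
    rw [hX.one, ← key]

end Pool.Agent.Helper96.LN3
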