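import Pool.Agent.Helper93.L2.Defs
import Pool.Agent.Helper2.LN.Prod

/-!
# LN3 (MP_730da0_ag): definitions (do not change)

Theorem: `k > 4`, `n > k`, `k (k-1)` does not divide `n`: every holomorphic `G_k^0 → G_n^0` is splittable.
Paper proof: memo_LN3_helper96.md in the team store.
-/

namespace Pool.Agent.Helper96.LN3

open Pool.Agent.Helper2.LN

/-- Permutations of `F` together with an additive cocycle on pairs. -/
@[ext] structure WG (F : Type) where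
  p : Equiv.Perm F
  d : F → F → ℂ

namespace WG

variable {F : Type}

instance : Mul (WG F) := ⟨fun g h => ⟨g.p * h.p, fun a b => h.d a b + g.d (h.p a) (h.p b)⟩⟩
instance : One (WG F) := ⟨⟨1, fun _ _ => 0⟩⟩
instance : Inv (WG F) := ⟨fun g => ⟨g.p⁻¹, fun a b => - g.d (g.p⁻¹ a) (g.p⁻¹ b)⟩⟩

@[simp] theorem mul_p (g h : WG F) : (g * h).p = g.p * h.p := rfl
@[simp] theorem mul_d (g h : WG F) (a b : F) : (g * h).d a b = h.d a b + g.d (h.p a) (h.p b) := rfl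
@[simp] theorem one_p : (1 : WG F).p = 1 := rfl
@[simp] theorem one_d (a b : F) : (1 : WG F).d a b = 0 := rfl
@[simp] theorem inv_p (g : WG F) : g⁻¹.p = g.p⁻¹ := rfl
@[simp] theorem inv_d (g : WG F) (a b : F) : g⁻¹.d a b = - g.d (g.p⁻¹ a) (g.p⁻¹ b) := rfl

instance : Group (WG F) where
  mul_assoc g h l := by
    ext
    · rfl
    · simp [add_assoc]
  one_mul g := by
    ext
    · rfl
    · simp
  mul_one g := by
    ext
    · rfl
    · simp
  inv_mul_cancel g := by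
    ext
    · simp
    · simp

end WG

/-- A common period of all permutations of `F`. -/
noncomputable def per (F : Type) : ℕ := Nat.card (Equiv.Perm F)

/-- The winding number of the pair `(a, b)` under `g ^ per F`, as a complex number. -/
noncomputable def wd {F : Type} (g : WG F) (a b : F) : ℂ := (g ^ per F).d a b / (2 * Real.pi * Complex.I)

/-- The same as an integer. -/
noncomputable def wn {F : Type} (g : WG F) (a b : F) : ℤ := round (wd g a b).re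

/-- Cocycles that come from logarithms of `e a - e b`. -/
structure Good {F : Type} (e : F → ℂ) (g : WG F) : Prop where
  exp : ∀ a b, a ≠ b → Complex.exp (g.d a b) = (e (g.p a) - e (g.p b)) / (e a - e b)
  sym : ∀ a b, g.d a b = g.d b a
  diag : ∀ a, g.d a a = 0

/-- `(x_a - x_b)/(x_a - x_c)` -/
noncomputable def rat {F : Type} (x : F → ℝ → ℂ) (a b c : F) (t : ℝ) : ℂ := (x a t - x b t) / (x a t - x c t)

/-- What is known about two commuting generators: `x a t` is the position of the root `a` at the time `t`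
(`t → ∞`: both pairs of points collide). -/
structure Corner {F : Type} (g₀ g₂ : WG F) (x : F → ℝ → ℂ) : Prop where
  comm : g₀ * g₂ = g₂ * g₀
  sym₀ : ∀ a b, wn g₀ a b = wn g₀ b a
  sym₂ : ∀ a b, wn g₂ a b = wn g₂ b a
  int₀ : ∀ a b, a ≠ b → wd g₀ a b = wn g₀ a b
  int₂ : ∀ a b, a ≠ b → wd g₂ a b = wn g₂ a b
  inj : ∀ t, 0 < t → Function.Injective fun a => x a t
  opp : ∀ a b c, a ≠ b → a ≠ c → b ≠ c → 0 ≤ (wn g₀ a b - wn g₀ a c) * (wn g₂ a b - wn g₂ a c)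
  lim : ∀ a b c, a ≠ b → a ≠ c → b ≠ c → wn g₀ a b = wn g₀ a c → wn g₂ a b = wn g₂ a c →
    ∃ r : ℂ, r ≠ 0 ∧ Filter.Tendsto (rat x a b c) Filter.atTop (nhds r) ∧
      Filter.Tendsto (rat x (g₀.p a) (g₀.p b) (g₀.p c)) Filter.atTop (nhds r) ∧
      Filter.Tendsto (rat x (g₂.p a) (g₂.p b) (g₂.p c)) Filter.atTop (nhds r)
  zero : ∀ a b c, a ≠ b → a ≠ c → b ≠ c → wn g₀ a c ≤ wn g₀ a b → wn g₂ a c ≤ wn g₂ a b →
    ¬ (wn g₀ a b = wn g₀ a c ∧ wn g₂ a b = wn g₂ a c) → Filter.Tendsto (rat x a b c) Filter.atTop (nhds 0)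
  mult₀ : ∀ a b, a ≠ b → (g₀.p a = b ∨ g₀.p a = a) →
    Filter.Tendsto (fun t => (x (g₀.p b) t - x (g₀.p a) t) / (x b t - x a t)) Filter.atTop
      (nhds (Complex.exp (2 * Real.pi * Complex.I * wn g₀ a b / per F)))
  mult₂ : ∀ a b, a ≠ b → (g₂.p a = b ∨ g₂.p a = a) →
    Filter.Tendsto (fun t => (x (g₂.p b) t - x (g₂.p a) t) / (x b t - x a t)) Filter.atTop
      (nhds (Complex.exp (2 * Real.pi * Complex.I * wn g₂ a b / per F)))

/-- The left half plane. -/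
def Hl : Set ℂ := {z | z.re < 0}

/-- The points number `i`, `i+1` are `i + 1/2 ∓ e^u/2`, the points number `j`, `j+1` are `j + 1/2 ∓ e^v/2`, the others are
at their places in the base configuration. -/
noncomputable def cn (k i j : ℕ) (u v : ℂ) : Fin k → ℂ := fun l =>
  if (l : ℕ) = i then (i : ℂ) + 1 / 2 - Complex.exp u / 2
  else if (l : ℕ) = i + 1 then (i : ℂ) + 1 / 2 + Complex.exp u / 2
  else if (l : ℕ) = j then (j : ℂ) + 1 / 2 - Complex.exp v / 2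
  else if (l : ℕ) = j + 1 then (j : ℂ) + 1 / 2 + Complex.exp v / 2
  else ((l : ℕ) : ℂ)

/-- The sections of the system `S` over the family `cn k i j`, `u`, `v` in the left half plane. -/
structure IsFam {k : ℕ} {W : Type} [TopologicalSpace W] (S : Sys k W) (i j : ℕ)
    (X : S.F (base k) → ℂ → ℂ → W) : Prop where
  cont : ∀ φ, ContinuousOn (fun z : ℂ × ℂ => X φ z.1 z.2) (Hl ×ˢ Hl)
  mem : ∀ φ, ∀ u ∈ Hl, ∀ v ∈ Hl, X φ u v ∈ S.F (cn k i j u v)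
  one : ∀ φ, X φ (-1) (-1) = S.val φ (cn k i j (-1) (-1))

/-- The two parameter family of roots and of logarithms of their differences. -/
structure Fam {F : Type} (σ₀ σ₂ : Equiv.Perm F) (n₀ n₂ : F → F → ℤ) (M : ℕ) (W : F → ℂ → ℂ → ℂ)
    (L : F → F → ℂ → ℂ → ℂ) : Prop where
  holu : ∀ a, ∀ v ∈ Hl, DifferentiableOn ℂ (fun u => W a u v) Hl
  holv : ∀ a, ∀ u ∈ Hl, DifferentiableOn ℂ (fun v => W a u v) Hl
  hold : ∀ a, ∀ p q : ℕ, 0 < p → 0 < q → DifferentiableOn ℂ (fun z : ℂ => W a (p * z) (q * z)) Hl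
  cont : ∀ a b, a ≠ b → ContinuousOn (fun z : ℂ × ℂ => L a b z.1 z.2) (Hl ×ˢ Hl)
  exp : ∀ a b, a ≠ b → ∀ u ∈ Hl, ∀ v ∈ Hl, Complex.exp (L a b u v) = W a u v - W b u v
  tru : ∀ a, ∀ u ∈ Hl, ∀ v ∈ Hl, W a (u + Real.pi * Complex.I) v = W (σ₀ a) u v
  trv : ∀ a, ∀ u ∈ Hl, ∀ v ∈ Hl, W a u (v + Real.pi * Complex.I) = W (σ₂ a) u v
  pu : ∀ a, (σ₀ ^ M) a = a
  pv : ∀ a, (σ₂ ^ M) a = a
  Ltru : ∀ a b, a ≠ b → ∀ u ∈ Hl, ∀ v ∈ Hl, L a b (u + M * (Real.pi * Complex.I)) v =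
    L a b u v + 2 * Real.pi * Complex.I * n₀ a b
  Ltrv : ∀ a b, a ≠ b → ∀ u ∈ Hl, ∀ v ∈ Hl, L a b u (v + M * (Real.pi * Complex.I)) =
    L a b u v + 2 * Real.pi * Complex.I * n₂ a b
  inv₀₀ : ∀ a b, a ≠ b → n₀ (σ₀ a) (σ₀ b) = n₀ a b
  inv₀₂ : ∀ a b, a ≠ b → n₀ (σ₂ a) (σ₂ b) = n₀ a b
  inv₂₀ : ∀ a b, a ≠ b → n₂ (σ₀ a) (σ₀ b) = n₂ a b
  inv₂₂ : ∀ a b, a ≠ b → n₂ (σ₂ a) (σ₂ b) = n₂ a b
  sym₀ : ∀ a b, a ≠ b → n₀ a b = n₀ b a
  sym₂ : ∀ a b, a ≠ b → n₂ a b = n₂ b a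

/-- The fibre of the system of the logarithms of differences. -/
def lgF {k : ℕ} (S : Sys k ℂ) (q : Fin k → ℂ) : Set (ℂ × ℂ × ℂ) :=
  {x | x.1 ∈ S.F q ∧ x.2.1 ∈ S.F q ∧ Complex.exp x.2.2 = x.1 - x.2.1}

end Pool.Agent.Helper96.LN3
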