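import Pool.Agent.Helper2.LN.GrpA
import Pool.Agent.Helper2.LN.GrpB

/-!
# LN3-G1 (MP_730da0_ag): rotations and orders

Paper proof of `rot_card`.  `A` has finite order; `A ≠ 1` (`N ∤ j`, so `N ≠ 1`... if `A = 1` then `N ∣ 1`), so `ζ ≠ 1` and `c P = ζ c P` gives `c P = 0`.  For `w ≠ P`: `c w ≠ 0`.  `ξ = ζ^j`: `c (A^j w) = ξ c w`.  If `F = {P}` then every `O` is empty: `d = 2`.
Otherwise `ξ` is a root of unity (`A^m = 1`, `m > 0`, `c w = ζ^m c w`), `ξ ≠ 1` (else `A^j = 1`, so `N ∣ j`), `d = orderOf ξ ≥ 2`; `c(O)` is a finite subset of `ℂ∖0` invariant under multiplication by `ξ`; the group generated by `ξ` (order `d`) acts freely on it.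
`rot_mod`: `N = 1`: clear.  If no `w` has `c w ≠ 0` then `card F ≤ 1`.  Otherwise `d = orderOf ζ`, `N ∣ d` (`A^d = 1`); `F` minus the (at most one) point with `c w = 0` has cardinality divisible by `d`.
`ordA`, `ordB`: as in `group_main` (Helper2/LN/GrpMain.lean): `cyc_of_braid`, `cycB_of_braid`, `collapse`.  `collapse` needs `N ≥ 5`, so for `ordB`, `k = 5`: if `B^M = 1` and `4 ∤ M` then `τ i = τ (i + M)` for all `i : ZMod 4`, so `τ 1 = τ 2` (`M` odd: `M ≡ ±1`)
or `τ 1 = τ 3` (`M ≡ 2`).  `s 1 = s 2`: `eq_of_adj`.  `s 1 = s 3`: `s 0` commutes with `s 3 = s 1`, and `s 0 s 1 s 0 = s 1 s 0 s 1`, so `s 0 = s 1`: `eq_of_adj`.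
`eq_of_adj`: `σ` from `cyc_of_braid`: `σ i = σ (i+1)` for one `i`, hence (conjugation with `A`) for all.  `eq_of_02`: `s 0 = s 2` commutes with `s 3`, so `s 2 = s 3` (braid relation).
-/

namespace Pool.Agent.Helper96.LN3

open Pool.Agent.Helper2.LN

private theorem rc_pow {F : Type} (A : Equiv.Perm F) (c : F → ℂ) (ζ : ℂ)
    (h : ∀ w, c (A w) = ζ * c w) (j : ℕ) (w : F) : c ((A ^ j) w) = ζ ^ j * c w := by
  induction j generalizing w with
  | zero => simp
  | succ n ih =>
    rw [pow_succ, Equiv.Perm.mul_apply, ih, h, pow_succ]; ring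

private theorem rc_iter {F : Type} (g : F → F) (c : F → ℂ) (ξ : ℂ)
    (h : ∀ w, c (g w) = ξ * c w) (j : ℕ) (w : F) : c (g^[j] w) = ξ ^ j * c w := by
  induction j generalizing w with
  | zero => simp
  | succ n ih =>
    rw [Function.iterate_succ_apply, ih, h, pow_succ]; ring

/-- free rotation: the order of `ξ` divides the cardinality of an invariant set off zero. -/
private theorem rc_core {F : Type} (g : F → F) (c : F → ℂ) (hc : Function.Injective c) (ξ : ℂ)
    (h : ∀ w, c (g w) = ξ * c w) (d : ℕ) (hd : 0 < d) (hξ : IsPrimitiveRoot ξ d)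
    (O : Finset F) (hO : ∀ w ∈ O, g w ∈ O) (h0 : ∀ w ∈ O, c w ≠ 0) : d ∣ O.card := by
  classical
  have hmem : ∀ w ∈ O, ∀ i : ℕ, g^[i] w ∈ O := by
    intro w hw i
    induction i with
    | zero => simpa using hw
    | succ n ih =>
      rw [Function.iterate_succ_apply']
      exact hO _ ih
  have hfib : ∀ t ∈ O.image (fun w => (c w) ^ d), (O.filter (fun w => (c w) ^ d = t)).card = d := by
    intro t ht
    obtain ⟨w0, hw0, rfl⟩ := Finset.mem_image.mp ht
    have hne := h0 w0 hw0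
    have heq : O.filter (fun w => (c w) ^ d = (c w0) ^ d)
        = (Finset.range d).image (fun i => g^[i] w0) := by
      ext w
      simp only [Finset.mem_filter, Finset.mem_image, Finset.mem_range]
      constructor
      · rintro ⟨hw, hwd⟩
        have h1 : (c w / c w0) ^ d = 1 := by
          rw [div_pow, hwd]
          exact div_self (pow_ne_zero _ hne)
        have : NeZero d := ⟨hd.ne'⟩
        obtain ⟨i, hi, hi2⟩ := hξ.eq_pow_of_pow_eq_one h1
        refine ⟨i, hi, hc ?_⟩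
        rw [rc_iter g c ξ h, hi2]
        field_simp
      · rintro ⟨i, hi, rfl⟩
        refine ⟨hmem w0 hw0 i, ?_⟩
        rw [rc_iter g c ξ h, mul_pow, ← pow_mul, mul_comm i d, pow_mul, hξ.pow_eq_one, one_pow, one_mul]
    rw [heq, Finset.card_image_of_injOn, Finset.card_range]
    intro i hi j hj hij
    have hi' : i < d := by simpa using hi
    have hj' : j < d := by simpa using hj
    have h2 : ξ ^ i * c w0 = ξ ^ j * c w0 := by
      rw [← rc_iter g c ξ h, ← rc_iter g c ξ h]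
      exact congrArg c hij
    exact hξ.pow_inj hi' hj' (mul_right_cancel₀ hne h2)
  rw [Finset.card_eq_sum_card_image (fun w => (c w) ^ d) O, Finset.sum_congr rfl hfib]
  simp

private theorem rc_one {F : Type} (A : Equiv.Perm F) (c : F → ℂ) (hc : Function.Injective c)
    (h : ∀ w, c (A w) = c w) : A = 1 := by
  ext w
  exact hc (h w)

theorem rot_card {F : Type} [Finite F] (A : Equiv.Perm F) (c : F → ℂ) (hc : Function.Injective c) (ζ : ℂ)
    (h : ∀ w, c (A w) = ζ * c w) (N : ℕ) (hord : ∀ M : ℕ, A ^ M = 1 → N ∣ M) (j : ℕ) (hj : ¬ N ∣ j)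
    (P : F) (hP : A P = P) :
    ∃ d : ℕ, 2 ≤ d ∧ ∀ O : Finset F, (∀ w ∈ O, (A ^ j) w ∈ O) → P ∉ O → d ∣ O.card := by
  classical
  by_cases hF : ∀ w, w = P
  · refine ⟨2, le_refl _, fun O _ hPO => ?_⟩
    have : O = ∅ := by
      rw [Finset.eq_empty_iff_forall_notMem]
      intro w hw
      rw [hF w] at hw
      exact hPO hw
    rw [this]; simp
  push Not at hF
  obtain ⟨w1, hw1⟩ := hF
  have hζ : ζ ≠ 1 := by
    intro hz
    have hA : A = 1 := rc_one A c hc (fun w => by rw [h, hz, one_mul])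
    have : N ∣ 1 := hord 1 (by rw [hA, one_pow])
    exact hj (dvd_trans this (one_dvd j))
  have hcP : c P = 0 := by
    have h1 := h P
    rw [hP] at h1
    have h2 : (ζ - 1) * c P = 0 := by rw [sub_mul, one_mul, ← h1, sub_self]
    rcases mul_eq_zero.mp h2 with h3 | h3
    · exact absurd (sub_eq_zero.mp h3) hζ
    · exact h3
  have hcw : ∀ w, w ≠ P → c w ≠ 0 := by
    intro w hw hz
    exact hw (hc (by rw [hz, hcP]))
  set ξ := ζ ^ j with hξdef
  have hg : ∀ w, c ((A ^ j) w) = ξ * c w := fun w => rc_pow A c ζ h j w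
  have hξ1 : ξ ≠ 1 := by
    intro hz
    have hA : A ^ j = 1 := rc_one (A ^ j) c hc (fun w => by rw [hg, hz, one_mul])
    exact hj (hord j hA)
  obtain ⟨m, hm, hAm⟩ : ∃ m, 0 < m ∧ A ^ m = 1 := ⟨orderOf A, orderOf_pos A, pow_orderOf_eq_one A⟩
  have hζm : ζ ^ m = 1 := by
    have h1 := rc_pow A c ζ h m w1
    rw [hAm] at h1
    have h2 : c w1 ≠ 0 := hcw w1 hw1
    have h3 : (ζ ^ m) * c w1 = 1 * c w1 := by rw [one_mul]; exact h1.symm
    exact mul_right_cancel₀ h2 h3
  have hξm : ξ ^ m = 1 := by rw [hξdef, ← pow_mul, mul_comm, pow_mul, hζm, one_pow]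
  have hpos : 0 < orderOf ξ := orderOf_pos_iff.mpr (isOfFinOrder_iff_pow_eq_one.mpr ⟨m, hm, hξm⟩)
  have hne1 : orderOf ξ ≠ 1 := fun hh => hξ1 (orderOf_eq_one_iff.mp hh)
  refine ⟨orderOf ξ, by omega, fun O hO hPO => ?_⟩
  exact rc_core (fun w => (A ^ j) w) c hc ξ hg (orderOf ξ) hpos (IsPrimitiveRoot.orderOf ξ) O hO
    (fun w hw => hcw w (fun hh => hPO (hh ▸ hw)))

theorem rot_mod {F : Type} [Finite F] (A : Equiv.Perm F) (c : F → ℂ) (hc : Function.Injective c) (ζ : ℂ)
    (h : ∀ w, c (A w) = ζ * c w) (N : ℕ) (hN : 1 ≤ N) (hord : ∀ M : ℕ, A ^ M = 1 → N ∣ M) :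
    N ∣ Nat.card F ∨ Nat.card F ≡ 1 [MOD N] := by
  classical
  have := Fintype.ofFinite F
  rw [Nat.card_eq_fintype_card]
  set O : Finset F := Finset.univ.filter (fun w => c w ≠ 0) with hOdef
  set Z : Finset F := Finset.univ.filter (fun w => ¬ c w ≠ 0) with hZdef
  have hsum : O.card + Z.card = Fintype.card F := by
    rw [hOdef, hZdef, Finset.card_filter_add_card_filter_not]
    rfl
  have hZ : Z.card ≤ 1 := by
    rw [Finset.card_le_one]
    intro a ha b hb
    simp only [hZdef, Finset.mem_filter, not_not] at ha hb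
    exact hc (by rw [ha.2, hb.2])
  have hNO : N ∣ O.card := by
    by_cases hne : ∃ w, c w ≠ 0
    · obtain ⟨w1, hw1⟩ := hne
      obtain ⟨m, hm, hAm⟩ : ∃ m, 0 < m ∧ A ^ m = 1 := ⟨orderOf A, orderOf_pos A, pow_orderOf_eq_one A⟩
      have hζm : ζ ^ m = 1 := by
        have h1 := rc_pow A c ζ h m w1
        rw [hAm] at h1
        have h3 : (ζ ^ m) * c w1 = 1 * c w1 := by rw [one_mul]; exact h1.symm
        exact mul_right_cancel₀ hw1 h3
      have hpos : 0 < orderOf ζ := orderOf_pos_iff.mpr (isOfFinOrder_iff_pow_eq_one.mpr ⟨m, hm, hζm⟩)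
      have hA : A ^ (orderOf ζ) = 1 :=
        rc_one _ c hc (fun w => by rw [rc_pow A c ζ h, pow_orderOf_eq_one, one_mul])
      refine dvd_trans (hord _ hA) ?_
      refine rc_core (fun w => A w) c hc ζ h (orderOf ζ) hpos (IsPrimitiveRoot.orderOf ζ) O ?_ ?_
      · intro w hw
        have hζ0 : ζ ≠ 0 := by
          intro hz
          rw [hz, zero_pow hm.ne'] at hζm
          exact zero_ne_one hζm
        simp only [hOdef, Finset.mem_filter, Finset.mem_univ, true_and] at hw ⊢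
        rw [h]
        exact mul_ne_zero hζ0 hw
      · intro w hw
        simp only [hOdef, Finset.mem_filter] at hw
        exact hw.2
    · push Not at hne
      have : O = ∅ := by
        rw [Finset.eq_empty_iff_forall_notMem]
        intro w hw
        simp only [hOdef, Finset.mem_filter] at hw
        exact hw.2 (hne w)
      rw [this]; simp
  rcases Nat.lt_or_ge Z.card 1 with h1 | h1
  · left
    have : Z.card = 0 := by omega
    rw [← hsum, this, add_zero]
    exact hNO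
  · right
    have : Z.card = 1 := by omega
    rw [← hsum, this]
    have h2 : O.card ≡ 0 [MOD N] := (Nat.modEq_zero_iff_dvd).mpr hNO
    simpa using h2.add_right 1

private lemma g1b_eq {G : Type*} [Group G] {a b : G} (hb : a * b * a = b * a * b)
    (hc : a * b = b * a) : a = b := by
  rw [mul_assoc, ← hc, ← mul_assoc, mul_assoc a a b, hc] at hb
  have h1 : a * (b * a) = a * (b * b) := by
    rw [hb, ← hc, mul_assoc]
  exact mul_left_cancel (mul_left_cancel h1)

private lemma g1b_conj_pow {G : Type*} [Group G] {N : ℕ} {A : G} {σ : ZMod N → G} (h : Cyc N A σ)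
    (i : ZMod N) (m : ℕ) : A ^ m * σ i * (A ^ m)⁻¹ = σ (i + m) := by
  induction m with
  | zero => simp
  | succ m ih =>
    have h1 : A ^ (m + 1) * σ i * (A ^ (m + 1))⁻¹ = A * (A ^ m * σ i * (A ^ m)⁻¹) * A⁻¹ := by
      rw [pow_succ']
      group
    rw [h1, ih, h.conj]
    push_cast
    rw [add_assoc]

theorem eq_of_adj {G : Type*} [Group G] (k : ℕ) (hk : 4 < k) (s : ℕ → G)
    (hc : ∀ i j, i + 2 ≤ j → j + 1 < k → s i * s j = s j * s i)
    (hb : ∀ i, i + 2 < k → s i * s (i + 1) * s i = s (i + 1) * s i * s (i + 1))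
    (i₀ : ℕ) (hi₀ : i₀ + 2 < k) (h : s i₀ = s (i₀ + 1)) : ∀ i, i + 1 < k → s i = s 0 := by
  haveI : NeZero k := ⟨by omega⟩
  obtain ⟨σ, hσ, hσs⟩ := cyc_of_braid k hk s hc hb
  have h0 : σ (i₀ : ZMod k) = σ ((i₀ : ZMod k) + 1) := by
    have h1 := hσs (i₀ + 1) (by omega)
    rw [Nat.cast_add, Nat.cast_one] at h1
    rw [hσs i₀ (by omega), h1, h]
  have hstep : ∀ i : ZMod k, σ i = σ (i + 1) := by
    intro i
    have h1 := g1b_conj_pow hσ (i₀ : ZMod k) (i - (i₀ : ZMod k)).val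
    have h2 := g1b_conj_pow hσ ((i₀ : ZMod k) + 1) (i - (i₀ : ZMod k)).val
    rw [ZMod.natCast_zmod_val] at h1 h2
    have e1 : (i₀ : ZMod k) + (i - (i₀ : ZMod k)) = i := by ring
    have e2 : (i₀ : ZMod k) + 1 + (i - (i₀ : ZMod k)) = i + 1 := by ring
    rw [e1] at h1
    rw [e2] at h2
    rw [← h1, ← h2, h0]
  have hall : ∀ n : ℕ, σ (n : ZMod k) = σ 0 := by
    intro n
    induction n with
    | zero => simp
    | succ n ih =>
      rw [← ih, Nat.cast_add, Nat.cast_one]
      exact (hstep _).symm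
  intro i hi
  have h1 := hσs 0 (by omega)
  rw [Nat.cast_zero] at h1
  rw [← hσs i hi, hall i, h1]

theorem eq_of_02 {G : Type*} [Group G] (k : ℕ) (hk : 4 < k) (s : ℕ → G)
    (hc : ∀ i j, i + 2 ≤ j → j + 1 < k → s i * s j = s j * s i)
    (hb : ∀ i, i + 2 < k → s i * s (i + 1) * s i = s (i + 1) * s i * s (i + 1))
    (h : s 0 = s 2) : ∀ i, i + 1 < k → s i = s 0 := by
  refine eq_of_adj k hk s hc hb 2 (by omega) (g1b_eq (hb 2 (by omega)) ?_)
  rw [← h]
  exact hc 0 3 (by omega) (by omega)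

theorem ordA {G : Type*} [Group G] (k : ℕ) (hk : 4 < k) (s : ℕ → G)
    (hc : ∀ i j, i + 2 ≤ j → j + 1 < k → s i * s j = s j * s i)
    (hb : ∀ i, i + 2 < k → s i * s (i + 1) * s i = s (i + 1) * s i * s (i + 1))
    (hne : ¬ ∀ i, i + 1 < k → s i = s 0) (M : ℕ) (hM : ((List.range (k - 1)).map s).prod ^ M = 1) : k ∣ M := by
  obtain ⟨σ, hσ, hσs⟩ := cyc_of_braid k hk s hc hb
  by_contra hkM
  have h1 := collapse k (by omega) _ σ hσ M hkM hM
  apply hne
  intro i hi
  have h0 := hσs 0 (by omega)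
  rw [← hσs i hi, ← h0]
  exact h1 _ _

theorem ordB {G : Type*} [Group G] (k : ℕ) (hk : 4 < k) (s : ℕ → G)
    (hc : ∀ i j, i + 2 ≤ j → j + 1 < k → s i * s j = s j * s i)
    (hb : ∀ i, i + 2 < k → s i * s (i + 1) * s i = s (i + 1) * s i * s (i + 1))
    (hne : ¬ ∀ i, i + 1 < k → s i = s 0) (M : ℕ)
    (hM : (s 0 * ((List.range (k - 1)).map s).prod) ^ M = 1) : (k - 1) ∣ M := by
  obtain ⟨τ, hτ, hτs⟩ := cycB_of_braid k hk s hc hb
  by_contra hkM
  rcases Nat.lt_or_ge k 6 with hk6 | hk6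
  · obtain rfl : k = 5 := by omega
    have hper : ∀ i : ZMod (5 - 1), τ i = τ (i + (M : ZMod (5 - 1))) := by
      intro i
      rw [← g1b_conj_pow hτ i M, hM]
      simp
    have t1 := hτs 1 (by omega) (by omega)
    have t2 := hτs 2 (by omega) (by omega)
    have t3 := hτs 3 (by omega) (by omega)
    have hM4 : M % 4 = 1 ∨ M % 4 = 2 ∨ M % 4 = 3 := by omega
    have hcast : (M : ZMod (5 - 1)) = ((M % 4 : ℕ) : ZMod (5 - 1)) := by
      rw [ZMod.natCast_eq_natCast_iff]
      exact (Nat.mod_modEq M 4).symm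
    rcases hM4 with h | h | h
    · rw [h] at hcast
      have h1 := hper ((1 : ℕ) : ZMod (5 - 1))
      rw [hcast, ← Nat.cast_add, t1, t2] at h1
      exact hne (eq_of_adj 5 hk s hc hb 1 (by omega) h1)
    · rw [h] at hcast
      have h1 := hper ((1 : ℕ) : ZMod (5 - 1))
      rw [hcast, ← Nat.cast_add, t1, t3] at h1
      refine hne (eq_of_adj 5 hk s hc hb 0 (by omega) (g1b_eq (hb 0 (by omega)) ?_))
      rw [zero_add, h1]
      exact hc 0 3 (by omega) (by omega)
    · rw [h] at hcast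
      have h1 := hper ((2 : ℕ) : ZMod (5 - 1))
      have e : ((2 : ℕ) : ZMod (5 - 1)) + ((3 : ℕ) : ZMod (5 - 1)) = ((1 : ℕ) : ZMod (5 - 1)) := by
        decide
      rw [hcast, e, t1, t2] at h1
      exact hne (eq_of_adj 5 hk s hc hb 1 (by omega) h1.symm)
  · have h1 := collapse (k - 1) (by omega) _ τ hτ M hkM hM
    have h12 : s 1 = s 2 := by
      rw [← hτs 1 (le_refl 1) (by omega), ← hτs 2 (by omega) (by omega)]
      exact h1 _ _
    exact hne (eq_of_adj k hk s hc hb 1 (by omega) h12)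

end Pool.Agent.Helper96.LN3
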