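import Pool.Agent.Helper96.LN3.Wind
import Pool.Agent.Helper2.LN.GrpA

/-!
# LN3-L14 (MP_730da0_ag): the sum rule (algebra)

Paper proof.  `O` is a finite set of pairs, invariant under all `s_i` (hence under `s_i⁻¹`: an injective self map of a finite set).  For `g` preserving `O` let `χ(g) = Σ_(x ∈ O) g.d x.1 x.2`; `χ(g h) = χ(g) + χ(h)` if `g`, `h`
preserve `O` (reindexing), `χ(g⁻¹) = - χ(g)`, so `χ(g h g⁻¹) = χ(h)`.  `s_(i+1) = (s_i s_(i+1)) s_i (s_i s_(i+1))⁻¹` (braid relation), so `χ(s_i) = χ(s_0)`, and `χ(A) = (k-1) χ(s_0)` (product over the list).  By `hA`: `χ(A) = |O| κ + Σ_O η x - Σ_O η (A x) = |O| κ`.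
`χ(g^M) = M χ(g)` and `wd g = (g^M).d/(2πi)`, so `Σ_O wd (s_i) = M χ(s_i)/(2πi) = |O| · M κ/((k-1) 2πi)`.
-/

namespace Pool.Agent.Helper96.LN3

/-- `g` preserves the finite set of pairs `O`. -/
private def Prs {F : Type} (O : Finset (F × F)) (g : WG F) : Prop :=
  ∀ x ∈ O, (g.p x.1, g.p x.2) ∈ O

/-- The sum of the cocycle over `O`. -/
private noncomputable def chi {F : Type} (O : Finset (F × F)) (g : WG F) : ℂ :=
  ∑ x ∈ O, g.d x.1 x.2

private theorem sum_re {F : Type} (O : Finset (F × F)) (g : WG F) (hg : Prs O g) (f : F → F → ℂ) :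
    ∑ x ∈ O, f (g.p x.1) (g.p x.2) = ∑ x ∈ O, f x.1 x.2 := by
  classical
  have hinj : Function.Injective fun x : F × F => (g.p x.1, g.p x.2) := by
    intro x y hxy
    have h1 := congrArg Prod.fst hxy
    have h2 := congrArg Prod.snd hxy
    exact Prod.ext (g.p.injective h1) (g.p.injective h2)
  have himg : O.image (fun x : F × F => (g.p x.1, g.p x.2)) = O := by
    apply Finset.eq_of_subset_of_card_le
    · intro y hy
      obtain ⟨x, hx, rfl⟩ := Finset.mem_image.1 hy
      exact hg x hx
    · rw [Finset.card_image_of_injective _ hinj]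
  calc ∑ x ∈ O, f (g.p x.1) (g.p x.2)
      = ∑ y ∈ O.image (fun x : F × F => (g.p x.1, g.p x.2)), f y.1 y.2 := by
        rw [Finset.sum_image (fun x _ y _ h => hinj h)]
    _ = ∑ x ∈ O, f x.1 x.2 := by rw [himg]

private theorem prs_mul {F : Type} {O : Finset (F × F)} {g h : WG F} (hg : Prs O g) (hh : Prs O h) :
    Prs O (g * h) := fun x hx => hg _ (hh x hx)

private theorem prs_one {F : Type} (O : Finset (F × F)) : Prs O (1 : WG F) := fun _ hx => hx

private theorem chi_mul {F : Type} {O : Finset (F × F)} (g : WG F) {h : WG F} (hh : Prs O h) :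
    chi O (g * h) = chi O g + chi O h := by
  unfold chi
  rw [← sum_re O h hh (fun a b => g.d a b), ← Finset.sum_add_distrib]
  refine Finset.sum_congr rfl fun x _ => ?_
  rw [WG.mul_d, add_comm]

private theorem chi_one {F : Type} (O : Finset (F × F)) : chi O (1 : WG F) = 0 := by
  simp [chi]

private theorem prs_pow {F : Type} {O : Finset (F × F)} {g : WG F} (hg : Prs O g) (n : ℕ) :
    Prs O (g ^ n) := by
  induction n with
  | zero => rw [pow_zero]; exact prs_one O
  | succ n ih => rw [pow_succ]; exact prs_mul ih hg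

private theorem chi_pow {F : Type} {O : Finset (F × F)} {g : WG F} (hg : Prs O g) (n : ℕ) :
    chi O (g ^ n) = n * chi O g := by
  induction n with
  | zero => rw [pow_zero, chi_one]; simp
  | succ n ih =>
    rw [pow_succ, chi_mul _ hg, ih]
    push_cast
    ring

private theorem chi_list {F : Type} {O : Finset (F × F)} (s : ℕ → WG F) (n : ℕ)
    (hs : ∀ i, i < n → Prs O (s i)) :
    Prs O (((List.range n).map s).prod) ∧
      chi O (((List.range n).map s).prod) = ∑ i ∈ Finset.range n, chi O (s i) := by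
  induction n with
  | zero => exact ⟨prs_one O, by simp [chi_one]⟩
  | succ n ih =>
    obtain ⟨h1, h2⟩ := ih fun i hi => hs i (by omega)
    have h3 := hs n (by omega)
    rw [List.range_succ, List.map_append, List.prod_append]
    have h4 : (List.map s [n]).prod = s n := by simp
    rw [h4]
    exact ⟨prs_mul h1 h3, by rw [chi_mul _ h3, h2, Finset.sum_range_succ]⟩

theorem sum_rule {F : Type} [Finite F] (k : ℕ) (hk : 2 ≤ k) (s : ℕ → WG F)
    (hb : ∀ i, i + 2 < k → s i * s (i + 1) * s i = s (i + 1) * s i * s (i + 1)) (κ : ℂ) (η : F → F → ℂ)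
    (hA : ∀ a b, a ≠ b → (((List.range (k - 1)).map s).prod).d a b = κ + η a b -
      η ((((List.range (k - 1)).map s).prod).p a) ((((List.range (k - 1)).map s).prod).p b)) :
    ∃ t : ℂ, ∀ O : Finset (F × F), (∀ x ∈ O, x.1 ≠ x.2) →
      (∀ i, i + 1 < k → ∀ x ∈ O, ((s i).p x.1, (s i).p x.2) ∈ O) →
      ∀ i, i + 1 < k → ∑ x ∈ O, wd (s i) x.1 x.2 = O.card * t := by
  refine ⟨per F * (κ / ((k : ℂ) - 1)) / (2 * Real.pi * Complex.I), ?_⟩
  intro O hne hO i hi
  have hP : ∀ j, j + 1 < k → Prs O (s j) := fun j hj => hO j hj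
  -- all the sums are equal
  have hstep : ∀ j, j + 2 < k → chi O (s (j + 1)) = chi O (s j) := by
    intro j hj
    have h0 := hP j (by omega)
    have h1 := hP (j + 1) (by omega)
    have h2 := congrArg (chi O) (hb j hj)
    rw [chi_mul _ h0, chi_mul _ h1, chi_mul _ h1, chi_mul _ h0] at h2
    linear_combination -h2
  have hall : ∀ j, j + 1 < k → chi O (s j) = chi O (s 0) := by
    intro j
    induction j with
    | zero => intro _; rfl
    | succ j ih => intro hj; rw [hstep j (by omega), ih (by omega)]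
  -- the sum over the product
  obtain ⟨hAP, hAs⟩ := chi_list (O := O) s (k - 1) fun j hj => hP j (by omega)
  have hsum : ∑ j ∈ Finset.range (k - 1), chi O (s j) = ((k : ℂ) - 1) * chi O (s 0) := by
    rw [Finset.sum_congr rfl (g := fun _ => chi O (s 0)) fun j hj =>
      hall j (by have := Finset.mem_range.1 hj; omega)]
    rw [Finset.sum_const, Finset.card_range, nsmul_eq_mul, Nat.cast_sub (by omega), Nat.cast_one]
  have hAk : chi O (((List.range (k - 1)).map s).prod) = O.card * κ := by
    have h5 : chi O (((List.range (k - 1)).map s).prod) = ∑ x ∈ O, (κ + (η x.1 x.2 -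
        η ((((List.range (k - 1)).map s).prod).p x.1) ((((List.range (k - 1)).map s).prod).p x.2))) := by
      unfold chi
      refine Finset.sum_congr rfl fun x hx => ?_
      rw [hA x.1 x.2 (hne x hx)]
      ring
    rw [h5, Finset.sum_add_distrib, Finset.sum_sub_distrib, sum_re O _ hAP η, sub_self, add_zero,
      Finset.sum_const, nsmul_eq_mul]
  have hk1 : ((k : ℂ) - 1) ≠ 0 := by
    have h6 : (k : ℂ) ≠ 1 := by
      intro h
      have : k = 1 := by exact_mod_cast h
      omega
    exact sub_ne_zero.2 h6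
  have h0 : chi O (s 0) = O.card * κ / ((k : ℂ) - 1) := by
    rw [eq_div_iff hk1, mul_comm, ← hsum, ← hAs, hAk]
  have hwd : ∑ x ∈ O, wd (s i) x.1 x.2 = chi O (s i ^ per F) / (2 * Real.pi * Complex.I) := by
    unfold wd chi
    rw [Finset.sum_div]
  rw [hwd, chi_pow (hP i hi), hall i hi, h0]
  ring

end Pool.Agent.Helper96.LN3
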