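import Pool.Agent.Helper96.LN3.Core
import Pool.Agent.Helper96.LN3.SumRule
import Pool.Agent.Helper96.LN3.RotCard

/-!
# LN3-K3 (MP_730da0_ag): `card F = 1 mod k`

Paper proofs.  `A = s_0 ⋯ s_(k-2)` in `WG F`; `σ` from `cyc_of_braid` (in the group `WG F`): `A s_i A⁻¹ = s_(i+1)` (`i + 2 < k`).
`one_a`: all `s_i` fix `P`, so `A P = P`.  `wn_pt` for the pairs `(0,2)` (`g = A^2`), `(0,3)` (`g = A^3`), `(1,3)` (`g = A^2`): for `w ≠ P`: `wn (s 0) w P = wn (s 2) w P = wn (s 3) w P = wn (s 1) w P =: m w`.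
`wn (s 1) (A w) P = wn (s 0) w P` (`wn_conj`), so `m (A w) = m w`; `wn (s i) (A^i w) P = wn (s 0) w P = m w = m (A^i w)`, so `wn (s i) w P = m w` for all `i`; `m (s_i w) = wn (s i) (s_i w) P = wn (s i) w P = m w` (`wn_comm` with `g = h`).
`one_b`: for `w ≠ P`, `O = {(w', P) : w' ≠ P, m w' = m w}` is invariant; `int₀`: `Σ_O wd (s 0) = |O| m w`, so `t = m w`: all `m w` are equal to one integer `T` with `(T : ℂ) = t` (if there is no `w ≠ P` nothing is to be shown: `F` has no pair `a ≠ b`).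
`O = {(a,b) : a ≠ b}`: `Σ_O (wn (s 0) + wn (s 2)) = 2 T |O|`; for `a, b ≠ P` `ultra` for `(P; a, b)` gives `wn (s 0) a b + wn (s 2) a b ≥ 2T` (for `a = P` or `b = P` equality); so all are `= 2T`.
`opp` for `(a; b, P)` (`a ≠ P`): `(wn (s 0) a b - T)(wn (s 2) a b - T) ≥ 0` and the sum of the factors is `0`: both are `0`.
`one_c`: `w₁ ≠ P` (if there is none, `F` is one point).  `X` from `exists_X`; `InB` holds for all `w`.  `X_mul` with `w₂ = w₁` (`g₀.p P = P`): `X (g₀ w) = μ X w`; `hC.swap`: `X (g₂ w) = μ X w`.  `X` is injective: let `w ≠ w'`; if one is `P`: `eq0`.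
Otherwise `lim` for `(w; w', P)`: `(x_w - x_(w'))/(x_w - x_P) → r ≠ 0`, times `(x_w - x_P)/(x_(w₁) - x_P) → X w ≠ 0`: the limit of `(x_w - x_(w'))/(x_(w₁) - x_P)`, which is `X w - X w'`, is not `0`.
`case_one`: by contradiction.  `ordA` (in `Perm F`), `rot_fix` (Helper2/LN/GrpB.lean): `A P = P`.  `rot_card` with `j = 2`, `core3` for `(s 0, s 2)`, `g = A^2`: `s_0 P = P`, and with `A`: `s_i P = P` for all `i`.  `sum_rule`, `one_b`, `one_c`: `(s 0).p = (s 2).p`; `eq_of_02`.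
-/

namespace Pool.Agent.Helper96.LN3

theorem one_a {F : Type} [Finite F] (k : ℕ) (hk : 4 < k) (s : ℕ → WG F)
    (hc : ∀ i j, i + 2 ≤ j → j + 1 < k → s i * s j = s j * s i)
    (hb : ∀ i, i + 2 < k → s i * s (i + 1) * s i = s (i + 1) * s i * s (i + 1))
    (hcor : ∀ i j, i + 2 ≤ j → j + 1 < k → ∃ x, Corner (s i) (s j) x)
    (P : F) (hP : ∀ i, i + 1 < k → (s i).p P = P) :
    ∃ m : F → ℤ, (∀ i, i + 1 < k → ∀ w, w ≠ P → wn (s i) w P = m w) ∧
      ∀ i, i + 1 < k → ∀ w, m ((s i).p w) = m w := by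
  obtain ⟨σ, hσ, hσs⟩ := Pool.Agent.Helper2.LN.cyc_of_braid k hk s hc hb
  set A : WG F := ((List.range (k - 1)).map s).prod with hA
  have hAP : A.p P = P := by
    have h1 : ∀ n, n ≤ k - 1 → (((List.range n).map s).prod).p P = P := by
      intro n
      induction n with
      | zero => intro _; simp
      | succ n ih =>
        intro hn
        rw [List.range_succ, List.map_append, List.prod_append, WG.mul_p, Equiv.Perm.mul_apply]
        have h4 : (List.map s [n]).prod = s n := by simp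
        rw [h4, hP n (by omega)]
        exact ih (by omega)
    exact h1 (k - 1) le_rfl
  have hApow : ∀ n : ℕ, (A ^ n).p P = P := by
    intro n
    induction n with
    | zero => simp
    | succ n ih => rw [pow_succ, WG.mul_p, Equiv.Perm.mul_apply, hAP, ih]
  have hstep : ∀ i, i + 2 < k → s (i + 1) = A * s i * A⁻¹ := by
    intro i hi
    have h1 := hσ.conj (i : ZMod k)
    rw [hσs i (by omega)] at h1
    rw [h1, ← hσs (i + 1) (by omega), Nat.cast_add, Nat.cast_one]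
  have hpow : ∀ n i, i + n + 1 < k → s (i + n) = A ^ n * s i * (A ^ n)⁻¹ := by
    intro n
    induction n with
    | zero => intro i _; simp
    | succ n ih =>
      intro i hi
      rw [← Nat.add_assoc, hstep (i + n) (by omega), ih i (by omega), pow_succ' A n]
      group
  obtain ⟨x02, h02⟩ := hcor 0 2 (by omega) (by omega)
  obtain ⟨x03, h03⟩ := hcor 0 3 (by omega) (by omega)
  obtain ⟨x13, h13⟩ := hcor 1 3 (by omega) (by omega)
  have e02 := h02.wn_pt (A ^ 2) (by simpa using hpow 2 0 (by omega)) P (hApow 2)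
  have e03 := h03.wn_pt (A ^ 3) (by simpa using hpow 3 0 (by omega)) P (hApow 3)
  have e13 := h13.wn_pt (A ^ 2) (hpow 2 1 (by omega)) P (hApow 2)
  have e01 : ∀ w, w ≠ P → wn (s 1) w P = wn (s 0) w P := fun w hw => by rw [e13 w hw, e03 w hw]
  have hmA : ∀ w, wn (s 0) (A.p w) P = wn (s 0) w P := by
    intro w
    by_cases hw : w = P
    · rw [hw, hAP]
    · have hw' : A.p w ≠ P := fun h => hw (A.p.injective (h.trans hAP.symm))
      have h1 := wn_conj A (s 0) w P
      rw [← hstep 0 (by omega), hAP] at h1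
      rw [← e01 _ hw']
      exact h1
  have hmAn : ∀ (n : ℕ) (w : F), wn (s 0) ((A ^ n).p w) P = wn (s 0) w P := by
    intro n
    induction n with
    | zero => intro w; simp
    | succ n ih => intro w; rw [pow_succ, WG.mul_p, Equiv.Perm.mul_apply, ih, hmA]
  have hall : ∀ i, i + 1 < k → ∀ w, wn (s i) w P = wn (s 0) w P := by
    intro i hi w
    have h1 := wn_conj (A ^ i) (s 0) ((A ^ i).p⁻¹ w) P
    have h2 : s i = A ^ i * s 0 * (A ^ i)⁻¹ := by simpa using hpow i 0 (by omega)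
    rw [← h2, hApow i] at h1
    have h3 := hmAn i ((A ^ i).p⁻¹ w)
    have h4 : (A ^ i).p ((A ^ i).p⁻¹ w) = w := by simp
    rw [h4] at h1 h3
    rw [h1, h3]
  refine ⟨fun w => wn (s 0) w P, fun i hi w _ => hall i hi w, fun i hi w => ?_⟩
  show wn (s 0) ((s i).p w) P = wn (s 0) w P
  have h1 := wn_comm (s i) (s i) rfl w P
  rw [hP i hi] at h1
  rw [← hall i hi, h1, hall i hi]

theorem one_b {F : Type} [Finite F] (k : ℕ) (hk : 4 < k) (s : ℕ → WG F)
    (hc : ∀ i j, i + 2 ≤ j → j + 1 < k → s i * s j = s j * s i)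
    (hb : ∀ i, i + 2 < k → s i * s (i + 1) * s i = s (i + 1) * s i * s (i + 1))
    (hcor : ∀ i j, i + 2 ≤ j → j + 1 < k → ∃ x, Corner (s i) (s j) x)
    (P : F) (hP : ∀ i, i + 1 < k → (s i).p P = P) (t : ℂ)
    (ht : ∀ O : Finset (F × F), (∀ x ∈ O, x.1 ≠ x.2) →
      (∀ i, i + 1 < k → ∀ x ∈ O, ((s i).p x.1, (s i).p x.2) ∈ O) →
      ∀ i, i + 1 < k → ∑ x ∈ O, wd (s i) x.1 x.2 = O.card * t) :
    ∃ T : ℤ, ∀ a b, a ≠ b → wn (s 0) a b = T ∧ wn (s 2) a b = T := by
  classical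
  have := Fintype.ofFinite F
  obtain ⟨m, hm1, hm2⟩ := one_a k hk s hc hb hcor P hP
  obtain ⟨x, hC⟩ := hcor 0 2 (by omega) (by omega)
  by_cases hex : ∃ w, w ≠ P
  swap
  · push Not at hex
    exact ⟨0, fun a b hab => absurd ((hex a).trans (hex b).symm) hab⟩
  have hmt : ∀ w, w ≠ P → (m w : ℂ) = t := by
    intro w hw
    have hinv := ht (Finset.univ.filter fun y : F × F => y.2 = P ∧ y.1 ≠ P ∧ m y.1 = m w) (by
      intro y hy
      simp only [Finset.mem_filter, Finset.mem_univ, true_and] at hy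
      rw [hy.1]
      exact hy.2.1) (by
      intro i hi y hy
      simp only [Finset.mem_filter, Finset.mem_univ, true_and] at hy ⊢
      refine ⟨by rw [hy.1, hP i hi], fun h => hy.2.1 ((s i).p.injective (h.trans (hP i hi).symm)), ?_⟩
      rw [hm2 i hi, hy.2.2]) 0 (by omega)
    have hne : ((Finset.univ.filter fun y : F × F => y.2 = P ∧ y.1 ≠ P ∧ m y.1 = m w).card : ℂ) ≠ 0 := by
      have h1 : (w, P) ∈ Finset.univ.filter fun y : F × F => y.2 = P ∧ y.1 ≠ P ∧ m y.1 = m w := by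
        simp [hw]
      have h2 := Finset.card_pos.2 ⟨_, h1⟩
      exact_mod_cast h2.ne'
    have hsum : ∑ y ∈ Finset.univ.filter (fun y : F × F => y.2 = P ∧ y.1 ≠ P ∧ m y.1 = m w),
        wd (s 0) y.1 y.2 = ∑ y ∈ Finset.univ.filter (fun y : F × F => y.2 = P ∧ y.1 ≠ P ∧ m y.1 = m w),
        (m w : ℂ) := by
      refine Finset.sum_congr rfl fun y hy => ?_
      simp only [Finset.mem_filter, Finset.mem_univ, true_and] at hy
      rw [hC.int₀ y.1 y.2 (by rw [hy.1]; exact hy.2.1), hy.1, hm1 0 (by omega) y.1 hy.2.1, hy.2.2]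
    rw [hsum, Finset.sum_const, nsmul_eq_mul] at hinv
    exact mul_left_cancel₀ hne hinv
  obtain ⟨w₀, hw₀⟩ := hex
  have hT : ∀ w, w ≠ P → m w = m w₀ := by
    intro w hw
    have h1 : (m w : ℂ) = (m w₀ : ℂ) := (hmt w hw).trans (hmt w₀ hw₀).symm
    exact_mod_cast h1
  have h0P : ∀ w, w ≠ P → wn (s 0) w P = m w₀ := fun w hw => (hm1 0 (by omega) w hw).trans (hT w hw)
  have h2P : ∀ w, w ≠ P → wn (s 2) w P = m w₀ := fun w hw => (hm1 2 (by omega) w hw).trans (hT w hw)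
  have hsum2 : ∑ y ∈ Finset.univ.filter (fun y : F × F => y.1 ≠ y.2),
      (wn (s 0) y.1 y.2 + wn (s 2) y.1 y.2 - 2 * m w₀) = 0 := by
    have hne : ∀ y ∈ Finset.univ.filter (fun y : F × F => y.1 ≠ y.2), y.1 ≠ y.2 := by
      intro y hy
      simpa using hy
    have hinv : ∀ i, i + 1 < k → ∀ y ∈ Finset.univ.filter (fun y : F × F => y.1 ≠ y.2),
        ((s i).p y.1, (s i).p y.2) ∈ Finset.univ.filter (fun y : F × F => y.1 ≠ y.2) := by
      intro i hi y hy
      simp only [Finset.mem_filter, Finset.mem_univ, true_and] at hy ⊢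
      exact fun h => hy ((s i).p.injective h)
    have h1 := ht _ hne hinv 0 (by omega)
    have h2 := ht _ hne hinv 2 (by omega)
    have h3 : ∑ y ∈ Finset.univ.filter (fun y : F × F => y.1 ≠ y.2), wd (s 0) y.1 y.2 =
        ∑ y ∈ Finset.univ.filter (fun y : F × F => y.1 ≠ y.2), (wn (s 0) y.1 y.2 : ℂ) :=
      Finset.sum_congr rfl fun y hy => hC.int₀ _ _ (hne y hy)
    have h4 : ∑ y ∈ Finset.univ.filter (fun y : F × F => y.1 ≠ y.2), wd (s 2) y.1 y.2 =
        ∑ y ∈ Finset.univ.filter (fun y : F × F => y.1 ≠ y.2), (wn (s 2) y.1 y.2 : ℂ) :=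
      Finset.sum_congr rfl fun y hy => hC.int₂ _ _ (hne y hy)
    have h5 : ((∑ y ∈ Finset.univ.filter (fun y : F × F => y.1 ≠ y.2),
      (wn (s 0) y.1 y.2 + wn (s 2) y.1 y.2 - 2 * m w₀) : ℤ) : ℂ) = 0 := by
      push_cast
      rw [Finset.sum_sub_distrib, Finset.sum_add_distrib, ← h3, ← h4, h1, h2, Finset.sum_const,
        nsmul_eq_mul, hmt w₀ hw₀]
      ring
    exact_mod_cast h5
  have hnn : ∀ y ∈ Finset.univ.filter (fun y : F × F => y.1 ≠ y.2),
      0 ≤ wn (s 0) y.1 y.2 + wn (s 2) y.1 y.2 - 2 * m w₀ := by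
    intro y hy
    simp only [Finset.mem_filter, Finset.mem_univ, true_and] at hy
    by_cases h1 : y.1 = P
    · have h2 : y.2 ≠ P := fun h => hy (h1.trans h.symm)
      rw [hC.sym₀, hC.sym₂, h1, h0P _ h2, h2P _ h2]
      omega
    · by_cases h2 : y.2 = P
      · rw [h2, h0P _ h1, h2P _ h1]
        omega
      · have h3 := hC.ultra P y.1 y.2 (Ne.symm h1) (Ne.symm h2) hy
        rw [hC.sym₀ P y.1, hC.sym₂ P y.1, hC.sym₀ P y.2, hC.sym₂ P y.2, h0P _ h1, h2P _ h1, h0P _ h2,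
          h2P _ h2, min_self] at h3
        omega
  have hz := (Finset.sum_eq_zero_iff_of_nonneg hnn).1 hsum2
  refine ⟨m w₀, fun a b hab => ?_⟩
  by_cases h1 : a = P
  · have h2 : b ≠ P := fun h => hab (h1.trans h.symm)
    rw [hC.sym₀, hC.sym₂, h1]
    exact ⟨h0P b h2, h2P b h2⟩
  · by_cases h2 : b = P
    · rw [h2]
      exact ⟨h0P a h1, h2P a h1⟩
    · have h3 := hz (a, b) (by simp [hab])
      have h4 := hC.opp a b P hab h1 h2
      rw [h0P a h1, h2P a h1] at h4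
      simp only at h3
      have h5 : wn (s 2) a b - m w₀ = -(wn (s 0) a b - m w₀) := by linarith
      rw [h5] at h4
      have h6 : wn (s 0) a b - m w₀ = 0 := by nlinarith [sq_nonneg (wn (s 0) a b - m w₀)]
      constructor
      · linarith
      · linarith

theorem one_c {F : Type} [Finite F] {g₀ g₂ : WG F} {x : F → ℝ → ℂ} (hC : Corner g₀ g₂ x) (P : F)
    (h0 : g₀.p P = P) (h2 : g₂.p P = P) (T : ℤ) (hT : ∀ a b, a ≠ b → wn g₀ a b = T ∧ wn g₂ a b = T) :
    g₀.p = g₂.p := by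
  classical
  by_cases hall : ∀ w, w = P
  · ext w
    rw [hall (g₀.p w), hall (g₂.p w)]
  obtain ⟨w₁, hw₁⟩ := not_forall.1 hall
  obtain ⟨X, hX⟩ := hC.exists_X P w₁ hw₁
  have hIn : ∀ w, InB g₀ g₂ P w₁ w := by
    intro w
    by_cases h : w = P
    · exact Or.inl h
    · right
      rw [(hT w P h).1, (hT w P h).2, (hT w₁ P hw₁).1, (hT w₁ P hw₁).2]
      exact ⟨le_refl _, le_refl _⟩
  have hIn2 : ∀ w, InB g₂ g₀ P w₁ w := by
    intro w
    by_cases h : w = P
    · exact Or.inl h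
    · right
      rw [(hT w P h).1, (hT w P h).2, (hT w₁ P hw₁).1, (hT w₁ P hw₁).2]
      exact ⟨le_refl _, le_refl _⟩
  have hX0 : ∀ w, X (g₀.p w) = Complex.exp (2 * Real.pi * Complex.I * T / per F) * X w := by
    intro w
    have h3 := hC.X_mul hw₁ hX w₁ hw₁ rfl rfl (Or.inr h0) w (hIn w) (hIn _)
    rw [h0, hX.zero, add_zero, (hT w₁ P hw₁).1] at h3
    exact h3
  have hX2 : ∀ w, X (g₂.p w) = Complex.exp (2 * Real.pi * Complex.I * T / per F) * X w := by
    intro w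
    have h3 := hC.swap.X_mul hw₁ hX.swap w₁ hw₁ rfl rfl (Or.inr h2) w (hIn2 w) (hIn2 _)
    rw [h2, hX.zero, add_zero, (hT w₁ P hw₁).2] at h3
    exact h3
  have hne0 : ∀ w, w ≠ P → X w ≠ 0 := by
    intro w hw h3
    refine (hX.eq0 w hw (hIn w)).1 h3 ⟨?_, ?_⟩
    · rw [(hT w P hw).1, (hT w₁ P hw₁).1]
    · rw [(hT w P hw).2, (hT w₁ P hw₁).2]
  have hinj : Function.Injective X := by
    intro w w' hww
    by_contra hne
    by_cases hw : w = P
    · subst hw
      rw [hX.zero] at hww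
      exact hne0 w' (Ne.symm hne) hww.symm
    by_cases hw' : w' = P
    · subst hw'
      rw [hX.zero] at hww
      exact hne0 w hw hww
    obtain ⟨r, hr, l1, -, -⟩ := hC.lim w w' P hne hw hw'
      (by rw [(hT w w' hne).1, (hT w P hw).1]) (by rw [(hT w w' hne).2, (hT w P hw).2])
    have l2 := l1.mul (hX.tend w (hIn w))
    have l3 := (hX.tend w (hIn w)).sub (hX.tend w' (hIn w'))
    have l4 : Filter.Tendsto (fun t => rat x w w' P t * ((x w t - x P t) / (x w₁ t - x P t)))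
        Filter.atTop (nhds (X w - X w')) := by
      refine l3.congr' ?_
      filter_upwards [Filter.eventually_gt_atTop (0 : ℝ)] with t ht
      have h3 : x w t - x P t ≠ 0 := sub_ne_zero.2 fun h4 => hw (hC.inj t ht h4)
      have h4 : x w₁ t - x P t ≠ 0 := sub_ne_zero.2 fun h5 => hw₁ (hC.inj t ht h5)
      unfold rat
      field_simp
      ring
    have h5 := tendsto_nhds_unique l2 l4
    rw [hww, sub_self] at h5
    rcases mul_eq_zero.1 h5 with h6 | h6
    · exact hr h6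
    · exact hne0 w' hw' h6
  ext w
  exact hinj (by rw [hX0, hX2])

open Pool.Agent.Helper2.LN

private theorem prod_p {F : Type} (s : ℕ → WG F) (l : List ℕ) :
    (l.map s).prod.p = (l.map fun i => (s i).p).prod := by
  induction l with
  | nil => rfl
  | cons i l ih => rw [List.map_cons, List.prod_cons, WG.mul_p, ih, List.map_cons, List.prod_cons]

theorem case_one {F : Type} [Finite F] (k : ℕ) (hk : 4 < k) (s : ℕ → WG F)
    (hc : ∀ i j, i + 2 ≤ j → j + 1 < k → s i * s j = s j * s i)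
    (hb : ∀ i, i + 2 < k → s i * s (i + 1) * s i = s (i + 1) * s i * s (i + 1))
    (hcor : ∀ i j, i + 2 ≤ j → j + 1 < k → ∃ x, Corner (s i) (s j) x)
    (hcard : Nat.card F ≡ 1 [MOD k]) (hcard2 : 2 ≤ Nat.card F)
    (rotA : ∃ c : F → ℂ, Function.Injective c ∧ ∃ ζ : ℂ, ∀ w,
      c (((List.range (k - 1)).map fun i => (s i).p).prod w) = ζ * c w)
    (coc : ∃ (κ : ℂ) (η : F → F → ℂ), ∀ a b, a ≠ b → (((List.range (k - 1)).map s).prod).d a b = κ + η a b -
      η ((((List.range (k - 1)).map s).prod).p a) ((((List.range (k - 1)).map s).prod).p b)) :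
    ∀ i, i + 1 < k → (s i).p = (s 0).p := by
  by_contra hne
  have hcp : ∀ i j, i + 2 ≤ j → j + 1 < k → (s i).p * (s j).p = (s j).p * (s i).p := fun i j hij hj =>
    congrArg WG.p (hc i j hij hj)
  have hbp : ∀ i, i + 2 < k → (s i).p * (s (i + 1)).p * (s i).p = (s (i + 1)).p * (s i).p * (s (i + 1)).p :=
    fun i hi => congrArg WG.p (hb i hi)
  have oA := ordA k hk (fun i => (s i).p) hcp hbp hne
  obtain ⟨c, hc1, ζ, hζ⟩ := rotA
  obtain ⟨κ, η, hcoc⟩ := coc
  obtain ⟨P, hP, -⟩ := (rot_fix _ c hc1 ζ hζ k (by omega) oA hcard2).1 hcard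
  have hAp := prod_p s (List.range (k - 1))
  obtain ⟨σ, hσ, hσs⟩ := cyc_of_braid k hk s hc hb
  obtain ⟨A, hA⟩ : ∃ A, A = ((List.range (k - 1)).map s).prod := ⟨_, rfl⟩
  rw [← hA] at hσ hAp
  have hAP : A.p P = P := by
    rw [hAp]
    exact hP
  have hpw : ∀ i : ℕ, (A ^ i).p P = P := by
    intro i
    rw [pow_p]
    induction i with
    | zero => rfl
    | succ i ih => rw [pow_succ, Equiv.Perm.mul_apply, hAP, ih]
  have hcj : ∀ i : ℕ, A ^ i * σ 0 * (A ^ i)⁻¹ = σ (i : ZMod k) := by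
    intro i
    induction i with
    | zero => simp
    | succ i ih =>
      have h1 : A ^ (i + 1) * σ 0 * (A ^ (i + 1))⁻¹ = A * (A ^ i * σ 0 * (A ^ i)⁻¹) * A⁻¹ := by
        rw [pow_succ']
        group
      rw [h1, ih, hσ.conj, Nat.cast_add, Nat.cast_one]
  have hσ0 : σ 0 = s 0 := by
    have h1 := hσs 0 (by omega)
    rwa [Nat.cast_zero] at h1
  have hsi : ∀ i, i + 1 < k → s i = A ^ i * s 0 * (A ^ i)⁻¹ := by
    intro i hi
    rw [← hσs i hi, ← hcj i, hσ0]
  obtain ⟨d, hd, hO⟩ := rot_card _ c hc1 ζ hζ k oA 2 (fun h => by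
    have := Nat.le_of_dvd (by omega) h
    omega) P hP
  rw [← hAp] at hO
  obtain ⟨x, hx⟩ := hcor 0 2 (le_refl _) (by omega)
  have h0 : (s 0).p P = P := by
    refine core3 hx (A ^ 2) (hsi 2 (by omega)) P (hpw 2) d hd fun O h1 h2 => hO O (fun w hw => ?_) h2
    have h3 := h1 w hw
    rwa [pow_p] at h3
  have hPi : ∀ i, i + 1 < k → (s i).p P = P := by
    intro i hi
    rw [hsi i hi]
    have h1 : ((A ^ i)⁻¹).p P = P := by
      rw [WG.inv_p, Equiv.Perm.inv_eq_iff_eq]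
      exact (hpw i).symm
    rw [WG.mul_p, WG.mul_p, Equiv.Perm.mul_apply, Equiv.Perm.mul_apply, h1, h0, hpw]
  obtain ⟨t, ht⟩ := sum_rule k (by omega) s hb κ η hcoc
  obtain ⟨T, hT⟩ := one_b k hk s hc hb hcor P hPi t ht
  have h02 := one_c hx P h0 (hPi 2 (by omega)) T hT
  exact hne (eq_of_02 k hk (fun i => (s i).p) hcp hbp h02)

end Pool.Agent.Helper96.LN3
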