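import Pool.Agent.Helper96.LN3.Core
import Pool.Agent.Helper96.LN3.RotCard
import Pool.Agent.Helper2.LN2.GrpStd

/-!
# LN3-K4 (MP_730da0_ag): `card F = 0 mod k`, `= 1 mod k - 1`

Paper proof (as `group_two`, Helper2/LN2/GrpTwo.lean, with `core3` in place of `core`).  `A = s_0 ⋯ s_(k-2)`, `B = s_0 A`.  Suppose not all `(s i).p` are equal.  `ordA`, `ordB` (in `Perm F`).  `rot_fix` for `A`, period `k`, `k ∣ card F`: `A w ≠ w` for all `w`.
`rot_fix` for `B`, period `k - 1`: `B p = p`.  `τ` from `cycB_of_braid` in the group `WG F`: `B s_i B⁻¹ = s_(i+1)` for `1 ≤ i`, `i + 2 < k`; so `s 3 = B^2 (s 1) B^(-2)`.  `rot_card` for `B`, `N = k - 1`, `j = 2` (`k - 1 ≥ 4` does not divide `2`).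
`core3` for `(s 1, s 3)`, `g = B^2`: `(s 1).p p = p`; conjugating with `B`: `(s i).p p = p` for `1 ≤ i`, `i + 1 < k`.  `std_orbit` (Helper2/LN2/GrpStd.lean), and the end of `group_point` (Helper93/L2/Grp.lean).
-/

namespace Pool.Agent.Helper96.LN3

open Pool.Agent.Helper2.LN

private theorem prod_p2 {F : Type} (s : ℕ → WG F) (l : List ℕ) :
    (l.map s).prod.p = (l.map fun i => (s i).p).prod := by
  induction l with
  | nil => rfl
  | cons i l ih => rw [List.map_cons, List.prod_cons, WG.mul_p, ih, List.map_cons, List.prod_cons]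

theorem case_two {F : Type} [Finite F] (k : ℕ) (hk : 4 < k) (s : ℕ → WG F)
    (hc : ∀ i j, i + 2 ≤ j → j + 1 < k → s i * s j = s j * s i)
    (hb : ∀ i, i + 2 < k → s i * s (i + 1) * s i = s (i + 1) * s i * s (i + 1))
    (hcor : ∀ i j, i + 2 ≤ j → j + 1 < k → ∃ x, Corner (s i) (s j) x)
    (hn1 : k ∣ Nat.card F) (hn2 : Nat.card F ≡ 1 [MOD (k - 1)]) (hn3 : 2 ≤ Nat.card F)
    (rotA : ∃ c : F → ℂ, Function.Injective c ∧ ∃ ζ : ℂ, ∀ w,
      c (((List.range (k - 1)).map fun i => (s i).p).prod w) = ζ * c w)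
    (rotB : ∃ c : F → ℂ, Function.Injective c ∧ ∃ ζ : ℂ, ∀ w,
      c (((s 0).p * ((List.range (k - 1)).map fun i => (s i).p).prod) w) = ζ * c w) :
    (∀ i, i + 1 < k → (s i).p = (s 0).p) ∨ ∃ p : Fin k → F, Function.Injective p ∧
      ∀ (i : ℕ) (hi : i + 1 < k) (j : Fin k),
        (s i).p (p j) = p (Equiv.swap ⟨i, by omega⟩ ⟨i + 1, hi⟩ j) := by
  by_cases hne : ∀ i, i + 1 < k → (s i).p = (s 0).p
  · exact Or.inl hne
  right
  have hcp : ∀ i j, i + 2 ≤ j → j + 1 < k → (s i).p * (s j).p = (s j).p * (s i).p := fun i j hij hj =>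
    congrArg WG.p (hc i j hij hj)
  have hbp : ∀ i, i + 2 < k → (s i).p * (s (i + 1)).p * (s i).p = (s (i + 1)).p * (s i).p * (s (i + 1)).p :=
    fun i hi => congrArg WG.p (hb i hi)
  have oA := ordA k hk (fun i => (s i).p) hcp hbp hne
  have oB := ordB k hk (fun i => (s i).p) hcp hbp hne
  obtain ⟨cA, hcA, ζA, hζA⟩ := rotA
  obtain ⟨cB, hcB, ζB, hζB⟩ := rotB
  have hAw := (rot_fix _ cA hcA ζA hζA k (by omega) oA hn3).2 hn1
  obtain ⟨P, hP, -⟩ := (rot_fix _ cB hcB ζB hζB (k - 1) (by omega) oB hn3).1 hn2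
  obtain ⟨τ, hτ, hτs⟩ := cycB_of_braid k hk s hc hb
  obtain ⟨B, hB⟩ : ∃ B, B = s 0 * ((List.range (k - 1)).map s).prod := ⟨_, rfl⟩
  have hBp : B.p = (s 0).p * ((List.range (k - 1)).map fun i => (s i).p).prod := by
    rw [hB, WG.mul_p, prod_p2 s (List.range (k - 1))]
  rw [← hB] at hτ
  have hBP : B.p P = P := by
    rw [hBp]
    exact hP
  have hpw : ∀ i : ℕ, (B ^ i).p P = P := by
    intro i
    rw [pow_p]
    induction i with
    | zero => rfl
    | succ i ih => rw [pow_succ, Equiv.Perm.mul_apply, hBP, ih]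
  have hcj : ∀ (i : ℕ) (a : ZMod (k - 1)), B ^ i * τ a * (B ^ i)⁻¹ = τ (a + (i : ZMod (k - 1))) := by
    intro i a
    induction i with
    | zero => simp
    | succ i ih =>
      have h1 : B ^ (i + 1) * τ a * (B ^ (i + 1))⁻¹ = B * (B ^ i * τ a * (B ^ i)⁻¹) * B⁻¹ := by
        rw [pow_succ']
        group
      rw [h1, ih, hτ.conj, Nat.cast_add, Nat.cast_one, add_assoc]
  have hsi : ∀ i, 1 ≤ i → i + 1 < k → s i = B ^ (i - 1) * s 1 * (B ^ (i - 1))⁻¹ := by
    intro i h1 hi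
    rw [← hτs i h1 hi, ← hτs 1 (le_refl 1) (by omega), hcj (i - 1)]
    congr 1
    rw [← Nat.cast_add]
    congr 1
    omega
  obtain ⟨d, hd, hO⟩ := rot_card _ cB hcB ζB hζB (k - 1) oB 2 (fun h => by
    have := Nat.le_of_dvd (by omega) h
    omega) P hP
  rw [← hBp] at hO
  obtain ⟨x, hx⟩ := hcor 1 3 (le_refl _) (by omega)
  have h0 : (s 1).p P = P := by
    refine core3 hx (B ^ 2) (hsi 3 (by omega) (by omega)) P (hpw 2) d hd fun O h1 h2 => hO O (fun w hw => ?_) h2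
    have h3 := h1 w hw
    rwa [pow_p] at h3
  have hPi : ∀ i, 1 ≤ i → i + 1 < k → (s i).p P = P := by
    intro i h1i hi
    rw [hsi i h1i hi]
    have h1 : ((B ^ (i - 1))⁻¹).p P = P := by
      rw [WG.inv_p, Equiv.Perm.inv_eq_iff_eq]
      exact (hpw (i - 1)).symm
    rw [WG.mul_p, WG.mul_p, Equiv.Perm.mul_apply, Equiv.Perm.mul_apply, h1, h0, hpw]
  obtain ⟨Z, hZ1, hZ2⟩ := Pool.Agent.Helper2.LN2.std_orbit k hk (fun i => (s i).p) hcp hbp P hPi hP hAw
  refine ⟨fun j => Z j, fun i j hij => Fin.ext (hZ1 i j i.2 j.2 hij), fun i hi j => ?_⟩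
  have hz := hZ2 i j hi j.2
  rw [hz]
  congr 1
  rcases eq_or_ne (j : ℕ) i with h1 | h1
  · have h2 : j = ⟨i, by omega⟩ := Fin.ext h1
    rw [h1, h2, Equiv.swap_apply_left, Equiv.swap_apply_left]
  · rcases eq_or_ne (j : ℕ) (i + 1) with h3 | h3
    · have h4 : j = ⟨i + 1, hi⟩ := Fin.ext h3
      rw [h3, h4, Equiv.swap_apply_right, Equiv.swap_apply_right]
    · rw [Equiv.swap_apply_of_ne_of_ne h1 h3, Equiv.swap_apply_of_ne_of_ne]
      · intro h5; exact h1 (congrArg Fin.val h5)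
      · intro h5; exact h3 (congrArg Fin.val h5)

end Pool.Agent.Helper96.LN3
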