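import Pool.Agent.Helper96.LN3.Map
import Pool.Agent.Helper96.LN3.Defs

/-!
# LN3-L4 (MP_730da0_ag): the configurations `cn k i j u v`

Paper proof.  `‖exp u‖ < 1` for `Re u < 0`, so the points number `i`, `i+1` are different and lie in the open disc of radius `1/2` around `i + 1/2`, which contains no integer and not the points number `j`, `j+1`.
`exp (u + πi) = - exp u`.  For `u = x + iy` write `r = e^x < 1`: `Re (e^u/2) = r cos y / 2`.
`cn_ord`: `Re e^u > 0`, `Re e^v > 0`, `< 1`.  `cn_cross`: the point number `i` is `i + 1/2 - r e^(iy)/2`: for `0 < y < π` it is below the point number `i+1`; at `y₁ < π/2` it is left of it, at `y₂ > π/2` right of it.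
`pos a ⟨i, _⟩ = i`: the points to the left of it are exactly those with number `< i`.
-/

namespace Pool.Agent.Helper96.LN3

open Pool.Agent.Helper2.LN

variable {k : ℕ}

/-- the configuration with `w = e^u / 2`, `z = e^v / 2` -/
private noncomputable def cf (k i j : ℕ) (w z : ℂ) : Fin k → ℂ := fun l =>
  if (l : ℕ) = i then (i : ℂ) + 1 / 2 - w
  else if (l : ℕ) = i + 1 then (i : ℂ) + 1 / 2 + w
  else if (l : ℕ) = j then (j : ℂ) + 1 / 2 - z
  else if (l : ℕ) = j + 1 then (j : ℂ) + 1 / 2 + z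
  else ((l : ℕ) : ℂ)

private theorem cn_eq (i j : ℕ) (u v : ℂ) : cn k i j u v = cf k i j (Complex.exp u / 2) (Complex.exp v / 2) := rfl

/-- twice the approximate real part -/
private def fl (i j l : ℕ) : ℕ :=
  if l = i ∨ l = i + 1 then 2 * i + 1 else if l = j ∨ l = j + 1 then 2 * j + 1 else 2 * l

private theorem fl_step {i j : ℕ} (hij : i + 2 ≤ j) {x y : ℕ} (h : fl i j x < fl i j y) : fl i j x + 2 ≤ fl i j y := by
  unfold fl at *
  split_ifs at * <;> omega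

private theorem fl_lt {i j : ℕ} (hij : i + 2 ≤ j) {x y : ℕ} (h : x < y) :
    fl i j x < fl i j y ∨ (x = i ∧ y = i + 1) ∨ (x = j ∧ y = j + 1) := by
  unfold fl at *
  split_ifs at * <;> omega

private theorem cf_bd (i j : ℕ) {w z : ℂ} (hw : |w.re| < 1 / 2) (hz : |z.re| < 1 / 2) (l : Fin k) :
    |2 * (cf k i j w z l).re - (fl i j l : ℝ)| < 1 := by
  rw [abs_lt] at hw hz ⊢
  obtain ⟨hw1, hw2⟩ := hw
  obtain ⟨hz1, hz2⟩ := hz
  unfold cf fl
  split_ifs with h1 h2 h3 h4 h5 h6 h7 h8 h9 h10 h11 h12 <;>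
    first
      | (exfalso; omega)
      | (simp only [Complex.sub_re, Complex.add_re, Complex.natCast_re, Complex.div_ofNat_re, Complex.one_re]
         push_cast
         constructor <;> linarith)

private theorem cf_lt {i j : ℕ} (hij : i + 2 ≤ j) {w z : ℂ} (hw : |w.re| < 1 / 2) (hz : |z.re| < 1 / 2) {x y : Fin k}
    (h : fl i j x < fl i j y) : (cf k i j w z x).re < (cf k i j w z y).re := by
  have h1 := cf_bd (k := k) i j hw hz x
  have h2 := cf_bd (k := k) i j hw hz y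
  rw [abs_lt] at h1 h2
  have h3 : ((fl i j x : ℕ) : ℝ) + 2 ≤ ((fl i j y : ℕ) : ℝ) := by exact_mod_cast fl_step hij h
  linarith [h1.2, h2.1]

private theorem cf_i (i j : ℕ) (w z : ℂ) (l : Fin k) (h : (l : ℕ) = i) : cf k i j w z l = (i : ℂ) + 1 / 2 - w := by
  unfold cf
  rw [if_pos h]

private theorem cf_i1 (i j : ℕ) (w z : ℂ) (l : Fin k) (h : (l : ℕ) = i + 1) :
    cf k i j w z l = (i : ℂ) + 1 / 2 + w := by
  unfold cf
  rw [if_neg (by omega), if_pos h]

private theorem cf_j {i j : ℕ} (hij : i + 2 ≤ j) (w z : ℂ) (l : Fin k) (h : (l : ℕ) = j) :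
    cf k i j w z l = (j : ℂ) + 1 / 2 - z := by
  unfold cf
  rw [if_neg (by omega), if_neg (by omega), if_pos h]

private theorem cf_j1 {i j : ℕ} (hij : i + 2 ≤ j) (w z : ℂ) (l : Fin k) (h : (l : ℕ) = j + 1) :
    cf k i j w z l = (j : ℂ) + 1 / 2 + z := by
  unfold cf
  rw [if_neg (by omega), if_neg (by omega), if_neg (by omega), if_pos h]

private theorem cf_i' (i j : ℕ) (w z : ℂ) (h : i < k) : cf k i j w z ⟨i, h⟩ = (i : ℂ) + 1 / 2 - w :=
  cf_i i j w z _ rfl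

private theorem cf_i1' (i j : ℕ) (w z : ℂ) (h : i + 1 < k) : cf k i j w z ⟨i + 1, h⟩ = (i : ℂ) + 1 / 2 + w :=
  cf_i1 i j w z _ rfl

private theorem cf_j' {i j : ℕ} (hij : i + 2 ≤ j) (w z : ℂ) (h : j < k) :
    cf k i j w z ⟨j, h⟩ = (j : ℂ) + 1 / 2 - z :=
  cf_j hij w z _ rfl

private theorem cf_j1' {i j : ℕ} (hij : i + 2 ≤ j) (w z : ℂ) (h : j + 1 < k) :
    cf k i j w z ⟨j + 1, h⟩ = (j : ℂ) + 1 / 2 + z :=
  cf_j1 hij w z _ rfl

private theorem re_i (i : ℕ) (w : ℂ) : ((i : ℂ) + 1 / 2 - w).re = i + 1 / 2 - w.re := by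
  simp

private theorem re_i1 (i : ℕ) (w : ℂ) : ((i : ℂ) + 1 / 2 + w).re = i + 1 / 2 + w.re := by
  simp

private theorem im_i (i : ℕ) (w : ℂ) : ((i : ℂ) + 1 / 2 - w).im = - w.im := by
  simp

private theorem im_i1 (i : ℕ) (w : ℂ) : ((i : ℂ) + 1 / 2 + w).im = w.im := by
  simp

private theorem cf_conf {i j : ℕ} (hij : i + 2 ≤ j) {w z : ℂ} (hw : |w.re| < 1 / 2) (hz : |z.re| < 1 / 2)
    (hw0 : w ≠ 0) (hz0 : z ≠ 0) : cf k i j w z ∈ Conf k := by
  have key : ∀ x y : Fin k, (x : ℕ) < y → cf k i j w z x ≠ cf k i j w z y := by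
    intro x y hxy he
    rcases fl_lt hij hxy with h | ⟨h1, h2⟩ | ⟨h1, h2⟩
    · have := cf_lt hij hw hz h
      rw [he] at this
      exact absurd this (lt_irrefl _)
    · rw [cf_i i j w z x h1, cf_i1 i j w z y h2] at he
      apply hw0
      linear_combination (-1 / 2) * he
    · rw [cf_j hij w z x h1, cf_j1 hij w z y h2] at he
      apply hz0
      linear_combination (-1 / 2) * he
  intro x y he
  rcases lt_trichotomy (x : ℕ) y with h | h | h
  · exact absurd he (key x y h)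
  · exact Fin.ext h
  · exact absurd he.symm (key y x h)

private theorem cf_gen {i j : ℕ} (hij : i + 2 ≤ j) {w z : ℂ} (hw : |w.re| < 1 / 2) (hz : |z.re| < 1 / 2)
    (hw0 : w.re ≠ 0) (hz0 : z.re ≠ 0) : cf k i j w z ∈ Gen k := by
  have key : ∀ x y : Fin k, (x : ℕ) < y → (cf k i j w z x).re ≠ (cf k i j w z y).re := by
    intro x y hxy he
    rcases fl_lt hij hxy with h | ⟨h1, h2⟩ | ⟨h1, h2⟩
    · have := cf_lt hij hw hz h
      rw [he] at this
      exact absurd this (lt_irrefl _)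
    · rw [cf_i i j w z x h1, cf_i1 i j w z y h2, re_i, re_i1] at he
      apply hw0
      linarith
    · rw [cf_j hij w z x h1, cf_j1 hij w z y h2, re_i, re_i1] at he
      apply hz0
      linarith
  intro x y he
  have he' : (cf k i j w z x).re = (cf k i j w z y).re := he
  rcases lt_trichotomy (x : ℕ) y with h | h | h
  · exact absurd he' (key x y h)
  · exact Fin.ext h
  · exact absurd he'.symm (key y x h)

private theorem cf_ord {i j : ℕ} (hij : i + 2 ≤ j) {w z : ℂ} (hw : |w.re| < 1 / 2) (hz : |z.re| < 1 / 2)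
    (hw0 : 0 < w.re) (hz0 : 0 < z.re) : cf k i j w z ∈ Ord k := by
  intro x y hxy
  rcases fl_lt hij (show (x : ℕ) < y from hxy) with h | ⟨h1, h2⟩ | ⟨h1, h2⟩
  · exact cf_lt hij hw hz h
  · rw [cf_i i j w z x h1, cf_i1 i j w z y h2, re_i, re_i1]
    linarith
  · rw [cf_j hij w z x h1, cf_j1 hij w z y h2, re_i, re_i1]
    linarith

private theorem ps_ord {a : Fin k → ℂ} (ha : a ∈ Ord k) (l : Fin k) : pos a l = (l : ℕ) := by
  unfold pos
  have h1 : (Finset.univ.filter fun j => (a j).re < (a l).re) = Finset.Iio l := by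
    ext j
    simp only [Finset.mem_filter, Finset.mem_univ, true_and, Finset.mem_Iio]
    constructor
    · intro h
      by_contra h1
      rcases lt_or_eq_of_le (not_lt.1 h1) with h2 | h2
      · exact absurd (ha l j h2) (not_lt.2 h.le)
      · rw [h2] at h
        exact absurd h (lt_irrefl _)
    · intro h
      exact ha j l h
  rw [h1, Fin.card_Iio]

/-- the order relations of two configurations agree except at the pairs -/
private theorem cf_same {i j : ℕ} (hij : i + 2 ≤ j) {w z w' z' : ℂ} (hw : |w.re| < 1 / 2) (hz : |z.re| < 1 / 2)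
    (hw' : |w'.re| < 1 / 2) (hz' : |z'.re| < 1 / 2) (x y : Fin k)
    (hi : ¬ ((x : ℕ) = i ∧ (y : ℕ) = i + 1)) (hi' : ¬ ((x : ℕ) = i + 1 ∧ (y : ℕ) = i))
    (hj : ¬ ((x : ℕ) = j ∧ (y : ℕ) = j + 1)) (hj' : ¬ ((x : ℕ) = j + 1 ∧ (y : ℕ) = j)) :
    (cf k i j w z x).re < (cf k i j w z y).re ↔ (cf k i j w' z' x).re < (cf k i j w' z' y).re := by
  rcases lt_trichotomy (x : ℕ) y with h | h | h
  · rcases fl_lt hij h with h1 | h1 | h1
    · exact iff_of_true (cf_lt hij hw hz h1) (cf_lt hij hw' hz' h1)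
    · exact absurd h1 hi
    · exact absurd h1 hj
  · have : x = y := Fin.ext h
    subst this
    simp
  · rcases fl_lt hij h with h1 | h1 | h1
    · exact iff_of_false (cf_lt hij hw hz h1).le.not_gt (cf_lt hij hw' hz' h1).le.not_gt
    · exact absurd ⟨h1.2, h1.1⟩ hi'
    · exact absurd ⟨h1.2, h1.1⟩ hj'

private theorem re_lt {u : ℂ} (hu : u ∈ Hl) : |(Complex.exp u / 2).re| < 1 / 2 := by
  have h1 : ‖Complex.exp u‖ < 1 := by
    rw [Complex.norm_exp, Real.exp_lt_one_iff]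
    exact hu
  have h2 := Complex.abs_re_le_norm (Complex.exp u)
  rw [Complex.div_ofNat_re, abs_div]
  have h3 : |((OfNat.ofNat 2 : ℝ))| = 2 := by norm_num
  rw [h3]
  linarith

private theorem ex_ne (u : ℂ) : Complex.exp u / 2 ≠ 0 := div_ne_zero (Complex.exp_ne_zero u) two_ne_zero

private theorem re_pos {u : ℂ} (h : |u.im| < Real.pi / 2) : 0 < (Complex.exp u / 2).re := by
  rw [Complex.div_ofNat_re, Complex.exp_re]
  rw [abs_lt] at h
  have h1 := Real.cos_pos_of_mem_Ioo ⟨h.1, h.2⟩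
  have h2 := Real.exp_pos u.re
  positivity

private theorem im_pos (x y : ℝ) (h : 0 < y) (h' : y < Real.pi) : 0 < (Complex.exp (x + y * Complex.I) / 2).im := by
  rw [Complex.div_ofNat_im, Complex.exp_im]
  have h1 : ((x : ℂ) + y * Complex.I).im = y := by simp
  rw [h1]
  have h2 := Real.sin_pos_of_pos_of_lt_pi h h'
  positivity

private theorem re_neg (x y : ℝ) (h : Real.pi / 2 < y) (h' : y < Real.pi) :
    (Complex.exp (x + y * Complex.I) / 2).re < 0 := by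
  rw [Complex.div_ofNat_re, Complex.exp_re]
  have h1 : ((x : ℂ) + y * Complex.I).im = y := by simp
  rw [h1]
  have h2 := Real.cos_neg_of_pi_div_two_lt_of_lt h (by linarith [Real.pi_pos])
  have h3 := Real.exp_pos ((x : ℂ) + y * Complex.I).re
  have h4 := mul_neg_of_pos_of_neg h3 h2
  exact div_neg_of_neg_of_pos h4 (by norm_num)

private theorem mem_Hl (x y : ℝ) (hx : x < 0) : (x : ℂ) + y * Complex.I ∈ Hl := by
  change ((x : ℂ) + y * Complex.I).re < 0
  simpa using hx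

private theorem im_abs (x y : ℝ) (h : 0 < y) (h' : y < Real.pi / 2) : |((x : ℂ) + y * Complex.I).im| < Real.pi / 2 := by
  have h1 : ((x : ℂ) + y * Complex.I).im = y := by simp
  rw [h1, abs_of_pos h]
  exact h'

theorem cn_conf (i j : ℕ) (hij : i + 2 ≤ j) (hj : j + 1 < k) (u v : ℂ) (hu : u ∈ Hl) (hv : v ∈ Hl) :
    cn k i j u v ∈ Conf k := by
  rw [cn_eq]
  exact cf_conf hij (re_lt hu) (re_lt hv) (ex_ne u) (ex_ne v)

theorem cn_diff (k i j : ℕ) : Differentiable ℂ (fun z : ℂ × ℂ => cn k i j z.1 z.2) := by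
  rw [differentiable_pi]
  intro l
  unfold cn
  split_ifs <;> fun_prop

private theorem exp_tr (u : ℂ) : Complex.exp (u + Real.pi * Complex.I) / 2 = - (Complex.exp u / 2) := by
  rw [Complex.exp_add, Complex.exp_pi_mul_I]
  ring

theorem cn_tru (i j : ℕ) (hij : i + 2 ≤ j) (hj : j + 1 < k) (u v : ℂ) :
    cn k i j (u + Real.pi * Complex.I) v = cn k i j u v ∘ Equiv.swap ⟨i, by omega⟩ ⟨i + 1, by omega⟩ := by
  funext l
  rw [cn_eq, cn_eq, exp_tr, Function.comp_apply]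
  by_cases h1 : (l : ℕ) = i
  · have : l = ⟨i, by omega⟩ := Fin.ext h1
    rw [this, Equiv.swap_apply_left, cf_i', cf_i1']
    ring
  · by_cases h2 : (l : ℕ) = i + 1
    · have : l = ⟨i + 1, by omega⟩ := Fin.ext h2
      rw [this, Equiv.swap_apply_right, cf_i', cf_i1']
      ring
    · rw [Equiv.swap_apply_of_ne_of_ne (fun h => h1 (by rw [h])) (fun h => h2 (by rw [h]))]
      unfold cf
      rw [if_neg h1, if_neg h2, if_neg h1, if_neg h2]

theorem cn_trv (i j : ℕ) (hij : i + 2 ≤ j) (hj : j + 1 < k) (u v : ℂ) :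
    cn k i j u (v + Real.pi * Complex.I) = cn k i j u v ∘ Equiv.swap ⟨j, by omega⟩ ⟨j + 1, hj⟩ := by
  funext l
  rw [cn_eq, cn_eq, exp_tr, Function.comp_apply]
  by_cases h1 : (l : ℕ) = j
  · have : l = ⟨j, by omega⟩ := Fin.ext h1
    rw [this, Equiv.swap_apply_left, cf_j' hij, cf_j1' hij]
    ring
  · by_cases h2 : (l : ℕ) = j + 1
    · have : l = ⟨j + 1, by omega⟩ := Fin.ext h2
      rw [this, Equiv.swap_apply_right, cf_j' hij, cf_j1' hij]
      ring
    · rw [Equiv.swap_apply_of_ne_of_ne (fun h => h1 (by rw [h])) (fun h => h2 (by rw [h]))]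
      unfold cf
      rw [if_neg h1, if_neg h2, if_neg h1, if_neg h2]

theorem cn_ord (i j : ℕ) (hij : i + 2 ≤ j) (hj : j + 1 < k) (u v : ℂ) (hu : u ∈ Hl) (hv : v ∈ Hl)
    (hu' : |u.im| < Real.pi / 2) (hv' : |v.im| < Real.pi / 2) : cn k i j u v ∈ Ord k := by
  rw [cn_eq]
  exact cf_ord hij (re_lt hu) (re_lt hv) (re_pos hu') (re_pos hv')

theorem cn_crossu (i j : ℕ) (hij : i + 2 ≤ j) (hj : j + 1 < k) (x y₁ y₂ : ℝ) (v : ℂ) (hx : x < 0) (hv : v ∈ Hl)
    (h1 : 0 < y₁) (h2 : y₁ < Real.pi / 2) (h3 : Real.pi / 2 < y₂) (h4 : y₂ < Real.pi)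
    (hv' : |v.im| < Real.pi / 2) :
    Cross (cn k i j (x + y₁ * Complex.I) v) (cn k i j (x + y₂ * Complex.I) v) ⟨i, by omega⟩ ⟨i + 1, by omega⟩ ∧
      pos (cn k i j (x + y₁ * Complex.I) v) ⟨i, by omega⟩ = i := by
  have hpi := Real.pi_pos
  have a1 := re_lt (mem_Hl x y₁ hx)
  have a2 := re_lt (mem_Hl x y₂ hx)
  have b1 := re_pos (im_abs x y₁ h1 h2)
  have b2 := re_neg x y₂ h3 h4
  have c1 := im_pos x y₁ h1 (by linarith)
  have c2 := im_pos x y₂ (by linarith) h4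
  have d1 := re_lt hv
  have d2 := re_pos hv'
  refine ⟨?_, ?_⟩
  · rw [cn_eq, cn_eq]
    refine ⟨cf_gen hij a1 d1 b1.ne' d2.ne', cf_gen hij a2 d1 b2.ne d2.ne', ?_, ?_, ?_, ?_, ?_⟩
    · rw [cf_i', cf_i1', re_i, re_i1]
      linarith
    · rw [cf_i', cf_i1', re_i, re_i1]
      linarith
    · rw [cf_i', cf_i1', im_i, im_i1]
      linarith
    · rw [cf_i', cf_i1', im_i, im_i1]
      linarith
    · intro p q hp hq
      by_cases e1 : (p : ℕ) = j ∧ (q : ℕ) = j + 1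
      · rw [cf_j hij _ _ p e1.1, cf_j1 hij _ _ q e1.2, cf_j hij _ _ p e1.1, cf_j1 hij _ _ q e1.2]
      · by_cases e2 : (p : ℕ) = j + 1 ∧ (q : ℕ) = j
        · rw [cf_j hij _ _ q e2.2, cf_j1 hij _ _ p e2.1, cf_j hij _ _ q e2.2, cf_j1 hij _ _ p e2.1]
        · exact cf_same hij a1 d1 a2 d1 p q (fun h => hp ⟨Fin.ext h.1, Fin.ext h.2⟩)
            (fun h => hq ⟨Fin.ext h.1, Fin.ext h.2⟩) e1 e2
  · exact ps_ord (cn_ord i j hij hj _ v (mem_Hl x y₁ hx) hv (im_abs x y₁ h1 h2) hv') _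

theorem cn_crossv (i j : ℕ) (hij : i + 2 ≤ j) (hj : j + 1 < k) (x y₁ y₂ : ℝ) (u : ℂ) (hx : x < 0) (hu : u ∈ Hl)
    (h1 : 0 < y₁) (h2 : y₁ < Real.pi / 2) (h3 : Real.pi / 2 < y₂) (h4 : y₂ < Real.pi)
    (hu' : |u.im| < Real.pi / 2) :
    Cross (cn k i j u (x + y₁ * Complex.I)) (cn k i j u (x + y₂ * Complex.I)) ⟨j, by omega⟩ ⟨j + 1, hj⟩ ∧
      pos (cn k i j u (x + y₁ * Complex.I)) ⟨j, by omega⟩ = j := by
  have hpi := Real.pi_pos
  have a1 := re_lt (mem_Hl x y₁ hx)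
  have a2 := re_lt (mem_Hl x y₂ hx)
  have b1 := re_pos (im_abs x y₁ h1 h2)
  have b2 := re_neg x y₂ h3 h4
  have c1 := im_pos x y₁ h1 (by linarith)
  have c2 := im_pos x y₂ (by linarith) h4
  have d1 := re_lt hu
  have d2 := re_pos hu'
  refine ⟨?_, ?_⟩
  · rw [cn_eq, cn_eq]
    refine ⟨cf_gen hij d1 a1 d2.ne' b1.ne', cf_gen hij d1 a2 d2.ne' b2.ne, ?_, ?_, ?_, ?_, ?_⟩
    · rw [cf_j' hij, cf_j1' hij, re_i, re_i1]
      linarith
    · rw [cf_j' hij, cf_j1' hij, re_i, re_i1]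
      linarith
    · rw [cf_j' hij, cf_j1' hij, im_i, im_i1]
      linarith
    · rw [cf_j' hij, cf_j1' hij, im_i, im_i1]
      linarith
    · intro p q hp hq
      by_cases e1 : (p : ℕ) = i ∧ (q : ℕ) = i + 1
      · rw [cf_i _ _ _ _ p e1.1, cf_i1 _ _ _ _ q e1.2, cf_i _ _ _ _ p e1.1, cf_i1 _ _ _ _ q e1.2]
      · by_cases e2 : (p : ℕ) = i + 1 ∧ (q : ℕ) = i
        · rw [cf_i _ _ _ _ q e2.2, cf_i1 _ _ _ _ p e2.1, cf_i _ _ _ _ q e2.2, cf_i1 _ _ _ _ p e2.1]
        · exact cf_same hij d1 a1 d1 a2 p q e1 e2 (fun h => hp ⟨Fin.ext h.1, Fin.ext h.2⟩)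
            (fun h => hq ⟨Fin.ext h.1, Fin.ext h.2⟩)
  · exact ps_ord (cn_ord i j hij hj u _ hu (mem_Hl x y₁ hx) hu' (im_abs x y₁ h1 h2)) _

end Pool.Agent.Helper96.LN3
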