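import Pool.Agent.Helper96.LN3.XMap

/-!
# LN3-K2 (MP_730da0_ag): the core lemma

Paper proof.  Write `s_0 = g₀.p`, `s_2 = g₂.p`, `M = per F`.  `m w := wn g₀ w P = wn g₂ w P` for `w ≠ P` (`wn_pt`), and `m (g w) = wn g₂ (g w) P = wn g₀ w P = m w` (`wn_conj`).
Suppose `w₁ := s_0 P ≠ P`, `t = m w₁`; `w₂ := s_2 P = g s_0 g⁻¹ P = g w₁ ≠ P`, `m w₂ = t`.  `B = {w : InB P w₁ w} = {P} ∪ {m ≥ t}`, `B' = {P} ∪ {m > t}`; `g B = B`, `g B' = B'`.  `X` from `exists_X`; for `w ∈ B`: `X w = 0 ↔ w ∈ B'` (`eq0`).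
(1) `s_0 B ⊆ B`, so `s_0 B = B` (finite), the same for `s_2`: let `w ∈ B`, `w ≠ P`, `s_0 w ≠ P`; if `s_0 w = w₁ = s_0 P` then `w = P`; so `s_0 w`, `w₁`, `P` are distinct, `ultra` for `(w₁; s_0 w, P)`: `2 m (s_0 w) ≥ min (wn g₀ w₁ (s_0 w) + wn g₂ w₁ (s_0 w)) (2t)`,
and `wn g₀ (s_0 P) (s_0 w) = wn g₀ P w ≥ t`, `wn g₂ (s_0 P) (s_0 w) = wn g₂ P w ≥ t` (`wn_comm`, `comm`, `sym`).
(2) `X_mul` for `g₀` (`w₂ := w₁`) and for `g₂` (`hC.swap`, `hX.swap`, `w₂`): `X (s_0 w) = μ X w + 1`, `X (s_2 w) = μ X w + ν`, `ν = X w₂`, for `w ∈ B`, the same `μ = exp (2πi t/M)` (`wn g₀ w₁ P = wn g₂ w₁ P = t`).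
(3) `s_0^M = 1` (`per_pow`): `X (s_0^j P) = 1 + μ + .. + μ^(j-1)`, so `0 = X P = Σ_(j<M) μ^j`; if `μ = 1` this is `M ≠ 0`.  So `μ ≠ 1`.  `s_0 s_2 P = s_2 s_0 P`: `μ ν + 1 = μ + ν`, so `(μ - 1)(ν - 1) = 0`, `ν = 1`.
(4) `s_0 B' = {w ∈ B : X w = 1} = s_2 B'`.  `s_2 B' = g s_0 g⁻¹ B' = g (s_0 B')`.  So `O = s_0 B'` is `g`-invariant; `P ∉ O` (`X P = 0 ≠ 1`): `d ∣ |O| = |B'|`.  `B' ∖ {P}` is `g`-invariant too: `d ∣ |B'| - 1`.  So `d ∣ 1`, contradiction.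
-/

namespace Pool.Agent.Helper96.LN3

variable {F : Type} {g₀ g₂ : WG F} {x : F → ℝ → ℂ}

theorem core3 [Finite F] (hC : Corner g₀ g₂ x) (g : WG F) (hg : g₂ = g * g₀ * g⁻¹) (P : F)
    (hP : g.p P = P) (d : ℕ) (hd : 2 ≤ d)
    (hO : ∀ O : Finset F, (∀ w ∈ O, g.p w ∈ O) → P ∉ O → d ∣ O.card) : g₀.p P = P := by
  classical
  by_contra hw₁
  have := Fintype.ofFinite F
  -- windings
  have hpt : ∀ w, w ≠ P → wn g₂ w P = wn g₀ w P := fun w hw => (hC.wn_pt g hg P hP w hw).symm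
  have hcj : ∀ w, wn g₂ (g.p w) P = wn g₀ w P := by
    intro w
    have h1 := wn_conj g g₀ w P
    rwa [hP, ← hg] at h1
  have hgP : ∀ w, w ≠ P → g.p w ≠ P := fun w hw h => hw (g.p.injective (h.trans hP.symm))
  have hmg : ∀ w, w ≠ P → wn g₀ (g.p w) P = wn g₀ w P := fun w hw => by
    rw [← hpt _ (hgP w hw), hcj]
  have hg2 : ∀ w, g₂.p (g.p w) = g.p (g₀.p w) := by
    intro w
    rw [hg]
    simp
  have hw2 : g₂.p P = g.p (g₀.p P) := by
    have h1 := hg2 P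
    rwa [hP] at h1
  have hw2P : g₂.p P ≠ P := by
    rw [hw2]
    exact hgP _ hw₁
  obtain ⟨t, ht⟩ : ∃ t : ℤ, wn g₀ (g₀.p P) P = t := ⟨_, rfl⟩
  have ht2 : wn g₂ (g₀.p P) P = t := by rw [hpt _ hw₁, ht]
  have hs0 : wn g₀ (g₂.p P) P = t := by rw [hw2, hmg _ hw₁, ht]
  have hs2 : wn g₂ (g₂.p P) P = t := by rw [hpt _ hw2P, hs0]
  -- the set `B`
  have hB : ∀ w, InB g₀ g₂ P (g₀.p P) w ↔ (w = P ∨ t ≤ wn g₀ w P) := by
    intro w
    unfold InB
    rw [ht, ht2]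
    by_cases hw : w = P
    · simp [hw]
    · simp [hw, hpt w hw]
  have hB' : ∀ w, InB g₂ g₀ P (g₀.p P) w ↔ (w = P ∨ t ≤ wn g₀ w P) := by
    intro w
    unfold InB
    rw [ht, ht2]
    by_cases hw : w = P
    · simp [hw]
    · simp [hw, hpt w hw]
  have hgB : ∀ w, (w = P ∨ t ≤ wn g₀ w P) → (g.p w = P ∨ t ≤ wn g₀ (g.p w) P) := by
    intro w hw
    by_cases h : w = P
    · left
      rw [h, hP]
    · right
      rw [hmg w h]
      exact hw.resolve_left h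
  have hgB' : ∀ w, (g.p w = P ∨ t ≤ wn g₀ (g.p w) P) → (w = P ∨ t ≤ wn g₀ w P) := by
    intro w hw
    by_cases h : w = P
    · exact Or.inl h
    · right
      rw [hmg w h] at hw
      exact hw.resolve_left (hgP w h)
  have hB0 : ∀ w, (w = P ∨ t ≤ wn g₀ w P) → (g₀.p w = P ∨ t ≤ wn g₀ (g₀.p w) P) := by
    intro w hw
    by_cases h : w = P
    · right
      rw [h, ht]
    by_cases h1 : g₀.p w = P
    · exact Or.inl h1
    right
    have hwt := hw.resolve_left h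
    have h2 : g₀.p P ≠ g₀.p w := fun h3 => h (g₀.p.injective h3).symm
    have h3 := hC.ultra (g₀.p P) (g₀.p w) P h2 hw₁ h1
    have h4 := wn_comm g₀ g₀ rfl P w
    have h5 := wn_comm g₀ g₂ hC.comm P w
    rw [h4, h5, hC.sym₀ P w, hC.sym₂ P w, hpt w h, ht, ht2, hpt _ h1] at h3
    rcases min_le_iff.1 h3 with h6 | h6
    · linarith
    · linarith
  have hB2 : ∀ w, (w = P ∨ t ≤ wn g₀ w P) → (g₂.p w = P ∨ t ≤ wn g₀ (g₂.p w) P) := by
    intro w hw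
    obtain ⟨u, rfl⟩ := g.p.surjective w
    rw [hg2]
    exact hgB _ (hB0 _ (hgB' _ hw))
  obtain ⟨X, hX⟩ := hC.exists_X P (g₀.p P) hw₁
  obtain ⟨μ, hμ⟩ : ∃ μ : ℂ, Complex.exp (2 * Real.pi * Complex.I * t / per F) = μ := ⟨_, rfl⟩
  have hμ0 : μ ≠ 0 := by
    rw [← hμ]
    exact Complex.exp_ne_zero _
  have hX0 : ∀ w, (w = P ∨ t ≤ wn g₀ w P) → X (g₀.p w) = μ * X w + 1 := by
    intro w hw
    have h1 := hC.X_mul hw₁ hX (g₀.p P) hw₁ rfl rfl (Or.inl rfl) w ((hB w).2 hw)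
      ((hB _).2 (hB0 w hw))
    rw [ht, hμ, hX.one] at h1
    exact h1
  have hX2 : ∀ w, (w = P ∨ t ≤ wn g₀ w P) → X (g₂.p w) = μ * X w + X (g₂.p P) := by
    intro w hw
    have h1 := hC.swap.X_mul hw₁ hX.swap (g₂.p P) hw2P (by rw [hs2, ht2]) (by rw [hs0, ht])
      (Or.inl rfl) w ((hB' w).2 hw) ((hB' _).2 (hB2 w hw))
    rw [ht2, hμ] at h1
    exact h1
  -- `μ ≠ 1`
  have hpow : ∀ j : ℕ, ((g₀.p ^ j) P = P ∨ t ≤ wn g₀ ((g₀.p ^ j) P) P) ∧
      X ((g₀.p ^ j) P) = ∑ i ∈ Finset.range j, μ ^ i := by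
    intro j
    induction j with
    | zero => exact ⟨Or.inl rfl, by simp [hX.zero]⟩
    | succ j ih =>
      rw [pow_succ', Equiv.Perm.mul_apply]
      refine ⟨hB0 _ ih.1, ?_⟩
      rw [hX0 _ ih.1, ih.2, Finset.sum_range_succ', pow_zero, Finset.mul_sum]
      congr 1
      refine Finset.sum_congr rfl fun i _ => ?_
      rw [pow_succ']
  have hμ1 : μ ≠ 1 := by
    intro h
    have h1 := (hpow (per F)).2
    rw [per_pow, Equiv.Perm.one_apply, hX.zero, h] at h1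
    simp only [one_pow, Finset.sum_const, Finset.card_range, nsmul_eq_mul, mul_one] at h1
    have h2 : per F = 0 := by exact_mod_cast h1.symm
    exact absurd h2 (per_pos (F := F)).ne'
  -- `ν = 1`
  have hν : X (g₂.p P) = 1 := by
    have hcomm : g₀.p (g₂.p P) = g₂.p (g₀.p P) := by
      have h1 := congrArg WG.p hC.comm
      simp only [WG.mul_p] at h1
      have h2 := congrArg (fun σ : Equiv.Perm F => σ P) h1
      simpa using h2
    have h1 := hX0 (g₂.p P) (Or.inr hs0.ge)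
    have h2 := hX2 (g₀.p P) (Or.inr ht.ge)
    rw [hX.one] at h2
    rw [hcomm, h2] at h1
    have h3 : (μ - 1) * (X (g₂.p P) - 1) = 0 := by linear_combination -h1
    rcases mul_eq_zero.1 h3 with h4 | h4
    · exact absurd (sub_eq_zero.1 h4) hμ1
    · exact sub_eq_zero.1 h4
  -- zeros of `X` on `B`
  have hz : ∀ w, (w = P ∨ t ≤ wn g₀ w P) → (X w = 0 ↔ (w = P ∨ t < wn g₀ w P)) := by
    intro w hw
    by_cases h : w = P
    · simp [h, hX.zero]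
    · have hwt := hw.resolve_left h
      rw [hX.eq0 w h ((hB w).2 hw), ht, ht2, hpt w h, and_self]
      constructor
      · intro h1
        exact Or.inr (lt_of_le_of_ne hwt (Ne.symm h1))
      · intro h1 h2
        have h3 := h1.resolve_left h
        rw [h2] at h3
        exact lt_irrefl _ h3
  obtain ⟨B, hBm⟩ : ∃ B : Finset F, ∀ w, w ∈ B ↔ (w = P ∨ t ≤ wn g₀ w P) :=
    ⟨Finset.univ.filter fun w => w = P ∨ t ≤ wn g₀ w P, fun w => by simp⟩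
  obtain ⟨C, hCm⟩ : ∃ C : Finset F, ∀ w, w ∈ C ↔ (w = P ∨ t < wn g₀ w P) :=
    ⟨Finset.univ.filter fun w => w = P ∨ t < wn g₀ w P, fun w => by simp⟩
  have hCB : ∀ w, (w = P ∨ t < wn g₀ w P) → (w = P ∨ t ≤ wn g₀ w P) := fun w h =>
    h.imp id le_of_lt
  have hBim : B.image g₀.p = B := by
    apply Finset.eq_of_subset_of_card_le
    · intro w hw
      obtain ⟨u, hu, rfl⟩ := Finset.mem_image.1 hw
      exact (hBm _).2 (hB0 _ ((hBm _).1 hu))
    · rw [Finset.card_image_of_injective _ g₀.p.injective]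
  obtain ⟨O, hOm⟩ : ∃ O : Finset F, ∀ w, w ∈ O ↔ (w ∈ B ∧ X w = 1) :=
    ⟨B.filter fun w => X w = 1, fun w => by simp⟩
  have hOim : C.image g₀.p = O := by
    ext w
    rw [Finset.mem_image, hOm]
    constructor
    · rintro ⟨u, hu, rfl⟩
      have hu1 := (hCm u).1 hu
      have hu2 := hCB u hu1
      refine ⟨(hBm _).2 (hB0 _ hu2), ?_⟩
      rw [hX0 u hu2, (hz u hu2).2 hu1, mul_zero, zero_add]
    · rintro ⟨hw, hw1⟩
      rw [← hBim] at hw
      obtain ⟨u, hu, rfl⟩ := Finset.mem_image.1 hw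
      have hu2 := (hBm u).1 hu
      refine ⟨u, (hCm u).2 ?_, rfl⟩
      rw [hX0 u hu2] at hw1
      have h1 : μ * X u = 0 := by linear_combination hw1
      exact (hz u hu2).1 ((mul_eq_zero.1 h1).resolve_left hμ0)
  have hOg : ∀ w ∈ O, g.p w ∈ O := by
    intro w hw
    rw [← hOim] at hw
    obtain ⟨u, hu, rfl⟩ := Finset.mem_image.1 hw
    have hu1 := (hCm u).1 hu
    have hgu : g.p u = P ∨ t < wn g₀ (g.p u) P := by
      by_cases h : u = P
      · left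
        rw [h, hP]
      · right
        rw [hmg u h]
        exact hu1.resolve_left h
    have hgu2 := hCB _ hgu
    rw [← hg2, hOm]
    refine ⟨(hBm _).2 (hB2 _ hgu2), ?_⟩
    rw [hX2 _ hgu2, (hz _ hgu2).2 hgu, hν, mul_zero, zero_add]
  have hOP : P ∉ O := by
    rw [hOm]
    rintro ⟨-, h⟩
    rw [hX.zero] at h
    exact zero_ne_one h
  have hd1 : d ∣ C.card := by
    have h1 := hO O hOg hOP
    rwa [← hOim, Finset.card_image_of_injective _ g₀.p.injective] at h1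
  have hPC : P ∈ C := (hCm P).2 (Or.inl rfl)
  have hd2 : d ∣ (C.erase P).card := by
    apply hO
    · intro w hw
      rw [Finset.mem_erase, hCm] at hw ⊢
      refine ⟨hgP w hw.1, Or.inr ?_⟩
      rw [hmg w hw.1]
      exact hw.2.resolve_left hw.1
    · simp
  have hc := Finset.card_erase_add_one hPC
  rw [← hc] at hd1
  have h1 : d ∣ 1 := (Nat.dvd_add_right hd2).1 hd1
  have h2 := Nat.le_of_dvd one_pos h1
  omega

end Pool.Agent.Helper96.LN3
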