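import Pool.Agent.Helper96.LN3.CornA

/-!
# LN3-L11/L12b (MP_730da0_ag): the multiplier (A5) and the corner structure

Paper proof of `mult₀`.  `κ(u,v) = L_ab(u + πi, v) - L_ab(u, v)`, `exp κ = (W_(σa) - W_(σb))/(W_a - W_b)` (`tru`), `σ = σ₀`.
Claim: there is `κ_∞` with `κ(-t + i y, -t) → κ_∞` for every real `y`.
Case `σ a = b`, `σ b = a`: `exp κ = -1`, `κ` is continuous on `Hl ×ˢ Hl` (connected), so constant.
Case `σ a = b`, `c = σ b ≠ a` (`c ≠ b` because `σ b = b = σ a` is impossible): `exp κ = (W_b - W_c)/(W_a - W_b) = - λ'`, `λ' = (W_b - W_c)/(W_b - W_a)`, the ratio of the triple `(b; c, a)`; `κ = L_bc - L_ba + const` (the difference is continuous with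
`exp = -1`).  `n₀ b c - n₀ b a = n₀ (σ a) (σ b) - n₀ a b = 0` (`inv₀₀`, `sym₀`), `n₂ b c - n₂ b a = n₂ (σ a) (σ b) - n₂ a b = 0` (`inv₂₀`, `sym₂`).  So `diag`, `vertu` give the claim.
Case `σ a = a`, `σ b = b`: `exp κ = 1`, `κ` constant.  Case `σ a = a`, `c = σ b ≠ b`: `exp κ = (W_a - W_c)/(W_a - W_b)`, the triple `(a; c, b)`, `κ = L_ac - L_ab + const`, `n₀ a c = n₀ (σ a) (σ b) = n₀ a b`, `n₂` similarly.
`Σ_(j < M) κ(-t + jπi, -t) = L_ab(-t + Mπi, -t) - L_ab(-t,-t) = 2πi n₀ a b` (telescoping, `Ltru`), so `M κ_∞ = 2πi n₀ a b`, and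
`(x_(σb) - x_(σa))/(x_b - x_a) (t) = exp κ(-t,-t) → exp κ_∞ = exp (2πi n₀ a b/M)`.
`mult₂`: the same with the two variables exchanged (`Fam.swap`: `Fam σ₂ σ₀ n₂ n₀ M (fun a u v => W a v u) (fun a b u v => L a b v u)`).
`corner_of_fam`: `M = per F`; `inj`: `exp` (`W a ≠ W b`); the other fields from `CornA.lean` and the hypotheses.
-/

namespace Pool.Agent.Helper96.LN3

variable {F : Type} {σ₀ σ₂ : Equiv.Perm F} {n₀ n₂ : F → F → ℤ} {M : ℕ} {W : F → ℂ → ℂ → ℂ} {L : F → F → ℂ → ℂ → ℂ}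

theorem Fam.swap (h : Fam σ₀ σ₂ n₀ n₂ M W L) :
    Fam σ₂ σ₀ n₂ n₀ M (fun a u v => W a v u) (fun a b u v => L a b v u) := by
  sorry

theorem Fam.mult₀ (h : Fam σ₀ σ₂ n₀ n₂ M W L) (hM : 0 < M) (a b : F) (hab : a ≠ b) (hs : σ₀ a = b ∨ σ₀ a = a) :
    Filter.Tendsto (fun t : ℝ => (W (σ₀ b) (-t) (-t) - W (σ₀ a) (-t) (-t)) / (W b (-t) (-t) - W a (-t) (-t)))
      Filter.atTop (nhds (Complex.exp (2 * Real.pi * Complex.I * n₀ a b / M))) := by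
  sorry

theorem corner_of_fam {F : Type} [Finite F] (g₀ g₂ : WG F) (hc : g₀ * g₂ = g₂ * g₀)
    (i0 : ∀ a b, a ≠ b → wd g₀ a b = wn g₀ a b) (i2 : ∀ a b, a ≠ b → wd g₂ a b = wn g₂ a b)
    (s0 : ∀ a b, wn g₀ a b = wn g₀ b a) (s2 : ∀ a b, wn g₂ a b = wn g₂ b a)
    (W : F → ℂ → ℂ → ℂ) (L : F → F → ℂ → ℂ → ℂ) (h : Fam g₀.p g₂.p (wn g₀) (wn g₂) (per F) W L) :
    Corner g₀ g₂ (fun a t => W a (-t) (-t)) := by
  sorry

end Pool.Agent.Helper96.LN3
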