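import Pool.Agent.Helper96.LN3.Map
import Pool.Agent.Helper96.LN3.Defs

/-!
# LN3-L1 (MP_730da0_ag): the system of logarithms of differences and the cocycles of the generators

`lgSys S`: the fibre over `q` is `{(w, w', l) : w, w' ∈ S.F q, exp l = w - w'}`.
Paper proof.  `lift`: `S.lift` twice (sections `s`, `s'` through `w₀`, `w₀'`); `s a ≠ s' a` for all `a` (`S.uniq`: if they agree somewhere they agree everywhere, but `w₀ ≠ w₀'` because `exp l ≠ 0`);
`exp_lift` (Helper2/LN/Systems.lean) for `a ↦ s a - s' a`.  `uniq`: `S.uniq` for the two first components, then `exp_uniq`.  `perm`: `S.perm`.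

`wg S i`: the generator number `i` as an element of `WG (S.F (base k))`: `s_i (a, b, l) = (s_i a, s_i b, l + d_i(a,b))`.
Paper proof of `lg_act`: `s_map` for the two projections `lgSys S → S`, and for the shift `(w,w',l) ↦ (w,w',l + 2πi n)` of `lgSys S` (`n : ℤ`; two `l` with the same `exp` differ by `2πi n`, `Complex.exp_eq_exp_iff_exists_int`).
`wg_good`: `exp`: the membership of `s_i (a,b,l)` in the fibre; `sym`: `s_map` for the swap `(w,w',l) ↦ (w',w,l + πi)`; `diag` by definition.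
`wg_comm`, `wg_braid`: `ext`; the `p` part is `S.s_comm`, `S.s_braid`; the `d` part for `a = b`: all terms `0` (`diag`); for `a ≠ b`: apply `(lgSys S).s_comm` (`s_braid`) to `(a, b, log (a-b))` and compare the third components
(`lg_act` several times).
-/

namespace Pool.Agent.Helper96.LN3

open Pool.Agent.Helper2.LN

variable {k : ℕ}

theorem lgF_perm (S : Sys k ℂ) (q : Fin k → ℂ) (π : Equiv.Perm (Fin k)) : lgF S (q ∘ π) = lgF S q := by
  unfold lgF
  rw [S.perm]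

theorem lgF_lift (S : Sys k ℂ) (A : Type) [TopologicalSpace A] [SimplyConnectedSpace A]
    [LocallyPathConnectedSpace A] (γ : C(A, Fin k → ℂ)) (hγ : ∀ a, γ a ∈ Conf k) (a₀ : A) (w₀ : ℂ × ℂ × ℂ)
    (hw : w₀ ∈ lgF S (γ a₀)) : ∃ s : C(A, ℂ × ℂ × ℂ), s a₀ = w₀ ∧ ∀ a, s a ∈ lgF S (γ a) := by
  obtain ⟨hw1, hw2, hw3⟩ := hw
  obtain ⟨x, hx0, hx⟩ := S.lift A γ hγ a₀ w₀.1 hw1
  obtain ⟨y, hy0, hy⟩ := S.lift A γ hγ a₀ w₀.2.1 hw2
  have hne : ∀ a, x a - y a ≠ 0 := by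
    intro a h
    have h1 : x = y := S.uniq A γ hγ x y hx hy ⟨a, sub_eq_zero.1 h⟩
    have h2 : Complex.exp w₀.2.2 = 0 := by
      rw [hw3, ← hx0, ← hy0, h1, sub_self]
    exact Complex.exp_ne_zero _ h2
  let g : C(A, ℂ) := ⟨fun a => x a - y a, x.continuous.sub y.continuous⟩
  obtain ⟨m, hm0, hm⟩ := exp_lift A g hne a₀ w₀.2.2 (by
    show Complex.exp w₀.2.2 = x a₀ - y a₀
    rw [hx0, hy0]
    exact hw3)
  refine ⟨⟨fun a => (x a, y a, m a), x.continuous.prodMk (y.continuous.prodMk m.continuous)⟩,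
    Prod.ext hx0 (Prod.ext hy0 hm0), fun a => ?_⟩
  exact ⟨hx a, hy a, hm a⟩

theorem lgF_uniq (S : Sys k ℂ) (A : Type) [TopologicalSpace A] [PreconnectedSpace A]
    (γ : C(A, Fin k → ℂ)) (hγ : ∀ a, γ a ∈ Conf k) (s s' : C(A, ℂ × ℂ × ℂ))
    (hs : ∀ a, s a ∈ lgF S (γ a)) (hs' : ∀ a, s' a ∈ lgF S (γ a)) (h : ∃ a, s a = s' a) : s = s' := by
  obtain ⟨a₀, ha⟩ := h
  let x : C(A, ℂ) := ⟨fun a => (s a).1, continuous_fst.comp s.continuous⟩
  let x' : C(A, ℂ) := ⟨fun a => (s' a).1, continuous_fst.comp s'.continuous⟩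
  let y : C(A, ℂ) := ⟨fun a => (s a).2.1, continuous_fst.comp (continuous_snd.comp s.continuous)⟩
  let y' : C(A, ℂ) := ⟨fun a => (s' a).2.1, continuous_fst.comp (continuous_snd.comp s'.continuous)⟩
  let m : C(A, ℂ) := ⟨fun a => (s a).2.2, continuous_snd.comp (continuous_snd.comp s.continuous)⟩
  let m' : C(A, ℂ) := ⟨fun a => (s' a).2.2, continuous_snd.comp (continuous_snd.comp s'.continuous)⟩
  have hx : x = x' := S.uniq A γ hγ x x' (fun a => (hs a).1) (fun a => (hs' a).1)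
    ⟨a₀, congrArg Prod.fst ha⟩
  have hy : y = y' := S.uniq A γ hγ y y' (fun a => (hs a).2.1) (fun a => (hs' a).2.1)
    ⟨a₀, congrArg (fun z : ℂ × ℂ × ℂ => z.2.1) ha⟩
  have hx2 : ∀ a, (s a).1 = (s' a).1 := fun a => DFunLike.congr_fun hx a
  have hy2 : ∀ a, (s a).2.1 = (s' a).2.1 := fun a => DFunLike.congr_fun hy a
  let g : C(A, ℂ) := ⟨fun a => (s a).1 - (s a).2.1,
    (continuous_fst.comp s.continuous).sub (continuous_fst.comp (continuous_snd.comp s.continuous))⟩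
  have hm : m = m' := exp_uniq A g m m' (fun a => (hs a).2.2) (fun a => by
    show Complex.exp (s' a).2.2 = (s a).1 - (s a).2.1
    rw [hx2 a, hy2 a]
    exact (hs' a).2.2) ⟨a₀, congrArg (fun z : ℂ × ℂ × ℂ => z.2.2) ha⟩
  ext a
  · exact hx2 a
  · exact hy2 a
  · exact DFunLike.congr_fun hm a

/-- The system of the logarithms of differences. -/
def lgSys (S : Sys k ℂ) : Sys k (ℂ × ℂ × ℂ) where
  F := lgF S
  perm := lgF_perm S
  lift := fun A => lgF_lift S A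
  uniq := fun A => lgF_uniq S A

/-- The point `(a, b, l)` of the fibre over the base configuration. -/
def lgPt (S : Sys k ℂ) (a b : S.F (base k)) (l : ℂ) (h : Complex.exp l = (a : ℂ) - b) : (lgSys S).F (base k) :=
  ⟨((a : ℂ), (b : ℂ), l), a.2, b.2, h⟩

theorem exp_log_sub (S : Sys k ℂ) (a b : S.F (base k)) (h : a ≠ b) :
    Complex.exp (Complex.log ((a : ℂ) - b)) = (a : ℂ) - b :=
  Complex.exp_log (sub_ne_zero.2 fun h1 => h (Subtype.ext h1))

open Classical in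
/-- The generator number `i` with its cocycle. -/
noncomputable def wg (S : Sys k ℂ) (i : ℕ) : WG (S.F (base k)) where
  p := S.s i
  d := fun a b => if h : a = b then 0 else
    ((lgSys S).s i (lgPt S a b (Complex.log ((a : ℂ) - b)) (exp_log_sub S a b h)) : ℂ × ℂ × ℂ).2.2 -
      Complex.log ((a : ℂ) - b)

theorem wg_d_ne (S : Sys k ℂ) (i : ℕ) (a b : S.F (base k)) (h : a ≠ b) :
    (wg S i).d a b =
      ((lgSys S).s i (lgPt S a b (Complex.log ((a : ℂ) - b)) (exp_log_sub S a b h)) : ℂ × ℂ × ℂ).2.2 -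
        Complex.log ((a : ℂ) - b) := by
  show (if h : a = b then 0 else _) = _
  rw [dif_neg h]

private theorem ne_of_exp (S : Sys k ℂ) (a b : S.F (base k)) (l : ℂ)
    (h : Complex.exp l = (a : ℂ) - b) : a ≠ b := by
  intro h1
  rw [h1, sub_self] at h
  exact Complex.exp_ne_zero _ h

private theorem lg_fst (S : Sys k ℂ) (i : ℕ) (hi : i + 1 < k) (a b : S.F (base k)) (l : ℂ)
    (h : Complex.exp l = (a : ℂ) - b) :
    ((lgSys S).s i (lgPt S a b l h) : ℂ × ℂ × ℂ).1 = (S.s i a : ℂ) :=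
  s_map (lgSys S) S Prod.fst continuous_fst (fun q _ w hw => hw.1) i hi (lgPt S a b l h)

private theorem lg_snd (S : Sys k ℂ) (i : ℕ) (hi : i + 1 < k) (a b : S.F (base k)) (l : ℂ)
    (h : Complex.exp l = (a : ℂ) - b) :
    ((lgSys S).s i (lgPt S a b l h) : ℂ × ℂ × ℂ).2.1 = (S.s i b : ℂ) :=
  s_map (lgSys S) S (fun w : ℂ × ℂ × ℂ => w.2.1) (continuous_fst.comp continuous_snd)
    (fun q _ w hw => hw.2.1) i hi (lgPt S a b l h)

private theorem lg_shift (S : Sys k ℂ) (i : ℕ) (hi : i + 1 < k) (a b : S.F (base k)) (l l' : ℂ)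
    (h : Complex.exp l = (a : ℂ) - b) (h' : Complex.exp l' = (a : ℂ) - b) :
    ((lgSys S).s i (lgPt S a b l' h') : ℂ × ℂ × ℂ).2.2 - l' =
      ((lgSys S).s i (lgPt S a b l h) : ℂ × ℂ × ℂ).2.2 - l := by
  obtain ⟨n, hn⟩ := Complex.exp_eq_exp_iff_exists_int.1 (h'.trans h.symm)
  have h1 := s_map (lgSys S) (lgSys S)
    (fun w : ℂ × ℂ × ℂ => (w.1, w.2.1, w.2.2 + n * (2 * Real.pi * Complex.I)))
    (by fun_prop)
    (fun q _ w hw => ⟨hw.1, hw.2.1, by
      show Complex.exp (w.2.2 + n * (2 * Real.pi * Complex.I)) = w.1 - w.2.1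
      rw [Complex.exp_add, Complex.exp_int_mul_two_pi_mul_I, mul_one]
      exact hw.2.2⟩) i hi (lgPt S a b l h)
  have h2 : (⟨(((lgPt S a b l h : (lgSys S).F (base k)) : ℂ × ℂ × ℂ).1,
      ((lgPt S a b l h : (lgSys S).F (base k)) : ℂ × ℂ × ℂ).2.1,
      ((lgPt S a b l h : (lgSys S).F (base k)) : ℂ × ℂ × ℂ).2.2 + n * (2 * Real.pi * Complex.I)),
      ⟨a.2, b.2, by
        show Complex.exp (l + n * (2 * Real.pi * Complex.I)) = (a : ℂ) - b
        rw [Complex.exp_add, Complex.exp_int_mul_two_pi_mul_I, mul_one]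
        exact h⟩⟩ : (lgSys S).F (base k)) = lgPt S a b l' h' := by
    refine Subtype.ext (Prod.ext rfl (Prod.ext rfl ?_))
    show l + n * (2 * Real.pi * Complex.I) = l'
    rw [hn]
  have h3 := congrArg (fun w : ℂ × ℂ × ℂ => w.2.2) h1
  have h4 : ((lgSys S).s i (lgPt S a b l h) : ℂ × ℂ × ℂ).2.2 + n * (2 * Real.pi * Complex.I) =
      ((lgSys S).s i (lgPt S a b l' h') : ℂ × ℂ × ℂ).2.2 := by
    rw [← h2]
    exact h3
  rw [← h4, hn]
  ring

theorem lg_act (S : Sys k ℂ) (i : ℕ) (hi : i + 1 < k) (a b : S.F (base k)) (l : ℂ)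
    (h : Complex.exp l = (a : ℂ) - b) :
    ((lgSys S).s i (lgPt S a b l h) : ℂ × ℂ × ℂ) = ((S.s i a : ℂ), (S.s i b : ℂ), l + (wg S i).d a b) := by
  have hab := ne_of_exp S a b l h
  refine Prod.ext (lg_fst S i hi a b l h) (Prod.ext (lg_snd S i hi a b l h) ?_)
  show ((lgSys S).s i (lgPt S a b l h) : ℂ × ℂ × ℂ).2.2 = l + (wg S i).d a b
  rw [wg_d_ne S i a b hab,
    lg_shift S i hi a b l (Complex.log ((a : ℂ) - b)) h (exp_log_sub S a b hab)]
  ring

private theorem wg_diag (S : Sys k ℂ) (i : ℕ) (a : S.F (base k)) : (wg S i).d a a = 0 := by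
  show (if h : a = a then 0 else _) = _
  rw [dif_pos rfl]

theorem wg_good (S : Sys k ℂ) (i : ℕ) (hi : i + 1 < k) : Good (fun a : S.F (base k) => (a : ℂ)) (wg S i) := by
  refine ⟨fun a b hab => ?_, fun a b => ?_, fun a => wg_diag S i a⟩
  · have h1 := lg_act S i hi a b _ (exp_log_sub S a b hab)
    have h2 : Complex.exp ((lgSys S).s i (lgPt S a b _ (exp_log_sub S a b hab)) : ℂ × ℂ × ℂ).2.2 =
        ((lgSys S).s i (lgPt S a b _ (exp_log_sub S a b hab)) : ℂ × ℂ × ℂ).1 -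
          ((lgSys S).s i (lgPt S a b _ (exp_log_sub S a b hab)) : ℂ × ℂ × ℂ).2.1 :=
      ((lgSys S).s i (lgPt S a b _ (exp_log_sub S a b hab))).2.2.2
    rw [h1] at h2
    have h3 : ((a : ℂ) - b) * Complex.exp ((wg S i).d a b) = (S.s i a : ℂ) - (S.s i b : ℂ) := by
      rw [← exp_log_sub S a b hab, ← Complex.exp_add]
      exact h2
    have h4 : (a : ℂ) - b ≠ 0 := sub_ne_zero.2 fun h => hab (Subtype.ext h)
    rw [eq_div_iff h4, mul_comm]
    exact h3
  · by_cases hab : a = b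
    · rw [hab]
    have h0 := exp_log_sub S a b hab
    set l := Complex.log ((a : ℂ) - b) with hl
    have hπ : ∀ x : ℂ, Complex.exp (x + Real.pi * Complex.I) = - Complex.exp x := fun x => by
      rw [Complex.exp_add, Complex.exp_pi_mul_I, mul_neg_one]
    have h0' : Complex.exp (l + Real.pi * Complex.I) = (b : ℂ) - a := by
      rw [hπ, h0]
      ring
    have h1 := s_map (lgSys S) (lgSys S)
      (fun w : ℂ × ℂ × ℂ => (w.2.1, w.1, w.2.2 + Real.pi * Complex.I))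
      (by fun_prop)
      (fun q _ w hw => ⟨hw.2.1, hw.1, by
        show Complex.exp (w.2.2 + Real.pi * Complex.I) = w.2.1 - w.1
        rw [hπ, hw.2.2]
        ring⟩) i hi (lgPt S a b l h0)
    have h2 : (lgSys S).s i (lgPt S a b l h0) = ((S.s i a : ℂ), (S.s i b : ℂ), l + (wg S i).d a b) :=
      lg_act S i hi a b l h0
    have h3 := lg_act S i hi b a (l + Real.pi * Complex.I) h0'
    have h4 := congrArg (fun w : ℂ × ℂ × ℂ => w.2.2) h1
    have h5 : ((lgSys S).s i (lgPt S a b l h0) : ℂ × ℂ × ℂ).2.2 + Real.pi * Complex.I =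
        ((lgSys S).s i (lgPt S b a (l + Real.pi * Complex.I) h0') : ℂ × ℂ × ℂ).2.2 := h4
    rw [h2, h3] at h5
    have h6 : l + (wg S i).d a b + Real.pi * Complex.I =
        l + Real.pi * Complex.I + (wg S i).d b a := h5
    linear_combination h6

private theorem s_lgPt (S : Sys k ℂ) (i : ℕ) (hi : i + 1 < k) (a b : S.F (base k)) (l : ℂ)
    (h : Complex.exp l = (a : ℂ) - b) :
    ∃ h' : Complex.exp (l + (wg S i).d a b) = ((S.s i a : S.F (base k)) : ℂ) - (S.s i b : S.F (base k)),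
      (lgSys S).s i (lgPt S a b l h) = lgPt S (S.s i a) (S.s i b) (l + (wg S i).d a b) h' := by
  have h1 := lg_act S i hi a b l h
  have h2 : Complex.exp ((lgSys S).s i (lgPt S a b l h) : ℂ × ℂ × ℂ).2.2 =
      ((lgSys S).s i (lgPt S a b l h) : ℂ × ℂ × ℂ).1 -
        ((lgSys S).s i (lgPt S a b l h) : ℂ × ℂ × ℂ).2.1 :=
    ((lgSys S).s i (lgPt S a b l h)).2.2.2
  rw [h1] at h2
  exact ⟨h2, Subtype.ext h1⟩

theorem wg_comm (S : Sys k ℂ) (i j : ℕ) (hij : i + 2 ≤ j) (hj : j + 1 < k) :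
    wg S i * wg S j = wg S j * wg S i := by
  refine WG.ext (S.s_comm i j hij hj) (funext fun a => funext fun b => ?_)
  show (wg S j).d a b + (wg S i).d (S.s j a) (S.s j b) = (wg S i).d a b + (wg S j).d (S.s i a) (S.s i b)
  by_cases hab : a = b
  · rw [hab]
    simp only [wg_diag, add_zero]
  have h0 := exp_log_sub S a b hab
  set l := Complex.log ((a : ℂ) - b) with hl
  have hi : i + 1 < k := by omega
  obtain ⟨e1, h1⟩ := s_lgPt S j hj a b l h0
  obtain ⟨e2, h2⟩ := s_lgPt S i hi (S.s j a) (S.s j b) _ e1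
  obtain ⟨e3, h3⟩ := s_lgPt S i hi a b l h0
  obtain ⟨e4, h4⟩ := s_lgPt S j hj (S.s i a) (S.s i b) _ e3
  have h5 := DFunLike.congr_fun ((lgSys S).s_comm i j hij hj) (lgPt S a b l h0)
  rw [Equiv.Perm.mul_apply, Equiv.Perm.mul_apply, h1, h2, h3, h4] at h5
  have h6 := congrArg (fun w : (lgSys S).F (base k) => (w : ℂ × ℂ × ℂ).2.2) h5
  have h7 : l + (wg S j).d a b + (wg S i).d (S.s j a) (S.s j b) =
      l + (wg S i).d a b + (wg S j).d (S.s i a) (S.s i b) := h6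
  linear_combination h7

theorem wg_braid (S : Sys k ℂ) (i : ℕ) (hi : i + 2 < k) :
    wg S i * wg S (i + 1) * wg S i = wg S (i + 1) * wg S i * wg S (i + 1) := by
  refine WG.ext (S.s_braid i hi) (funext fun a => funext fun b => ?_)
  show (wg S i).d a b + ((wg S (i + 1)).d (S.s i a) (S.s i b) +
      (wg S i).d (S.s (i + 1) (S.s i a)) (S.s (i + 1) (S.s i b))) =
    (wg S (i + 1)).d a b + ((wg S i).d (S.s (i + 1) a) (S.s (i + 1) b) +
      (wg S (i + 1)).d (S.s i (S.s (i + 1) a)) (S.s i (S.s (i + 1) b)))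
  by_cases hab : a = b
  · rw [hab]
    simp only [wg_diag, add_zero]
  have h0 := exp_log_sub S a b hab
  set l := Complex.log ((a : ℂ) - b) with hl
  have hi1 : i + 1 < k := by omega
  have hi2 : i + 1 + 1 < k := by omega
  obtain ⟨e1, h1⟩ := s_lgPt S i hi1 a b l h0
  obtain ⟨e2, h2⟩ := s_lgPt S (i + 1) hi2 (S.s i a) (S.s i b) _ e1
  obtain ⟨e3, h3⟩ := s_lgPt S i hi1 (S.s (i + 1) (S.s i a)) (S.s (i + 1) (S.s i b)) _ e2
  obtain ⟨f1, g1⟩ := s_lgPt S (i + 1) hi2 a b l h0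
  obtain ⟨f2, g2⟩ := s_lgPt S i hi1 (S.s (i + 1) a) (S.s (i + 1) b) _ f1
  obtain ⟨f3, g3⟩ := s_lgPt S (i + 1) hi2 (S.s i (S.s (i + 1) a)) (S.s i (S.s (i + 1) b)) _ f2
  have h5 := DFunLike.congr_fun ((lgSys S).s_braid i hi) (lgPt S a b l h0)
  rw [Equiv.Perm.mul_apply, Equiv.Perm.mul_apply, Equiv.Perm.mul_apply, Equiv.Perm.mul_apply,
    h1, h2, h3, g1, g2, g3] at h5
  have h6 := congrArg (fun w : (lgSys S).F (base k) => (w : ℂ × ℂ × ℂ).2.2) h5
  have h7 : l + (wg S i).d a b + (wg S (i + 1)).d (S.s i a) (S.s i b) +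
      (wg S i).d (S.s (i + 1) (S.s i a)) (S.s (i + 1) (S.s i b)) =
    l + (wg S (i + 1)).d a b + (wg S i).d (S.s (i + 1) a) (S.s (i + 1) b) +
      (wg S (i + 1)).d (S.s i (S.s (i + 1) a)) (S.s i (S.s (i + 1) b)) := h6
  linear_combination h7

end Pool.Agent.Helper96.LN3
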