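import Pool.Agent.Helper96.LN3.FamX
import Pool.Agent.Helper96.LN3.LogSys
import Pool.Agent.Helper96.LN3.Wind
import Pool.Agent.Helper93.L2.Defs

/-!
# LN3-L12 (MP_730da0_ag): the two parameter family of a finite holomorphic system

Paper proof.  `X` from `exists_fam` for `S`, `Y` from `exists_fam` for `lgSys S`; `W a = X a`, `L a b u v = (Y (a, b, log (a - b)) u v).2.2` for `a ≠ b` (`0` else).  `fam_map` for the two projections: the first two components of
`Y (a,b,l) u v` are `X a u v`, `X b u v`; for the shift: `Y (a,b,l + 2πi n) = Y (a,b,l) + (0,0,2πi n)`.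
`exp`: `mem`.  `tru`, `trv`: `fam_tru`, `fam_trv`.  `pu`, `pv`: `per_pow`.
`Ltru`: `fam_tru` `M = per F` times: `Y φ (u + Mπi) v = Y ((s_i)^M φ) u v`, and `(s_i)^M (a,b,l) = (a, b, l + ((wg S i)^M).d a b)` (`lg_act`, induction; `per_pow`), `= l + 2πi wn` (`Good.pow_d`, `wg_good`).
`inv`, `sym`: `wn_comm` (`g = h` resp. `wg_comm`), `Good.wn_sym`.
`holu`, `holv`, `hold`: the map `γ : u ↦ cn k i j u v` (resp. `z ↦ cn k i j (p z) (q z)`) is holomorphic with values in `Conf k`, `X a ∘ ..` is a continuous section over it.  At a point `z₀`: near `q₀ = γ z₀` there is a continuous section `σ` of `S` over a ball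
`D ⊆ Conf k` (`Sys.exists_sec`, `isOpen_Conf`) with `σ q₀ = X a ..`; `hhol` says that `σ` is holomorphic on `D`; by `S.uniq` the section is `σ ∘ γ` near `z₀` (on a ball around `z₀`).
-/

namespace Pool.Agent.Helper96.LN3

open Pool.Agent.Helper2.LN Pool.Agent.Helper93.L2

private theorem fo_hol {k : ℕ} (S : Sys k ℂ) (hhol : HolSys S) (U : Set ℂ) (hU : IsOpen U)
    (γ : ℂ → Fin k → ℂ) (hγ : DifferentiableOn ℂ γ U) (hγC : ∀ z ∈ U, γ z ∈ Conf k)
    (f : ℂ → ℂ) (hf : ContinuousOn f U) (hfF : ∀ z ∈ U, f z ∈ S.F (γ z)) : DifferentiableOn ℂ f U := by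
  intro z₀ hz₀
  obtain ⟨r, hr, hball⟩ := Metric.isOpen_iff.1 (isOpen_Conf k) (γ z₀) (hγC z₀ hz₀)
  obtain ⟨σ, hσc, hσF, hσ0⟩ := S.exists_sec (Metric.ball (γ z₀) r) (convex_ball _ _) hball (γ z₀)
    (Metric.mem_ball_self hr) (f z₀) (hfF z₀ hz₀)
  have hσd := hhol (Metric.ball (γ z₀) r) Metric.isOpen_ball hball σ hσc hσF
  have hγc : ContinuousAt γ z₀ := hγ.continuousOn.continuousAt (hU.mem_nhds hz₀)
  obtain ⟨δ, hδ, hδb⟩ := Metric.mem_nhds_iff.1
    (Filter.inter_mem (hU.mem_nhds hz₀) (hγc (Metric.ball_mem_nhds _ hr)))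
  have hpre : PreconnectedSpace (Metric.ball z₀ δ) :=
    Subtype.preconnectedSpace (convex_ball z₀ δ).isPreconnected
  have hγB : ContinuousOn γ (Metric.ball z₀ δ) := hγ.continuousOn.mono fun z hz => (hδb hz).1
  have hfB : ContinuousOn f (Metric.ball z₀ δ) := hf.mono fun z hz => (hδb hz).1
  have hσB : ContinuousOn (fun z => σ (γ z)) (Metric.ball z₀ δ) :=
    hσc.comp hγB fun z hz => (hδb hz).2
  have huniq := S.uniq (Metric.ball z₀ δ) ⟨fun z => γ z, hγB.domRestrict⟩
    (fun z => hγC z (hδb z.2).1) ⟨fun z => f z, hfB.domRestrict⟩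
    ⟨fun z => σ (γ z), hσB.domRestrict⟩ (fun z => hfF z (hδb z.2).1) (fun z => hσF _ (hδb z.2).2)
    ⟨⟨z₀, Metric.mem_ball_self hδ⟩, hσ0.symm⟩
  have heq : f =ᶠ[nhds z₀] fun z => σ (γ z) := by
    filter_upwards [Metric.ball_mem_nhds z₀ hδ] with z hz
    exact DFunLike.congr_fun huniq ⟨z, hz⟩
  have h1 : DifferentiableAt ℂ σ (γ z₀) :=
    (hσd _ (Metric.mem_ball_self hr)).differentiableAt (Metric.ball_mem_nhds _ hr)
  have h2 : DifferentiableAt ℂ γ z₀ := (hγ z₀ hz₀).differentiableAt (hU.mem_nhds hz₀)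
  exact ((h1.comp z₀ h2).congr_of_eventuallyEq heq).differentiableWithinAt

private theorem fo_open : IsOpen Hl := isOpen_lt Complex.continuous_re continuous_const

private theorem fo_add (u : ℂ) (hu : u ∈ Hl) (n : ℕ) : u + n * (Real.pi * Complex.I) ∈ Hl := by
  have h : (u + n * (Real.pi * Complex.I)).re = u.re := by simp
  show (u + n * (Real.pi * Complex.I)).re < 0
  rw [h]
  exact hu

private theorem fo_mul (z : ℂ) (hz : z ∈ Hl) (p : ℕ) (hp : 0 < p) : (p : ℂ) * z ∈ Hl := by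
  have h : ((p : ℂ) * z).re = p * z.re := by simp
  show ((p : ℂ) * z).re < 0
  rw [h]
  have h1 : z.re < 0 := hz
  have h2 : (0 : ℝ) < p := by exact_mod_cast hp
  exact mul_neg_of_pos_of_neg h2 h1

section

variable {k : ℕ} {W : Type} [TopologicalSpace W]

private theorem fo_tru (S : Sys k W) (i j : ℕ) (hij : i + 2 ≤ j) (hj : j + 1 < k)
    (X : S.F (base k) → ℂ → ℂ → W) (hX : IsFam S i j X) (n : ℕ) (φ : S.F (base k)) (u v : ℂ)
    (hu : u ∈ Hl) (hv : v ∈ Hl) :
    X φ (u + n * (Real.pi * Complex.I)) v = X ((S.s i ^ n) φ) u v := by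
  induction n generalizing φ with
  | zero =>
    have h : u + ((0 : ℕ) : ℂ) * (Real.pi * Complex.I) = u := by simp
    rw [h, pow_zero]
    rfl
  | succ n ih =>
    have h : u + ((n + 1 : ℕ) : ℂ) * (Real.pi * Complex.I)
        = (u + n * (Real.pi * Complex.I)) + Real.pi * Complex.I := by
      push_cast
      ring
    rw [h, fam_tru S i j hij hj X hX φ _ v (fo_add u hu n) hv, ih, pow_succ]
    rfl

private theorem fo_trv (S : Sys k W) (i j : ℕ) (hij : i + 2 ≤ j) (hj : j + 1 < k)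
    (X : S.F (base k) → ℂ → ℂ → W) (hX : IsFam S i j X) (n : ℕ) (φ : S.F (base k)) (u v : ℂ)
    (hu : u ∈ Hl) (hv : v ∈ Hl) :
    X φ u (v + n * (Real.pi * Complex.I)) = X ((S.s j ^ n) φ) u v := by
  induction n generalizing φ with
  | zero =>
    have h : v + ((0 : ℕ) : ℂ) * (Real.pi * Complex.I) = v := by simp
    rw [h, pow_zero]
    rfl
  | succ n ih =>
    have h : v + ((n + 1 : ℕ) : ℂ) * (Real.pi * Complex.I)
        = (v + n * (Real.pi * Complex.I)) + Real.pi * Complex.I := by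
      push_cast
      ring
    rw [h, fam_trv S i j hij hj X hX φ u _ hu (fo_add v hv n), ih, pow_succ]
    rfl

end

section

variable {k : ℕ} (S : Sys k ℂ)

private theorem fo_pow (i : ℕ) (hi : i + 1 < k) (n : ℕ) (a b : S.F (base k)) (l : ℂ)
    (h : Complex.exp l = (a : ℂ) - b) :
    ((((lgSys S).s i ^ n) (lgPt S a b l h) : (lgSys S).F (base k)) : ℂ × ℂ × ℂ) =
      (((((wg S i) ^ n).p a : S.F (base k)) : ℂ), ((((wg S i) ^ n).p b : S.F (base k)) : ℂ),
        l + ((wg S i) ^ n).d a b) := by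
  induction n generalizing a b l with
  | zero =>
    simp only [pow_zero, Equiv.Perm.one_apply, WG.one_p, WG.one_d, add_zero]
    rfl
  | succ n ih =>
    have h1 := lg_act S i hi a b l h
    have h2 : Complex.exp (l + (wg S i).d a b) = ((S.s i a : S.F (base k)) : ℂ) - (S.s i b : S.F (base k)) := by
      have h3 := ((lgSys S).s i (lgPt S a b l h)).2.2.2
      rw [h1] at h3
      exact h3
    have h4 : (lgSys S).s i (lgPt S a b l h) =
        lgPt S (S.s i a) (S.s i b) (l + (wg S i).d a b) h2 := Subtype.ext h1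
    have h5 : ((lgSys S).s i ^ (n + 1)) (lgPt S a b l h) =
        ((lgSys S).s i ^ n) ((lgSys S).s i (lgPt S a b l h)) := by
      rw [pow_succ]
      rfl
    rw [h5, h4, ih]
    have h6 : (wg S i) ^ (n + 1) = (wg S i) ^ n * wg S i := pow_succ _ _
    rw [h6]
    simp only [WG.mul_p, WG.mul_d, Equiv.Perm.mul_apply, ← add_assoc]
    rfl

private theorem fo_shift (i j : ℕ) (hij : i + 2 ≤ j) (hj : j + 1 < k)
    (Y : (lgSys S).F (base k) → ℂ → ℂ → ℂ × ℂ × ℂ) (hY : IsFam (lgSys S) i j Y)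
    (a b : S.F (base k)) (l : ℂ) (h : Complex.exp l = (a : ℂ) - b) (n : ℤ)
    (h' : Complex.exp (l + 2 * Real.pi * Complex.I * n) = (a : ℂ) - b) (u v : ℂ) (hu : u ∈ Hl) (hv : v ∈ Hl) :
    (Y (lgPt S a b (l + 2 * Real.pi * Complex.I * n) h') u v).2.2 =
      (Y (lgPt S a b l h) u v).2.2 + 2 * Real.pi * Complex.I * n := by
  have hp : Continuous (fun w : ℂ × ℂ × ℂ => (w.1, w.2.1, w.2.2 + 2 * Real.pi * Complex.I * n)) := by
    fun_prop
  have hF : ∀ q ∈ Conf k, ∀ w ∈ (lgSys S).F q,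
      (fun w : ℂ × ℂ × ℂ => (w.1, w.2.1, w.2.2 + 2 * Real.pi * Complex.I * n)) w ∈ (lgSys S).F q := by
    intro q _ w hw
    refine ⟨hw.1, hw.2.1, ?_⟩
    show Complex.exp (w.2.2 + 2 * Real.pi * Complex.I * n) = w.1 - w.2.1
    rw [← hw.2.2, Complex.exp_eq_exp_iff_exists_int]
    exact ⟨n, by ring⟩
  have h1 := fam_map (lgSys S) (lgSys S) i j hij hj Y hY Y hY _ hp hF (lgPt S a b l h) u v hu hv
  have h2 : (⟨(fun w : ℂ × ℂ × ℂ => (w.1, w.2.1, w.2.2 + 2 * Real.pi * Complex.I * n)) (lgPt S a b l h),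
      hF _ (base_mem k) _ (lgPt S a b l h).2⟩ : (lgSys S).F (base k)) =
      lgPt S a b (l + 2 * Real.pi * Complex.I * n) h' := rfl
  rw [h2] at h1
  rw [← h1]

end

theorem exists_Fam {k : ℕ} (S : Sys k ℂ) (hhol : HolSys S) [Finite (S.F (base k))] (i j : ℕ)
    (hij : i + 2 ≤ j) (hj : j + 1 < k) :
    ∃ (W : S.F (base k) → ℂ → ℂ → ℂ) (L : S.F (base k) → S.F (base k) → ℂ → ℂ → ℂ),
      Fam (wg S i).p (wg S j).p (wn (wg S i)) (wn (wg S j)) (per (S.F (base k))) W L := by
  classical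
  obtain ⟨X, hX⟩ := exists_fam S i j hij hj
  obtain ⟨Y, hY⟩ := exists_fam (lgSys S) i j hij hj
  have hi : i + 1 < k := by omega
  have he : Function.Injective (fun a : S.F (base k) => (a : ℂ)) := Subtype.val_injective
  have hgi := wg_good S i hi
  have hgj := wg_good S j hj
  have hcomm := wg_comm S i j hij hj
  have hfst : ∀ (φ : (lgSys S).F (base k)), ∀ u ∈ Hl, ∀ v ∈ Hl,
      (Y φ u v).1 = X ⟨(φ : ℂ × ℂ × ℂ).1, φ.2.1⟩ u v := fun φ u hu v hv =>
    fam_map (lgSys S) S i j hij hj Y hY X hX (fun w => w.1) continuous_fst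
      (fun q _ w hw => hw.1) φ u v hu hv
  have hsnd : ∀ (φ : (lgSys S).F (base k)), ∀ u ∈ Hl, ∀ v ∈ Hl,
      (Y φ u v).2.1 = X ⟨(φ : ℂ × ℂ × ℂ).2.1, φ.2.2.1⟩ u v := fun φ u hu v hv =>
    fam_map (lgSys S) S i j hij hj Y hY X hX (fun w => w.2.1) (continuous_fst.comp continuous_snd)
      (fun q _ w hw => hw.2.1) φ u v hu hv
  -- the period of the logarithms
  have hper : ∀ (m : ℕ) (hm : m + 1 < k) (a b : S.F (base k)) (l : ℂ)
      (h : Complex.exp l = (a : ℂ) - b) (h' : Complex.exp (l + 2 * Real.pi * Complex.I * (wn (wg S m) a b : ℤ)) = (a : ℂ) - b),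
      ((lgSys S).s m ^ per (S.F (base k))) (lgPt S a b l h) =
        lgPt S a b (l + 2 * Real.pi * Complex.I * (wn (wg S m) a b : ℤ)) h' := by
    intro m hm a b l h h'
    apply Subtype.ext
    rw [fo_pow S m hm, pow_p, per_pow, (wg_good S m hm).pow_d he]
    rfl
  have hexp : ∀ (a b : S.F (base k)) (l : ℂ) (n : ℤ), Complex.exp l = (a : ℂ) - b →
      Complex.exp (l + 2 * Real.pi * Complex.I * n) = (a : ℂ) - b := by
    intro a b l n h
    rw [← h, Complex.exp_eq_exp_iff_exists_int]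
    exact ⟨n, by ring⟩
  let L : S.F (base k) → S.F (base k) → ℂ → ℂ → ℂ := fun a b u v =>
    if h : a = b then 0 else
      (Y (lgPt S a b (Complex.log ((a : ℂ) - b)) (exp_log_sub S a b h)) u v).2.2
  have hL : ∀ a b (h : a ≠ b) u v, L a b u v =
      (Y (lgPt S a b (Complex.log ((a : ℂ) - b)) (exp_log_sub S a b h)) u v).2.2 :=
    fun a b h u v => dif_neg h
  have hprod : ∀ u ∈ Hl, ∀ v ∈ Hl, (u, v) ∈ Hl ×ˢ Hl := fun u hu v hv => ⟨hu, hv⟩
  have hXF := hX.mem
  refine ⟨X, L, ?_⟩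
  constructor
  · -- holu
    intro a v hv
    refine fo_hol S hhol Hl fo_open (fun u => cn k i j u v) ?_ (fun u hu => cn_conf i j hij hj u v hu hv)
      (fun u => X a u v) ?_ (fun u hu => hXF a u hu v hv)
    · have h1 := cn_diff k i j
      have h2 : Differentiable ℂ (fun u : ℂ => (u, v)) := differentiable_id.prodMk (differentiable_const v)
      exact (h1.comp h2).differentiableOn
    · have h2 : ContinuousOn (fun u : ℂ => (u, v)) Hl := by fun_prop
      exact (hX.cont a).comp h2 fun u hu => hprod u hu v hv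
  · -- holv
    intro a u hu
    refine fo_hol S hhol Hl fo_open (fun v => cn k i j u v) ?_ (fun v hv => cn_conf i j hij hj u v hu hv)
      (fun v => X a u v) ?_ (fun v hv => hXF a u hu v hv)
    · have h1 := cn_diff k i j
      have h2 : Differentiable ℂ (fun v : ℂ => (u, v)) := (differentiable_const u).prodMk differentiable_id
      exact (h1.comp h2).differentiableOn
    · have h2 : ContinuousOn (fun v : ℂ => (u, v)) Hl := by fun_prop
      exact (hX.cont a).comp h2 fun v hv => hprod u hu v hv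
  · -- hold
    intro a p q hp hq
    refine fo_hol S hhol Hl fo_open (fun z => cn k i j (p * z) (q * z)) ?_
      (fun z hz => cn_conf i j hij hj _ _ (fo_mul z hz p hp) (fo_mul z hz q hq))
      (fun z => X a (p * z) (q * z)) ?_
      (fun z hz => hXF a _ (fo_mul z hz p hp) _ (fo_mul z hz q hq))
    · have h1 := cn_diff k i j
      have h2 : Differentiable ℂ (fun z : ℂ => ((p : ℂ) * z, (q : ℂ) * z)) := by fun_prop
      exact (h1.comp h2).differentiableOn
    · have h2 : ContinuousOn (fun z : ℂ => ((p : ℂ) * z, (q : ℂ) * z)) Hl := by fun_prop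
      exact (hX.cont a).comp h2 fun z hz => hprod _ (fo_mul z hz p hp) _ (fo_mul z hz q hq)
  · -- cont
    intro a b hab
    have h1 := hY.cont (lgPt S a b (Complex.log ((a : ℂ) - b)) (exp_log_sub S a b hab))
    have h2 : ContinuousOn (fun z : ℂ × ℂ =>
        (Y (lgPt S a b (Complex.log ((a : ℂ) - b)) (exp_log_sub S a b hab)) z.1 z.2).2.2) (Hl ×ˢ Hl) :=
      (continuous_snd.comp continuous_snd).comp_continuousOn h1
    exact h2.congr fun z _ => hL a b hab z.1 z.2
  · -- exp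
    intro a b hab u hu v hv
    rw [hL a b hab]
    have h1 := (hY.mem (lgPt S a b (Complex.log ((a : ℂ) - b)) (exp_log_sub S a b hab)) u hu v hv).2.2
    rw [h1, hfst _ u hu v hv, hsnd _ u hu v hv]
    rfl
  · -- tru
    intro a u hu v hv
    exact fam_tru S i j hij hj X hX a u v hu hv
  · -- trv
    intro a u hu v hv
    exact fam_trv S i j hij hj X hX a u v hu hv
  · -- pu
    intro a
    rw [per_pow]
    rfl
  · -- pv
    intro a
    rw [per_pow]
    rfl
  · -- Ltru
    intro a b hab u hu v hv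
    rw [hL a b hab, hL a b hab, fo_tru (lgSys S) i j hij hj Y hY _ _ u v hu hv,
      hper i hi a b _ _ (hexp a b _ _ (exp_log_sub S a b hab)),
      fo_shift S i j hij hj Y hY a b _ _ _ _ u v hu hv]
  · -- Ltrv
    intro a b hab u hu v hv
    rw [hL a b hab, hL a b hab, fo_trv (lgSys S) i j hij hj Y hY _ _ u v hu hv,
      hper j hj a b _ _ (hexp a b _ _ (exp_log_sub S a b hab)),
      fo_shift S i j hij hj Y hY a b _ _ _ _ u v hu hv]
  · -- inv00
    intro a b _
    exact wn_comm (wg S i) (wg S i) rfl a b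
  · -- inv02
    intro a b _
    exact wn_comm (wg S j) (wg S i) hcomm.symm a b
  · -- inv20
    intro a b _
    exact wn_comm (wg S i) (wg S j) hcomm a b
  · -- inv22
    intro a b _
    exact wn_comm (wg S j) (wg S j) rfl a b
  · -- sym0
    intro a b _
    exact hgi.wn_sym he a b
  · -- sym2
    intro a b _
    exact hgj.wn_sym he a b

end Pool.Agent.Helper96.LN3
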