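import Pool.Agent.Helper96.LN3.LinkA3
import Pool.Agent.Helper96.LN3.LogSys
import Pool.Agent.Helper2.LN.RotAB
import Pool.Agent.Helper2.LN.Rigid

/-!
# LN3-R2 (MP_730da0_ag): the cocycle of the rotation `A`

Paper proof.  `H`, `ρ`, `t₀` from `linkA3`.  For every system `S'` and `φ ∈ S'.F (base k)` let `X_φ : C(ℝ × ℝ, W)` be the section of `S'` over `H` with `X_φ (1, t₀) = val φ (H (1, t₀))` (`S'.lift`), `Φ_φ t = X_φ (0, t)`.
As in `Sys.link_abs`: `Φ_φ (t + 1) = Φ_(A φ) t`.  Apply this to `S` and to `lgSys S`.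
`lgSys.A (a, b, l) = (A a, A b, l + d_A(a,b))`, where `d_A` is the cocycle of the product of the `wg S i` (induction over the list, `lg_act`).
By `uniq` and `val_map`: `Φ_(a,b,l) t = (Φ_a t, Φ_b t, λ_(a,b,l) t)`, `λ_(a,b,l + 2πi n) = λ_(a,b,l) + 2πi n`.
`rotA_eq`: `rotA k t = exp (2πi t/k) • rotA k 0`.  `rigid` with `q = rotA k 0`: `Φ_a t = y (2πi t/k) Φ_a 0` (the section over `ℂ` through `Φ_a 0`: `S.lift ℂ`, restricted to the line; `S.uniq`), so
`exp (λ_φ t) = y (2πi t/k) exp (λ_φ 0)`; let `Y` be the continuous logarithm of `t ↦ y (2πi t/k)` with `Y 0 = 0` (`exp_lift`); `λ_φ t = λ_φ 0 + Y t` (`exp_uniq`).  So with `G φ = λ_φ 0`, `κ = Y 1`: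
`G (A φ) = λ_φ 1 = G φ + κ`.  `η (a,b) = G (a,b,l) - l` (any `l` with `exp l = a - b`; e.g. `l = log (a - b)`; independent of `l`):
`η (A a, A b) + l + d_A(a,b) = G (A (a,b,l)) = G (a,b,l) + κ = η (a,b) + l + κ`.
-/

namespace Pool.Agent.Helper96.LN3

open Pool.Agent.Helper2.LN

variable {k : ℕ}

private theorem rc_step {W : Type} [TopologicalSpace W] (S : Sys k W) (H : ℝ × ℝ → (Fin k → ℂ))
    (hH : Continuous H) (hC : ∀ x, H x ∈ Conf k)
    (ρ : Equiv.Perm (Fin k)) (hper : ∀ u t, H (u, t + 1) = H (u, t) ∘ ρ) (t₀ : ℝ)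
    (φ : S.F (base k))
    (hg : ∀ s : C(ℝ, W), (∀ t, s t ∈ S.F (H (1, t))) → s t₀ = S.val φ (H (1, t₀)) →
      s (t₀ + 1) = S.val (S.A φ) (H (1, t₀)))
    (L L' : C(ℝ × ℝ, W)) (hL : ∀ a, L a ∈ S.F (H a)) (hL' : ∀ a, L' a ∈ S.F (H a))
    (h0 : L (1, t₀) = S.val φ (H (1, t₀))) (h0' : L' (1, t₀) = S.val (S.A φ) (H (1, t₀)))
    (u t : ℝ) : L (u, t + 1) = L' (u, t) := by
  let sh : C(ℝ × ℝ, ℝ × ℝ) := ⟨fun x => (x.1, x.2 + 1), by fun_prop⟩
  let ln : C(ℝ, ℝ × ℝ) := ⟨fun t => (1, t), by fun_prop⟩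
  have hM : ∀ a, (L.comp sh) a ∈ S.F (H a) := by
    rintro ⟨u, t⟩
    have h1 := hL (u, t + 1)
    have h2 : S.F (H (u, t + 1)) = S.F (H (u, t)) := by rw [hper, S.perm]
    rw [← h2]
    exact h1
  have h1 : L.comp sh = L' := by
    refine S.uniq (ℝ × ℝ) ⟨H, hH⟩ hC _ _ hM hL' ⟨(1, t₀), ?_⟩
    rw [h0']
    exact hg (L.comp ln) (fun t => hL (1, t)) h0
  exact congrArg (fun f : C(ℝ × ℝ, W) => f (u, t)) h1

private theorem rc_s (S : Sys k ℂ) (i : ℕ) (hi : i + 1 < k) (a b : S.F (base k)) (l : ℂ)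
    (h : Complex.exp l = (a : ℂ) - b) :
    ∃ h' : Complex.exp (l + (wg S i).d a b) = ((S.s i a : S.F (base k)) : ℂ) - (S.s i b : S.F (base k)),
      (lgSys S).s i (lgPt S a b l h) = lgPt S (S.s i a) (S.s i b) (l + (wg S i).d a b) h' := by
  have h1 := lg_act S i hi a b l h
  have h2 : Complex.exp ((lgSys S).s i (lgPt S a b l h) : ℂ × ℂ × ℂ).2.2 =
      ((lgSys S).s i (lgPt S a b l h) : ℂ × ℂ × ℂ).1 -
        ((lgSys S).s i (lgPt S a b l h) : ℂ × ℂ × ℂ).2.1 :=
    ((lgSys S).s i (lgPt S a b l h)).2.2.2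
  rw [h1] at h2
  exact ⟨h2, Subtype.ext h1⟩

private theorem rc_p (S : Sys k ℂ) (l : List ℕ) : ((l.map (wg S)).prod).p = (l.map S.s).prod := by
  induction l with
  | nil => rfl
  | cons i l ih =>
    rw [List.map_cons, List.prod_cons, List.map_cons, List.prod_cons, WG.mul_p, ih]
    rfl

private theorem rc_list (S : Sys k ℂ) (a b : S.F (base k)) (x : ℂ)
    (h : Complex.exp x = (a : ℂ) - b) (l : List ℕ) (hl : ∀ i ∈ l, i + 1 < k) :
    ∃ h' : Complex.exp (x + ((l.map (wg S)).prod).d a b) =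
        (((l.map S.s).prod a : S.F (base k)) : ℂ) - ((l.map S.s).prod b : S.F (base k)),
      (l.map (lgSys S).s).prod (lgPt S a b x h) =
        lgPt S ((l.map S.s).prod a) ((l.map S.s).prod b) (x + ((l.map (wg S)).prod).d a b) h' := by
  induction l with
  | nil =>
    have e : x + (((([] : List ℕ).map (wg S)).prod).d a b) = x := add_zero x
    refine ⟨e.symm ▸ h, Subtype.ext (Prod.ext rfl (Prod.ext rfl e.symm))⟩
  | cons i l ih =>
    obtain ⟨h1, h2⟩ := ih (fun j hj => hl j (List.mem_cons_of_mem _ hj))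
    obtain ⟨h3, h4⟩ := rc_s S i (hl i List.mem_cons_self) _ _ _ h1
    have e : x + ((((i :: l).map (wg S)).prod).d a b) = x + ((l.map (wg S)).prod).d a b +
        (wg S i).d ((l.map S.s).prod a) ((l.map S.s).prod b) := by
      rw [List.map_cons, List.prod_cons, WG.mul_d, rc_p]
      ring
    have e2 : ((((i :: l).map (lgSys S).s).prod) (lgPt S a b x h)) =
        lgPt S (S.s i ((l.map S.s).prod a)) (S.s i ((l.map S.s).prod b)) _ h3 := by
      rw [List.map_cons, List.prod_cons, Equiv.Perm.mul_apply, h2, h4]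
    refine ⟨?_, ?_⟩
    · rw [e]
      exact h3
    · rw [e2]
      exact Subtype.ext (Prod.ext rfl (Prod.ext rfl e.symm))

private theorem rc_ne (S : Sys k ℂ) (a b : S.F (base k)) (l : ℂ)
    (h : Complex.exp l = (a : ℂ) - b) : a ≠ b := by
  intro h1
  rw [h1, sub_self] at h
  exact Complex.exp_ne_zero _ h

theorem rot_coc {k n : ℕ} (hk : 4 ≤ k) (hn : 3 ≤ n) (f : C(G0 k, G0 n)) (hf : Holo f)
    (S : Sys k ℂ) (hS : S.F = rootF f) :
    ∃ (κ : ℂ) (η : S.F (base k) → S.F (base k) → ℂ), ∀ a b, a ≠ b →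
      (((List.range (k - 1)).map (wg S)).prod).d a b = κ + η a b -
        η ((((List.range (k - 1)).map (wg S)).prod).p a) ((((List.range (k - 1)).map (wg S)).prod).p b) := by
  classical
  obtain ⟨H, ρ, t₀, hH, hC, hrot, hper, hGen, hlink⟩ := linkA3 k (by omega)
  -- sections of `S` over the plane
  have hlift := fun w : S.F (base k) => S.lift (ℝ × ℝ) ⟨H, hH⟩ hC (1, t₀) (S.val w (H (1, t₀)))
    (S.val_mem w _ hGen)
  choose L hL0 hLF using hlift
  -- sections of `lgSys S` over the plane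
  have hliftM := fun w : (lgSys S).F (base k) =>
    (lgSys S).lift (ℝ × ℝ) ⟨H, hH⟩ hC (1, t₀) ((lgSys S).val w (H (1, t₀)))
      ((lgSys S).val_mem w _ hGen)
  choose M hM0 hMF using hliftM
  -- the components
  have hM1 : ∀ (a b : S.F (base k)) (l : ℂ) (h : Complex.exp l = (a : ℂ) - b) (x : ℝ × ℝ),
      (M (lgPt S a b l h) x).1 = L a x := by
    intro a b l h x
    let g : C(ℝ × ℝ, ℂ) := ⟨fun x => (M (lgPt S a b l h) x).1,
      continuous_fst.comp (M (lgPt S a b l h)).continuous⟩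
    have h1 : g = L a := by
      refine S.uniq (ℝ × ℝ) ⟨H, hH⟩ hC _ _ (fun x => (hMF (lgPt S a b l h) x).1) (hLF a)
        ⟨(1, t₀), ?_⟩
      show (M (lgPt S a b l h) (1, t₀)).1 = L a (1, t₀)
      rw [hM0, hL0]
      exact val_map (lgSys S) S Prod.fst continuous_fst (fun q _ w hw => hw.1)
        (lgPt S a b l h) _ hGen
    exact congrArg (fun f : C(ℝ × ℝ, ℂ) => f x) h1
  have hM2 : ∀ (a b : S.F (base k)) (l : ℂ) (h : Complex.exp l = (a : ℂ) - b) (x : ℝ × ℝ),
      (M (lgPt S a b l h) x).2.1 = L b x := by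
    intro a b l h x
    let g : C(ℝ × ℝ, ℂ) := ⟨fun x => (M (lgPt S a b l h) x).2.1,
      continuous_fst.comp (continuous_snd.comp (M (lgPt S a b l h)).continuous)⟩
    have h1 : g = L b := by
      refine S.uniq (ℝ × ℝ) ⟨H, hH⟩ hC _ _ (fun x => (hMF (lgPt S a b l h) x).2.1) (hLF b)
        ⟨(1, t₀), ?_⟩
      show (M (lgPt S a b l h) (1, t₀)).2.1 = L b (1, t₀)
      rw [hM0, hL0]
      exact val_map (lgSys S) S (fun w : ℂ × ℂ × ℂ => w.2.1)
        (continuous_fst.comp continuous_snd) (fun q _ w hw => hw.2.1)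
        (lgPt S a b l h) _ hGen
    exact congrArg (fun f : C(ℝ × ℝ, ℂ) => f x) h1
  -- the shift
  have hM3 : ∀ (a b : S.F (base k)) (l l' : ℂ) (h : Complex.exp l = (a : ℂ) - b)
      (h' : Complex.exp l' = (a : ℂ) - b) (x : ℝ × ℝ),
      (M (lgPt S a b l' h') x).2.2 = (M (lgPt S a b l h) x).2.2 + (l' - l) := by
    intro a b l l' h h' x
    obtain ⟨n, hn⟩ := Complex.exp_eq_exp_iff_exists_int.1 (h'.trans h.symm)
    have hsh : ∀ (q : Fin k → ℂ), q ∈ Conf k → ∀ w ∈ (lgSys S).F q,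
        ((fun w : ℂ × ℂ × ℂ => (w.1, w.2.1, w.2.2 + n * (2 * Real.pi * Complex.I))) w) ∈
          (lgSys S).F q := fun q _ w hw => ⟨hw.1, hw.2.1, by
        show Complex.exp (w.2.2 + n * (2 * Real.pi * Complex.I)) = w.1 - w.2.1
        rw [Complex.exp_add, Complex.exp_int_mul_two_pi_mul_I, mul_one]
        exact hw.2.2⟩
    let g : C(ℝ × ℝ, ℂ × ℂ × ℂ) :=
      ⟨fun x => ((M (lgPt S a b l h) x).1, (M (lgPt S a b l h) x).2.1,
        (M (lgPt S a b l h) x).2.2 + n * (2 * Real.pi * Complex.I)),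
        (show Continuous (fun w : ℂ × ℂ × ℂ =>
          (w.1, w.2.1, w.2.2 + n * (2 * Real.pi * Complex.I))) by fun_prop).comp
          (M (lgPt S a b l h)).continuous⟩
    have h1 : M (lgPt S a b l' h') = g := by
      refine (lgSys S).uniq (ℝ × ℝ) ⟨H, hH⟩ hC _ _ (hMF _)
        (fun x => hsh _ (hC x) _ (hMF (lgPt S a b l h) x)) ⟨(1, t₀), ?_⟩
      rw [hM0]
      show _ = (fun w : ℂ × ℂ × ℂ => (w.1, w.2.1, w.2.2 + n * (2 * Real.pi * Complex.I)))
        (M (lgPt S a b l h) (1, t₀))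
      rw [hM0]
      have h2 := val_map (lgSys S) (lgSys S)
        (fun w : ℂ × ℂ × ℂ => (w.1, w.2.1, w.2.2 + n * (2 * Real.pi * Complex.I)))
        (by fun_prop) hsh (lgPt S a b l h) _ hGen
      refine Eq.trans ?_ h2.symm
      congr 1
      refine Subtype.ext (Prod.ext rfl (Prod.ext rfl ?_))
      show l' = l + n * (2 * Real.pi * Complex.I)
      exact hn
    rw [h1]
    show (M (lgPt S a b l h) x).2.2 + n * (2 * Real.pi * Complex.I) = _
    rw [hn]
    ring
  -- rigidity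
  obtain ⟨y, hyc, hy0, hy1, hyX⟩ := rigid (by omega) hn f hf (rotA k 0) (rotA_mem k 0)
  have hconf : ∀ s : ℂ, (fun i => Complex.exp s * rotA k 0 i) ∈ Conf k := by
    intro s i j hij
    exact rotA_mem k 0 (mul_left_cancel₀ (Complex.exp_ne_zero s) hij)
  have hLy : ∀ (a : S.F (base k)) (t : ℝ),
      L a (0, t) = y (2 * Real.pi * Complex.I / k * t) * L a (0, 0) := by
    intro a t
    have hF : ∀ t : ℝ, L a (0, t) ∈
        rootF f (fun i => Complex.exp (2 * Real.pi * Complex.I / k * t) * rotA k 0 i) := by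
      intro t
      have h1 := hLF a (0, t)
      have h2 : (⟨H, hH⟩ : C(ℝ × ℝ, Fin k → ℂ)) (0, t) = rotA k t := hrot t
      rw [h2, rotA_eq, hS] at h1
      exact h1
    have h0 : L a (0, 0) ∈ rootF f (fun i => Complex.exp 0 * rotA k 0 i) := by
      have h1 := hF 0
      rwa [Complex.ofReal_zero, mul_zero] at h1
    obtain ⟨X, hX0, hX⟩ := rootF_lift (by omega) (by omega) f ℂ
      ⟨fun s i => Complex.exp s * rotA k 0 i, by fun_prop⟩ (fun s => hconf s) 0 (L a (0, 0)) h0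
    have h2 := hyX X X.continuous hX
    have hcts : Continuous fun t : ℝ => 2 * Real.pi * Complex.I / k * (t : ℂ) := by fun_prop
    have hcL : Continuous fun t : ℝ => L a (0, t) :=
      (L a).continuous.comp (continuous_const.prodMk continuous_id)
    have h3 := rootF_uniq (by omega) (by omega) f ℝ
      ⟨fun t i => Complex.exp (2 * Real.pi * Complex.I / k * t) * rotA k 0 i, by fun_prop⟩
      (fun t => hconf _)
      ⟨fun t => L a (0, t), hcL⟩
      ⟨fun t => X (2 * Real.pi * Complex.I / k * t), X.continuous.comp hcts⟩ hF (fun t => hX _)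
      ⟨0, by
        change L a (0, 0) = X (2 * Real.pi * Complex.I / k * ((0 : ℝ) : ℂ))
        rw [Complex.ofReal_zero, mul_zero, hX0]⟩
    have h4 : L a (0, t) = X (2 * Real.pi * Complex.I / k * t) :=
      congrArg (fun F : C(ℝ, ℂ) => F t) h3
    rw [h4, h2, hX0]
  -- the logarithm of `y`
  let yc : C(ℝ, ℂ) := ⟨fun t => y (2 * Real.pi * Complex.I / k * t), hyc.comp (by fun_prop)⟩
  obtain ⟨Y, hY0, hY⟩ := exp_lift ℝ yc (fun t => hy0 _) 0 0 (by
    show Complex.exp 0 = y (2 * Real.pi * Complex.I / k * ((0 : ℝ) : ℂ))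
    rw [Complex.ofReal_zero, mul_zero, hy1, Complex.exp_zero])
  have hMY : ∀ (a b : S.F (base k)) (l : ℂ) (h : Complex.exp l = (a : ℂ) - b) (t : ℝ),
      (M (lgPt S a b l h) (0, t)).2.2 = (M (lgPt S a b l h) (0, 0)).2.2 + Y t := by
    intro a b l h t
    have hc3 : Continuous fun t : ℝ => (M (lgPt S a b l h) (0, t)).2.2 :=
      continuous_snd.comp (continuous_snd.comp ((M (lgPt S a b l h)).continuous.comp
        (continuous_const.prodMk continuous_id)))
    have hcL : ∀ a, Continuous fun t : ℝ => L a (0, t) := fun a =>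
      (L a).continuous.comp (continuous_const.prodMk continuous_id)
    have hexp : ∀ x : ℝ × ℝ, Complex.exp (M (lgPt S a b l h) x).2.2 = L a x - L b x := by
      intro x
      have h1 : Complex.exp (M (lgPt S a b l h) x).2.2 =
        (M (lgPt S a b l h) x).1 - (M (lgPt S a b l h) x).2.1 := (hMF (lgPt S a b l h) x).2.2
      rw [h1, hM1, hM2]
    have h1 := exp_uniq ℝ ⟨fun t => L a (0, t) - L b (0, t), (hcL a).sub (hcL b)⟩
      ⟨fun t => (M (lgPt S a b l h) (0, t)).2.2, hc3⟩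
      ⟨fun t => (M (lgPt S a b l h) (0, 0)).2.2 + Y t, continuous_const.add Y.continuous⟩
      (fun t => hexp (0, t)) (fun t => by
        show Complex.exp ((M (lgPt S a b l h) (0, 0)).2.2 + Y t) = L a (0, t) - L b (0, t)
        have h2 : Complex.exp (Y t) = y (2 * Real.pi * Complex.I / k * t) := hY t
        rw [Complex.exp_add, hexp, h2, hLy a t, hLy b t]
        ring)
      ⟨0, by
        show (M (lgPt S a b l h) (0, 0)).2.2 = (M (lgPt S a b l h) (0, 0)).2.2 + Y 0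
        rw [hY0, add_zero]⟩
    exact congrArg (fun F : C(ℝ, ℂ) => F t) h1
  refine ⟨Y 1, fun a b => if h : a = b then 0 else
    (M (lgPt S a b (Complex.log ((a : ℂ) - b)) (exp_log_sub S a b h)) (0, 0)).2.2 -
      Complex.log ((a : ℂ) - b), fun a b hab => ?_⟩
  have hη : ∀ (a b : S.F (base k)) (l : ℂ) (h : Complex.exp l = (a : ℂ) - b),
      (if h : a = b then 0 else
        (M (lgPt S a b (Complex.log ((a : ℂ) - b)) (exp_log_sub S a b h)) (0, 0)).2.2 -
          Complex.log ((a : ℂ) - b)) = (M (lgPt S a b l h) (0, 0)).2.2 - l := by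
    intro a b l h
    have hne := rc_ne S a b l h
    rw [dif_neg hne, hM3 a b l _ h (exp_log_sub S a b hne) (0, 0)]
    ring
  have h0 := exp_log_sub S a b hab
  obtain ⟨h1, h2⟩ := rc_list S a b _ h0 (List.range (k - 1)) (fun i hi => by
    have := List.mem_range.1 hi
    omega)
  have h3 : (lgSys S).A (lgPt S a b _ h0) = lgPt S _ _ _ h1 := h2
  have h4 := rc_step (lgSys S) H hH hC ρ hper t₀ (lgPt S a b _ h0)
    (hlink _ (lgSys S) (lgPt S a b _ h0)) (M _) (M ((lgSys S).A (lgPt S a b _ h0)))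
    (hMF _) (hMF _) (hM0 _) (hM0 _) 0 0
  rw [h3, zero_add] at h4
  have h5 := congrArg (fun w : ℂ × ℂ × ℂ => w.2.2) h4
  have h6 : (M (lgPt S a b _ h0) (0, 1)).2.2 = (M (lgPt S _ _ _ h1) (0, 0)).2.2 := h5
  rw [hMY a b _ h0 1] at h6
  rw [rc_p]
  beta_reduce
  rw [hη a b _ h0, hη _ _ _ h1]
  linear_combination -h6

end Pool.Agent.Helper96.LN3
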