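import Pool.Agent.Helper96.LN3.CaseOne
import Pool.Agent.Helper96.LN3.CaseTwo
import Pool.Agent.Helper96.LN3.CornB
import Pool.Agent.Helper96.LN3.FamOf
import Pool.Agent.Helper96.LN3.RotCoc
import Pool.Agent.Helper93.L2.Main

/-!
# LN3-M (MP_730da0_ag): assembly

`k > 4`, `n > k`, `k (k-1)` does not divide `n`: every holomorphic map `G_k^0 → G_n^0` is splittable.
-/

namespace Pool.Agent.Helper96.LN3

open Pool.Agent.Helper2.LN Pool.Agent.Helper93.L2 Pool.Agent.Helper93.LN

theorem exists_corner {k : ℕ} (S : Sys k ℂ) (hhol : HolSys S) [Finite (S.F (base k))] (i j : ℕ)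
    (hij : i + 2 ≤ j) (hj : j + 1 < k) : ∃ x, Corner (wg S i) (wg S j) x := by
  have he : Function.Injective (fun a : S.F (base k) => (a : ℂ)) := Subtype.val_injective
  obtain ⟨W, L, h⟩ := exists_Fam S hhol i j hij hj
  exact ⟨_, corner_of_fam (wg S i) (wg S j) (wg_comm S i j hij hj)
    (fun a b _ => (wg_good S i (by omega)).wd_eq he a b) (fun a b _ => (wg_good S j hj).wd_eq he a b)
    (fun a b => (wg_good S i (by omega)).wn_sym he a b) (fun a b => (wg_good S j hj).wn_sym he a b) W L h⟩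

theorem three_classes {k n : ℕ} (hk : 4 < k) (hkn : k < n) (hmod : ¬ k * (k - 1) ∣ n)
    (f : C(G0 k, G0 n)) (hf : Holo f) : Splittable f := by
  have hn2 : 2 ≤ n := by omega
  have hk2 : 2 ≤ k := by omega
  have hbase : base k ∈ Conf k := base_mem k
  obtain ⟨F, hF, hfF⟩ := hf
  have hf : Holo f := ⟨F, hF, hfF⟩
  have hSF : (rootSys hk2 hn2 f).F = rootF f := rfl
  obtain ⟨hcard, hfin⟩ := rootF_card hk2 hn2 f (base k) hbase
  rw [← hSF] at hcard hfin
  set S := rootSys hk2 hn2 f with hS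
  have hhol : HolSys S := rootSys_hol hk2 hn2 f hf
  have fin_end : (∀ i, i + 1 < k → S.s i = S.s 0) → Splittable f := by
    intro hs
    obtain ⟨R⟩ := exists_rootSec_of_eq hk (by omega) f F hfF _ hSF hs
    have hne : (Ghat k).Nonempty :=
      ⟨_, Ghat_of_Y hk2 (base k, Complex.log (Dsc (base k)))
        ⟨hbase, Complex.exp_log ((Dsc_ne_zero _).2 hbase)⟩⟩
    exact splittable_of_rootSec hk2 (by omega) hne (Ghat_preconnected hk2) (logProp hk) f hF hfF R
  by_contra hcon
  have hne : ¬ ∀ i, i + 1 < k → S.s i = S.s 0 := fun h => hcon (fin_end h)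
  have hc : ∀ i j, i + 2 ≤ j → j + 1 < k → wg S i * wg S j = wg S j * wg S i :=
    fun i j hij hj => wg_comm S i j hij hj
  have hb : ∀ i, i + 2 < k → wg S i * wg S (i + 1) * wg S i = wg S (i + 1) * wg S i * wg S (i + 1) :=
    fun i hi => wg_braid S i hi
  have hcor : ∀ i j, i + 2 ≤ j → j + 1 < k → ∃ x, Corner (wg S i) (wg S j) x :=
    fun i j hij hj => exists_corner S hhol i j hij hj
  have rotA := rot_A (by omega : 4 ≤ k) (by omega : 3 ≤ n) f hf S hSF
  have rotB := rot_B (by omega : 4 ≤ k) (by omega : 3 ≤ n) f hf S hSF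
  have oA := ordA k hk S.s (fun i j hij hj => S.s_comm i j hij hj) (fun i hi => S.s_braid i hi) hne
  have oB := ordB k hk S.s (fun i j hij hj => S.s_comm i j hij hj) (fun i hi => S.s_braid i hi) hne
  have mA : k ∣ n ∨ n ≡ 1 [MOD k] := by
    obtain ⟨c, h1, ζ, h2⟩ := rotA
    have := rot_mod S.A c h1 ζ h2 k (by omega) oA
    rwa [hcard] at this
  have mB : (k - 1) ∣ n ∨ n ≡ 1 [MOD (k - 1)] := by
    obtain ⟨c, h1, ζ, h2⟩ := rotB
    have := rot_mod S.B c h1 ζ h2 (k - 1) (by omega) oB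
    rwa [hcard] at this
  rcases mA with mA | mA
  · rcases mB with mB | mB
    · refine hmod (Nat.Coprime.mul_dvd_of_dvd_of_dvd ?_ mA mB)
      rw [Nat.coprime_self_sub_right (by omega : 1 ≤ k)]
      exact Nat.coprime_one_right k
    · rcases case_two k hk (wg S) hc hb hcor (by rw [hcard]; exact mA) (by rw [hcard]; exact mB)
        (by rw [hcard]; omega) rotA rotB with h | ⟨p, hp1, hp2⟩
      · exact hne h
      · have := card_le_of_point hk hn2 f S hSF hhol p hp1 hp2
        omega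
  · exact hne (case_one k hk (wg S) hc hb hcor (by rw [hcard]; exact mA) (by rw [hcard]; omega) rotA
      (rot_coc (by omega) (by omega) f hf S hSF))

end Pool.Agent.Helper96.LN3
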