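import Pool.Agent.Helper2.LN.Prod
import Pool.Agent.Helper2.LN.BraidRel

/-!
# LN3-L0 (MP_730da0_ag): maps of systems

Paper proof: as `val_prod`, `s_prod` in Helper2/LN/Prod.lean (`T_map`, `crossProp_s`, `exists_cross`, `val_inj`).
-/

namespace Pool.Agent.Helper96.LN3

open Pool.Agent.Helper2.LN

variable {k : ℕ} {W W' : Type} [TopologicalSpace W] [TopologicalSpace W']

theorem base_mem (k : ℕ) : base k ∈ Conf k := Gen_subset_Conf k (Ord_subset_Gen k (base_mem_Ord k))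

theorem val_map (S : Sys k W) (S' : Sys k W') (p : W → W') (hp : Continuous p)
    (hF : ∀ q ∈ Conf k, ∀ w ∈ S.F q, p w ∈ S'.F q) (φ : S.F (base k)) (q : Fin k → ℂ) (hq : q ∈ Gen k) :
    p (S.val φ q) = S'.val ⟨p φ, hF _ (base_mem k) _ φ.2⟩ q := by
  have hseg : segment ℝ (base k) (srt q) ⊆ Conf k :=
    ((convex_Ord k).segment_subset (base_mem_Ord k) (srt_mem q hq)).trans
      ((Ord_subset_Gen k).trans (Gen_subset_Conf k))
  exact S.T_map S' p hp hF (base k) (srt q) hseg φ φ.2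

theorem s_map (S : Sys k W) (S' : Sys k W') (p : W → W') (hp : Continuous p)
    (hF : ∀ q ∈ Conf k, ∀ w ∈ S.F q, p w ∈ S'.F q) (i : ℕ) (hi : i + 1 < k) (φ : S.F (base k)) :
    p (S.s i φ) = S'.s i ⟨p φ, hF _ (base_mem k) _ φ.2⟩ := by
  obtain ⟨a, c, l, m, h, hq, ho⟩ := exists_cross (k := k) i hi
  have hseg := segment_cross a c l m h
  have h1 := S.crossProp_s i hi a c l m h hq φ
  have h2 := S'.crossProp_s i hi a c l m h hq ⟨p φ, hF _ (base_mem k) _ φ.2⟩
  have h3 : p (S.T a c (S.val φ a)) = S'.T a c (p (S.val φ a)) :=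
    S.T_map S' p hp hF a c hseg _ (S.val_mem φ a h.gena)
  rw [h1, val_map S S' p hp hF _ c h.genc, val_map S S' p hp hF φ a h.gena, h2] at h3
  exact congrArg Subtype.val (S'.val_inj _ _ c h.genc h3)

end Pool.Agent.Helper96.LN3
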