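import Pool.Agent.Helper96.LN3.Vert
import Pool.Agent.Helper2.LN2.Punct

/-!
# LN3-L8 (MP_730da0_ag): the limit in one variable

Paper proof.  `u` has period `Mπi`, so `v(ζ) = u ((M/2) log ζ)`, `0 < |ζ| < 1`, is well defined and holomorphic (locally `log` can be any branch; e.g. `Function.Periodic.cuspFunction`, or directly: near `ζ₀` choose a branch), `v (e^(2z/M)) = u z`, and `v` omits `0`, `1`.
`punct` (`a = 0`, `r = 1`): `ζ v'(ζ)/v(ζ) = H(ζ)` with `H` holomorphic on the disc.  `l' z = u'(z)/u(z) = (2/M) H (e^(2z/M))`.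
`H ζ = H 0 + ζ K ζ` (`dslope`), `P` a primitive of `K` on the disc with `P 0 = 0`.  The function `l z - (2/M) H(0) z - P (e^(2z/M))` has derivative `0` on `Hl` (convex): it is a constant `c`.
Comparing `z` and `z + Mπi`: `2πi n = (2/M) H(0) Mπi`, so `H 0 = n`.  `P (e^(2z/M)) → P 0 = 0` as `Re z → -∞`.
-/

namespace Pool.Agent.Helper96.LN3

open Topology

private theorem isOpen_Hl : IsOpen Hl := isOpen_lt Complex.continuous_re continuous_const

private theorem isPreconnected_Hl : IsPreconnected Hl := by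
  have : Convex ℝ Hl := by
    intro x hx y hy a b ha hb hab
    have hx2 : x.re < 0 := hx
    have hy2 : y.re < 0 := hy
    show (a • x + b • y).re < 0
    simp only [Complex.add_re, Complex.real_smul, Complex.mul_re, Complex.ofReal_re, Complex.ofReal_im,
      zero_mul, sub_zero]
    rcases ha.eq_or_lt with h | h
    · have : b = 1 := by linarith
      rw [← h, this]
      linarith
    · nlinarith [mul_neg_of_pos_of_neg h hx2, mul_nonpos_of_nonneg_of_nonpos hb hy2.le]
  exact this.isPreconnected

theorem one_var (u l : ℂ → ℂ) (h : LogOn u l) (M : ℕ) (hM : 0 < M) (n : ℤ)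
    (hu : ∀ z ∈ Hl, u (z + M * (Real.pi * Complex.I)) = u z)
    (hl : ∀ z ∈ Hl, l (z + M * (Real.pi * Complex.I)) = l z + 2 * Real.pi * Complex.I * n) :
    ∃ c : ℂ, Filter.Tendsto (fun t : ℝ => l (-t) + 2 * n * t / M) Filter.atTop (nhds c) := by
  have hMC : (M : ℂ) ≠ 0 := by exact_mod_cast hM.ne'
  have hMR : (0 : ℝ) < M := by exact_mod_cast hM
  have hscale : ∀ s : ℂ, s ∈ Hl ↔ (M : ℂ) / 2 * s ∈ Hl := by
    intro s
    show s.re < 0 ↔ ((M : ℂ) / 2 * s).re < 0
    have : ((M : ℂ) / 2 * s).re = (M : ℝ) / 2 * s.re := by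
      have h2 : (M : ℂ) / 2 * s = (((M : ℝ) / 2 : ℝ) : ℂ) * s := by push_cast; ring
      rw [h2, Complex.re_ofReal_mul]
    rw [this]
    constructor
    · intro hs
      exact mul_neg_of_pos_of_neg (by positivity) hs
    · intro hs
      by_contra hcon
      push Not at hcon
      have : 0 ≤ (M : ℝ) / 2 * s.re := mul_nonneg (by positivity) hcon
      linarith
  -- the function with period `2 π i`
  set U : ℂ → ℂ := fun s => u ((M : ℂ) / 2 * s) with hU
  have hUper1 : ∀ s ∈ Hl, U (s + 2 * Real.pi * Complex.I) = U s := by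
    intro s hs
    have h2 := hu _ ((hscale s).1 hs)
    simp only [hU]
    rw [← h2]
    congr 1
    ring
  have hshift : ∀ s ∈ Hl, ∀ y : ℝ, s + y * Complex.I ∈ Hl := by
    intro s hs y
    show (s + y * Complex.I).re < 0
    have hs2 : s.re < 0 := hs
    simpa using hs2
  have hshift2 : ∀ s ∈ Hl, ∀ m : ℤ, s + m * (2 * Real.pi * Complex.I) ∈ Hl := by
    intro s hs m
    have h2 := hshift s hs (m * (2 * Real.pi))
    convert h2 using 1
    push_cast
    ring
  have hUperN : ∀ m : ℕ, ∀ s ∈ Hl, U (s + m * (2 * Real.pi * Complex.I)) = U s := by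
    intro m
    induction m with
    | zero => intro s _; simp
    | succ m ih =>
      intro s hs
      have h2 : s + (m : ℂ) * (2 * Real.pi * Complex.I) ∈ Hl := by
        have := hshift2 s hs m
        simpa using this
      rw [← ih s hs, ← hUper1 _ h2]
      congr 1
      push_cast
      ring
  have hUper : ∀ m : ℤ, ∀ s ∈ Hl, U (s + m * (2 * Real.pi * Complex.I)) = U s := by
    intro m s hs
    obtain ⟨N, hN | hN⟩ := m.eq_nat_or_neg
    · rw [hN]
      have := hUperN N s hs
      simpa using this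
    · have h2 := hUperN N _ (hshift2 s hs m)
      rw [← h2]
      congr 1
      rw [hN]
      push_cast
      ring
  have hUexp : ∀ s t : ℂ, s ∈ Hl → t ∈ Hl → Complex.exp s = Complex.exp t → U s = U t := by
    intro s t hs ht hst
    obtain ⟨m, hm⟩ := Complex.exp_eq_exp_iff_exists_int.1 hst
    rw [hm, hUper m t ht]
  have hUd : DifferentiableOn ℂ U Hl :=
    h.diff.comp (differentiableOn_id.const_mul _) fun s hs => (hscale s).1 hs
  -- the function on the punctured disc
  have hlogmem : ∀ x ∈ Metric.ball (0 : ℂ) 1 \ {0}, Complex.log x ∈ Hl := by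
    intro x hx
    show (Complex.log x).re < 0
    rw [Complex.log_re]
    refine Real.log_neg (norm_pos_iff.2 hx.2) ?_
    have := hx.1
    rwa [mem_ball_zero_iff] at this
  have hexpmem : ∀ s ∈ Hl, Complex.exp s ∈ Metric.ball (0 : ℂ) 1 \ {0} := by
    intro s hs
    refine ⟨?_, Complex.exp_ne_zero s⟩
    rw [mem_ball_zero_iff, Complex.norm_exp]
    rw [← Real.exp_zero]
    exact Real.exp_lt_exp.2 hs
  set v : ℂ → ℂ := fun x => U (Complex.log x) with hv
  have hvexp : ∀ s ∈ Hl, v (Complex.exp s) = U s := by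
    intro s hs
    refine hUexp _ _ (hlogmem _ (hexpmem s hs)) hs ?_
    rw [Complex.exp_log (Complex.exp_ne_zero s)]
  have hderiv : ∀ s ∈ Hl, HasDerivAt v (deriv U s * (Complex.exp s)⁻¹) (Complex.exp s) := by
    intro s hs
    have hx0 : Complex.exp s ≠ 0 := Complex.exp_ne_zero s
    -- the local branch
    have h1 : HasDerivAt (fun x : ℂ => Complex.log (x / Complex.exp s) + s) (Complex.exp s)⁻¹ (Complex.exp s) := by
      have h2 : HasDerivAt (fun x : ℂ => x / Complex.exp s) (Complex.exp s)⁻¹ (Complex.exp s) := by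
        have := (hasDerivAt_id (Complex.exp s)).div_const (Complex.exp s)
        simpa [one_div] using this
      have h3 : HasDerivAt (fun x : ℂ => Complex.log (x / Complex.exp s))
          ((Complex.exp s)⁻¹ / (Complex.exp s / Complex.exp s)) (Complex.exp s) := by
        refine h2.clog ?_
        rw [div_self hx0]
        exact Complex.one_mem_slitPlane
      rw [div_self hx0, div_one] at h3
      exact h3.add_const s
    have hg : (fun x : ℂ => Complex.log (x / Complex.exp s) + s) (Complex.exp s) = s := by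
      simp
    have hUs : HasDerivAt U (deriv U s) ((fun x : ℂ => Complex.log (x / Complex.exp s) + s) (Complex.exp s)) := by
      rw [hg]
      exact (hUd.differentiableAt (isOpen_Hl.mem_nhds hs)).hasDerivAt
    have hcomp := HasDerivAt.comp (Complex.exp s) hUs h1
    refine hcomp.congr_of_eventuallyEq ?_
    have hc : ContinuousAt (fun x : ℂ => Complex.log (x / Complex.exp s) + s) (Complex.exp s) :=
      h1.continuousAt
    have hev : ∀ᶠ x in 𝓝 (Complex.exp s), (fun x : ℂ => Complex.log (x / Complex.exp s) + s) x ∈ Hl := by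
      refine hc.eventually (isOpen_Hl.mem_nhds ?_)
      rw [hg]
      exact hs
    have hev2 : ∀ᶠ x in 𝓝 (Complex.exp s), x ∈ Metric.ball (0 : ℂ) 1 \ {0} :=
      (Metric.isOpen_ball.sdiff isClosed_singleton).mem_nhds (hexpmem s hs)
    filter_upwards [hev, hev2] with x hx1 hx2
    show U (Complex.log x) = U (Complex.log (x / Complex.exp s) + s)
    refine hUexp _ _ (hlogmem x hx2) hx1 ?_
    have hxne : x ≠ 0 := hx2.2
    rw [Complex.exp_log hxne, Complex.exp_add, Complex.exp_log (div_ne_zero hxne hx0), div_mul_cancel₀ _ hx0]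
  have hlogexp : ∀ x ∈ Metric.ball (0 : ℂ) 1 \ {0}, Complex.exp (Complex.log x) = x :=
    fun x hx => Complex.exp_log hx.2
  have hvd : DifferentiableOn ℂ v (Metric.ball 0 1 \ {0}) := by
    intro x hx
    have h2 := hderiv _ (hlogmem x hx)
    rw [hlogexp x hx] at h2
    exact h2.differentiableAt.differentiableWithinAt
  have hne : ∀ s ∈ Hl, U s ≠ 0 ∧ U s ≠ 1 := fun s hs => h.ne _ ((hscale s).1 hs)
  obtain ⟨H, hHd, hH⟩ := Pool.Agent.Helper2.LN2.punct v 0 1 one_pos hvd
    (fun x hx => (hne _ (hlogmem x hx)).1) (fun x hx => (hne _ (hlogmem x hx)).2)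
  -- the logarithmic derivative
  have hl' : ∀ z ∈ Hl, HasDerivAt l (2 / M * H (Complex.exp (2 / M * z))) z := by
    intro z hz
    have hs : (2 : ℂ) / M * z ∈ Hl := by
      rw [hscale]
      convert hz using 1
      field_simp
    have hzs : (M : ℂ) / 2 * (2 / M * z) = z := by field_simp
    have h1 := hH _ (hexpmem _ hs)
    rw [sub_zero, (hderiv _ hs).deriv, hvexp _ hs] at h1
    have hx0 : Complex.exp (2 / M * z) ≠ 0 := Complex.exp_ne_zero _
    have h2 : Complex.exp (2 / M * z) * (deriv U (2 / M * z) * (Complex.exp (2 / M * z))⁻¹ / U (2 / M * z)) =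
        deriv U (2 / M * z) / U (2 / M * z) := by field_simp
    rw [h2] at h1
    have hldiff : HasDerivAt l (deriv l z) z :=
      (h.diffl.differentiableAt (isOpen_Hl.mem_nhds hz)).hasDerivAt
    have hud : HasDerivAt u (Complex.exp (l z) * deriv l z) z := by
      refine hldiff.cexp.congr_of_eventuallyEq ?_
      filter_upwards [isOpen_Hl.mem_nhds hz] with y hy
      exact (h.exp y hy).symm
    have hUd2 : HasDerivAt U (Complex.exp (l z) * deriv l z * (M / 2)) (2 / M * z) := by
      have h3 : HasDerivAt (fun s : ℂ => (M : ℂ) / 2 * s) ((M : ℂ) / 2) (2 / M * z) := by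
        simpa using (hasDerivAt_id ((2 : ℂ) / M * z)).const_mul ((M : ℂ) / 2)
      have h4 : HasDerivAt u (Complex.exp (l z) * deriv l z) ((fun s : ℂ => (M : ℂ) / 2 * s) (2 / M * z)) := by
        show HasDerivAt u _ ((M : ℂ) / 2 * (2 / M * z))
        rw [hzs]
        exact hud
      exact HasDerivAt.comp (2 / M * z) h4 h3
    have hUz : U (2 / M * z) = u z := by
      simp only [hU]
      rw [hzs]
    rw [hUd2.deriv, hUz, ← h.exp z hz] at h1
    have h5 : deriv l z = 2 / M * H (Complex.exp (2 / M * z)) := by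
      rw [← h1]
      have := Complex.exp_ne_zero (l z)
      field_simp
    rw [← h5]
    exact hldiff
  -- a primitive
  have hK : DifferentiableOn ℂ (dslope H 0) (Metric.ball 0 1) :=
    (Complex.differentiableOn_dslope (Metric.ball_mem_nhds 0 one_pos)).2 hHd
  obtain ⟨P, hP⟩ := hK.isExactOn_ball
  have hHK : ∀ x : ℂ, H x = H 0 + x * dslope H 0 x := by
    intro x
    have := sub_smul_dslope H 0 x
    rw [sub_zero, smul_eq_mul] at this
    rw [this]
    ring
  set Φ : ℂ → ℂ := fun z => l z - 2 / M * H 0 * z - P (Complex.exp (2 / M * z)) with hΦ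
  have hΦd : ∀ z ∈ Hl, HasDerivAt Φ 0 z := by
    intro z hz
    have hs : (2 : ℂ) / M * z ∈ Hl := by
      rw [hscale]
      convert hz using 1
      field_simp
    have h1 : HasDerivAt (fun z : ℂ => (2 : ℂ) / M * z) (2 / M) z := by
      simpa using (hasDerivAt_id z).const_mul ((2 : ℂ) / M)
    have h2 := h1.cexp
    have h3 : HasDerivAt (fun z : ℂ => P (Complex.exp (2 / M * z)))
        (dslope H 0 (Complex.exp (2 / M * z)) * (Complex.exp (2 / M * z) * (2 / M))) z :=
      HasDerivAt.comp z (hP _ (hexpmem _ hs).1) h2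
    have h4 : HasDerivAt (fun z : ℂ => (2 : ℂ) / M * H 0 * z) (2 / M * H 0) z := by
      simpa using (hasDerivAt_id z).const_mul ((2 : ℂ) / M * H 0)
    have h5 := ((hl' z hz).sub h4).sub h3
    have h6 : (2 / M * H (Complex.exp (2 / M * z)) - 2 / M * H 0 -
        dslope H 0 (Complex.exp (2 / M * z)) * (Complex.exp (2 / M * z) * (2 / M)) : ℂ) = 0 := by
      rw [hHK (Complex.exp (2 / M * z))]
      ring
    rw [h6] at h5
    exact h5
  obtain ⟨c, hc⟩ : ∃ c, ∀ z ∈ Hl, Φ z = c := by
    refine isOpen_Hl.exists_is_const_of_deriv_eq_zero isPreconnected_Hl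
      (fun z hz => (hΦd z hz).differentiableAt.differentiableWithinAt) fun z hz => ?_
    rw [(hΦd z hz).deriv]
    rfl
  have hH0 : H 0 = n := by
    have hz : (-1 : ℂ) ∈ Hl := by
      show (-1 : ℂ).re < 0
      simp
    have hz2 : (-1 : ℂ) + M * (Real.pi * Complex.I) ∈ Hl := by
      have := hshift _ hz (M * Real.pi)
      convert this using 1
      push_cast
      ring
    have h1 := hc _ hz
    have h2 := hc _ hz2
    simp only [hΦ] at h1 h2
    rw [hl _ hz] at h2
    have h3 : Complex.exp (2 / M * (-1 + M * (Real.pi * Complex.I))) = Complex.exp (2 / M * (-1)) := by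
      rw [Complex.exp_eq_exp_iff_exists_int]
      refine ⟨1, ?_⟩
      push_cast
      field_simp
    rw [h3] at h2
    have h4 : (2 : ℂ) * Real.pi * Complex.I * n = 2 / M * H 0 * (M * (Real.pi * Complex.I)) := by
      linear_combination h2 - h1
    have h5 : (2 : ℂ) / M * H 0 * (M * (Real.pi * Complex.I)) = 2 * Real.pi * Complex.I * H 0 := by
      field_simp
    rw [h5] at h4
    exact (mul_left_cancel₀ (Complex.two_pi_I_ne_zero) h4).symm
  refine ⟨c + P 0, ?_⟩
  have hlim : Filter.Tendsto (fun t : ℝ => c + P (Complex.exp (2 / M * (-(t : ℂ))))) Filter.atTop (𝓝 (c + P 0)) := by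
    refine Filter.Tendsto.const_add c ?_
    have hPc : ContinuousAt P 0 := (hP 0 (Metric.mem_ball_self one_pos)).continuousAt
    refine hPc.tendsto.comp ?_
    rw [tendsto_zero_iff_norm_tendsto_zero]
    have h1 : (fun t : ℝ => ‖Complex.exp (2 / M * (-(t : ℂ)))‖) = fun t : ℝ => Real.exp (-(2 / M * t)) := by
      funext t
      rw [Complex.norm_exp]
      congr 1
      have : (2 : ℂ) / M * (-(t : ℂ)) = ((-(2 / M * t) : ℝ) : ℂ) := by push_cast; ring
      rw [this, Complex.ofReal_re]
    rw [h1]
    refine Real.tendsto_exp_neg_atTop_nhds_zero.comp ?_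
    exact Filter.tendsto_id.const_mul_atTop (by positivity)
  refine hlim.congr' ?_
  filter_upwards [Filter.eventually_gt_atTop (0 : ℝ)] with t ht
  have hz : (-(t : ℂ)) ∈ Hl := by
    show (-(t : ℂ)).re < 0
    simpa using ht
  have h1 := hc _ hz
  simp only [hΦ] at h1
  rw [← h1, hH0]
  ring

end Pool.Agent.Helper96.LN3
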