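import Pool.Agent.Helper96.LN3.Defs
import Pool.Agent.Helper93.L2.LandauLog

/-!
# LN3-L6/L7 (MP_730da0_ag): Landau's theorem in the left half plane, vertical differences

Paper proof.  `landau_log` on the ball of radius `|Re z|` around `z ∈ Hl`: `‖u' z‖ ≤ C/|Re z| · ‖u z‖ (1 + |log ‖u z‖|)`, `l' = u'/u`, `log ‖u z‖ = Re (l z)`.  (`l` is holomorphic: continuous logarithm of a nonvanishing holomorphic function,
e.g. `exists_log_on_convex` of Helper93/LN and `exp_uniq`.)
`vert`: `g y = l (z + i y)`, `‖g' y‖ ≤ c (1 + |Re g y|) ≤ c (1 + |Re g 0|) + c ‖g y - g 0‖`, `c = C/|Re z|`; Gronwall (`norm_le_gronwallBound_of_norm_deriv_right_le`): `‖g y - g 0‖ ≤ (1 + |Re (g 0)|)(e^(c y) - 1)`, `y ≥ 0`; for `y < 0` use `g (-y)`.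
-/

namespace Pool.Agent.Helper96.LN3

/-- `l` is a continuous logarithm on the left half plane of the holomorphic function `u`, which omits `0` and `1`. -/
structure LogOn (u l : ℂ → ℂ) : Prop where
  diff : DifferentiableOn ℂ u Hl
  ne : ∀ z ∈ Hl, u z ≠ 0 ∧ u z ≠ 1
  cont : ContinuousOn l Hl
  exp : ∀ z ∈ Hl, Complex.exp (l z) = u z

private theorem hl_open : IsOpen Hl := isOpen_lt Complex.continuous_re continuous_const

theorem LogOn.diffl {u l : ℂ → ℂ} (h : LogOn u l) : DifferentiableOn ℂ l Hl :=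
  Pool.Agent.Helper93.LN.differentiableOn_of_exp hl_open h.cont h.diff h.exp

theorem landau_hl : ∃ C : ℝ, 0 < C ∧ ∀ u l : ℂ → ℂ, LogOn u l → ∀ z ∈ Hl,
    ‖deriv l z‖ ≤ C * (1 + |(l z).re|) / |z.re| := by
  obtain ⟨C, hC, hL⟩ := Pool.Agent.Helper93.L2.landau_log
  refine ⟨C, hC, ?_⟩
  intro u l h z hz
  have hz' : z.re < 0 := hz
  have hR : 0 < |z.re| := abs_pos.2 hz'.ne
  have hsub : Metric.ball z |z.re| ⊆ Hl := by
    intro w hw
    rw [Metric.mem_ball, dist_eq_norm] at hw
    have h1 : |(w - z).re| ≤ ‖w - z‖ := Complex.abs_re_le_norm _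
    have h2 : |z.re| = -z.re := abs_of_neg hz'
    rw [Complex.sub_re] at h1
    have h3 : w.re - z.re ≤ |w.re - z.re| := le_abs_self _
    show w.re < 0
    linarith
  have hb := hL u z |z.re| hR (h.diff.mono hsub) (fun w hw => h.ne w (hsub hw))
  have hld : DifferentiableAt ℂ l z := h.diffl.differentiableAt (hl_open.mem_nhds hz)
  have hul : deriv u z = u z * deriv l z := by
    have h2 : u =ᶠ[nhds z] fun w => Complex.exp (l w) := by
      filter_upwards [hl_open.mem_nhds hz] with w hw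
      exact (h.exp w hw).symm
    rw [h2.deriv_eq, hld.hasDerivAt.cexp.deriv, h.exp z hz]
  have hlog : Real.log ‖u z‖ = (l z).re := by
    rw [← h.exp z hz, Complex.norm_exp, Real.log_exp]
  have hu : 0 < ‖u z‖ := norm_pos_iff.2 (h.ne z hz).1
  rw [hul, norm_mul, Pool.Agent.Helper93.L2.lg, hlog] at hb
  have h4 : ‖u z‖ * ‖deriv l z‖ ≤ ‖u z‖ * (C * (1 + |(l z).re|) / |z.re|) := by
    calc ‖u z‖ * ‖deriv l z‖ ≤ C / |z.re| * (‖u z‖ * (1 + |(l z).re|)) := hb
      _ = ‖u z‖ * (C * (1 + |(l z).re|) / |z.re|) := by ring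
  exact le_of_mul_le_mul_left h4 hu

theorem vert : ∃ C : ℝ, 0 < C ∧ ∀ u l : ℂ → ℂ, LogOn u l → ∀ z ∈ Hl, ∀ y : ℝ,
    ‖l (z + y * Complex.I) - l z‖ ≤ (1 + |(l z).re|) * (Real.exp (C * |y| / |z.re|) - 1) := by
  obtain ⟨C, hC, hL⟩ := landau_hl
  refine ⟨C, hC, ?_⟩
  intro u l h z hz y
  have hz' : z.re < 0 := hz
  have hR : 0 < |z.re| := abs_pos.2 hz'.ne
  by_cases hy : y = 0
  · subst hy
    simp
  have hy' : 0 < |y| := abs_pos.2 hy
  have hre : ∀ t : ℝ, (z + (t * y : ℝ) * Complex.I).re = z.re := by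
    intro t
    simp
  have hmem : ∀ t : ℝ, z + (t * y : ℝ) * Complex.I ∈ Hl := by
    intro t
    show (z + (t * y : ℝ) * Complex.I).re < 0
    rw [hre]
    exact hz'
  have hder : ∀ t : ℝ, HasDerivAt (fun t : ℝ => l (z + (t * y : ℝ) * Complex.I) - l z)
      (deriv l (z + (t * y : ℝ) * Complex.I) * (y * Complex.I)) t := by
    intro t
    have h1 : HasDerivAt l (deriv l (z + (t * y : ℝ) * Complex.I)) (z + (t * y : ℝ) * Complex.I) :=
      (h.diffl.differentiableAt (hl_open.mem_nhds (hmem t))).hasDerivAt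
    have h2 : HasDerivAt (fun t : ℝ => z + (t * y : ℝ) * Complex.I) (y * Complex.I) t := by
      have h3 : HasDerivAt (fun t : ℝ => ((t * y : ℝ) : ℂ)) ((1 * y : ℝ) : ℂ) t :=
        ((hasDerivAt_id t).mul_const y).ofReal_comp
      have h4 := (h3.mul_const Complex.I).const_add z
      simpa using h4
    have h5 := (h1.comp t h2).sub_const (l z)
    simpa [Function.comp_def] using h5
  have hcont : ContinuousOn (fun t : ℝ => l (z + (t * y : ℝ) * Complex.I) - l z) (Set.Icc 0 1) :=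
    fun t _ => (hder t).continuousAt.continuousWithinAt
  have hK : 0 < C * |y| / |z.re| := by positivity
  have hg := norm_le_gronwallBound_of_norm_deriv_right_le (δ := 0) (K := C * |y| / |z.re|)
    (ε := C * |y| / |z.re| * (1 + |(l z).re|)) hcont
    (fun t _ => (hder t).hasDerivWithinAt) (by simp) (by
      intro t _
      have h6 := hL u l h _ (hmem t)
      rw [hre] at h6
      have h7 : |(l (z + (t * y : ℝ) * Complex.I)).re| ≤
          ‖l (z + (t * y : ℝ) * Complex.I) - l z‖ + |(l z).re| := by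
        have h8 : |(l (z + (t * y : ℝ) * Complex.I) - l z).re| ≤
            ‖l (z + (t * y : ℝ) * Complex.I) - l z‖ := Complex.abs_re_le_norm _
        rw [Complex.sub_re] at h8
        have h9 := abs_sub_abs_le_abs_sub (l (z + (t * y : ℝ) * Complex.I)).re (l z).re
        linarith
      rw [norm_mul, norm_mul, Complex.norm_I, mul_one, Complex.norm_real, Real.norm_eq_abs]
      calc ‖deriv l (z + (t * y : ℝ) * Complex.I)‖ * |y|
          ≤ C * (1 + |(l (z + (t * y : ℝ) * Complex.I)).re|) / |z.re| * |y| :=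
            mul_le_mul_of_nonneg_right h6 hy'.le
        _ = C * |y| / |z.re| * (1 + |(l (z + (t * y : ℝ) * Complex.I)).re|) := by ring
        _ ≤ C * |y| / |z.re| * (1 + (‖l (z + (t * y : ℝ) * Complex.I) - l z‖ + |(l z).re|)) :=
            mul_le_mul_of_nonneg_left (by linarith) hK.le
        _ = C * |y| / |z.re| * ‖l (z + (t * y : ℝ) * Complex.I) - l z‖ +
            C * |y| / |z.re| * (1 + |(l z).re|) := by ring) 1 (by simp)
  rw [gronwallBound_of_K_ne_0 hK.ne'] at hg
  have h10 : C * |y| / |z.re| * (1 + |(l z).re|) / (C * |y| / |z.re|) = 1 + |(l z).re| := by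
    field_simp
  simp only [one_mul, sub_zero, zero_mul, mul_one, zero_add, h10] at hg
  exact hg

end Pool.Agent.Helper96.LN3
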