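import Pool.Agent.Helper96.LN3.Wind

/-!
# LN3-K1 (MP_730da0_ag): consequences of the corner facts

Paper proofs.
`Corner.swap`: clear.
`ultra` (`m = wn g₀ + wn g₂`): suppose `m b c < m a b` and `m b c < m a c`.  Triple `(b; a, c)`: `α + β > 0` for `α = wn g₀ b a - wn g₀ b c`, `β = wn g₂ b a - wn g₂ b c` (`sym`), `α β ≥ 0` (`opp`), so `α, β ≥ 0`, not both `0`: `zero`: `(x_b - x_a)/(x_b - x_c) → 0`.
Triple `(c; a, b)`: `(x_c - x_a)/(x_c - x_b) → 0`.  The sum of the two is `1` (`inj`, `t > 0`): contradiction.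
`wn_pt`: for an integer `t` let `B₀ t = {w ≠ P : t ≤ wn g₀ w P}`, `B₂ t` similarly.  `g.p` maps `B₀ t` bijectively onto `B₂ t` (`wn_conj`, `g.p P = P`), so they have the same (finite) cardinality.  If `w ∈ B₀ t`, `w ∉ B₂ t`, `w' ∈ B₂ t`, `w' ∉ B₀ t`, then
`wn g₀ P w - wn g₀ P w' > 0` and `wn g₂ P w - wn g₂ P w' < 0` (`sym`), against `opp` for `(P; w, w')`.  So one of `B₀ t`, `B₂ t` contains the other, so they are equal, for all `t`.
`exists_X`: for `w ≠ P`, `w ≠ w₁`, `InB`: `(x_w - x_P)/(x_(w₁) - x_P) = rat x P w w₁`; `lim` (if both windings are equal) gives a nonzero limit, `zero` the limit `0` otherwise (`sym`).  `w = w₁`: the quotient is `1` (`inj`).  `w = P`: `0`.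
`X_mul`: `σ = g₀.p`, `μ = exp (2πi wn g₀ w₁ P / per F)`.
(1) `(x_(σ w₂) - x_(σ P))/(x_(w₂) - x_P) → exp (2πi wn g₀ P w₂/per F) = μ` (`mult₀` with `(a,b) = (P,w₂)`).
(2) `(x_(σ w) - x_(σ P))/(x_(σ w₂) - x_(σ P)) → X w/X w₂` for `w ≠ P` in `B`: if `w = w₂` clear.  If the windings of `(w,P)` and `(w₂,P)` are equal: `lim` for `(P; w, w₂)`: the second limit there is the same as the first, which is `X w/X w₂`
(`(x_w - x_P)/(x_(w₁) - x_P)` divided by `(x_(w₂) - x_P)/(x_(w₁) - x_P)`, `X w₂ ≠ 0` by `eq0`).  Otherwise `X w = 0` (`eq0`), and `zero` for the triple `(σ P; σ w, σ w₂)` (its windings are those of `(P; w, w₂)`: `wn_comm` with `g = h = g₀`, and with `comm`) gives the limit `0`.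
(3) `(x_(w₂) - x_P)/(x_(w₁) - x_P) → X w₂`.  The product of (1), (2), (3): `(x_(σ w) - x_(σ P))/(x_(w₁) - x_P) → μ X w`; add `(x_(σ P) - x_P)/(x_(w₁) - x_P) → X (σ P)`; the sum is `(x_(σ w) - x_P)/(x_(w₁) - x_P) → X (σ w)`; uniqueness of limits.
-/

namespace Pool.Agent.Helper96.LN3

variable {F : Type} {g₀ g₂ : WG F} {x : F → ℝ → ℂ}

/-- `w = P` or the windings of `(w, P)` are at least those of `(w₁, P)`. -/
def InB (g₀ g₂ : WG F) (P w₁ w : F) : Prop := w = P ∨ (wn g₀ w₁ P ≤ wn g₀ w P ∧ wn g₂ w₁ P ≤ wn g₂ w P)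

/-- `X w` is the limit of `(x_w - x_P)/(x_(w₁) - x_P)`. -/
structure XMap (g₀ g₂ : WG F) (x : F → ℝ → ℂ) (P w₁ : F) (X : F → ℂ) : Prop where
  zero : X P = 0
  one : X w₁ = 1
  tend : ∀ w, InB g₀ g₂ P w₁ w →
    Filter.Tendsto (fun t => (x w t - x P t) / (x w₁ t - x P t)) Filter.atTop (nhds (X w))
  eq0 : ∀ w, w ≠ P → InB g₀ g₂ P w₁ w → (X w = 0 ↔ ¬ (wn g₀ w P = wn g₀ w₁ P ∧ wn g₂ w P = wn g₂ w₁ P))

theorem Corner.swap (hC : Corner g₀ g₂ x) : Corner g₂ g₀ x where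
  comm := hC.comm.symm
  sym₀ := hC.sym₂
  sym₂ := hC.sym₀
  int₀ := hC.int₂
  int₂ := hC.int₀
  inj := hC.inj
  opp := fun a b c h1 h2 h3 => by
    rw [mul_comm]
    exact hC.opp a b c h1 h2 h3
  lim := fun a b c h1 h2 h3 e0 e2 => by
    obtain ⟨r, hr, l1, l2, l3⟩ := hC.lim a b c h1 h2 h3 e2 e0
    exact ⟨r, hr, l1, l3, l2⟩
  zero := fun a b c h1 h2 h3 e0 e2 hn => hC.zero a b c h1 h2 h3 e2 e0 fun h => hn ⟨h.2, h.1⟩
  mult₀ := hC.mult₂
  mult₂ := hC.mult₀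

private theorem InB.swap {P w₁ w : F} (h : InB g₂ g₀ P w₁ w) : InB g₀ g₂ P w₁ w :=
  h.imp id fun h => ⟨h.2, h.1⟩

theorem XMap.swap {P w₁ : F} {X : F → ℂ} (h : XMap g₀ g₂ x P w₁ X) : XMap g₂ g₀ x P w₁ X where
  zero := h.zero
  one := h.one
  tend := fun w hw => h.tend w hw.swap
  eq0 := fun w hP hw => by
    rw [h.eq0 w hP hw.swap, and_comm]

theorem Corner.ultra (hC : Corner g₀ g₂ x) (a b c : F) (hab : a ≠ b) (hac : a ≠ c) (hbc : b ≠ c) :
    min (wn g₀ a b + wn g₂ a b) (wn g₀ a c + wn g₂ a c) ≤ wn g₀ b c + wn g₂ b c := by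
  by_contra hcon
  rw [not_le, lt_min_iff] at hcon
  obtain ⟨h1, h2⟩ := hcon
  have key : ∀ α β : ℤ, 0 < α + β → 0 ≤ α * β → 0 ≤ α ∧ 0 ≤ β ∧ ¬ (α = 0 ∧ β = 0) := by
    intro α β hs hp
    refine ⟨?_, ?_, ?_⟩
    · by_contra hn
      rw [not_le] at hn
      have hβ : 0 < β := by linarith
      have := mul_neg_of_neg_of_pos hn hβ
      linarith
    · by_contra hn
      rw [not_le] at hn
      have hα : 0 < α := by linarith
      have := mul_neg_of_pos_of_neg hα hn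
      linarith
    · rintro ⟨rfl, rfl⟩
      simp at hs
  have sab0 := hC.sym₀ a b
  have sab2 := hC.sym₂ a b
  have sac0 := hC.sym₀ a c
  have sac2 := hC.sym₂ a c
  have sbc0 := hC.sym₀ b c
  have sbc2 := hC.sym₂ b c
  have k1 := key (wn g₀ b a - wn g₀ b c) (wn g₂ b a - wn g₂ b c) (by linarith)
    (hC.opp b a c hab.symm hbc hac)
  have k2 := key (wn g₀ c a - wn g₀ c b) (wn g₂ c a - wn g₂ c b) (by linarith)
    (hC.opp c a b hac.symm hbc.symm hab)
  have z1 := hC.zero b a c hab.symm hbc hac (by linarith) (by linarith)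
    (fun h => k1.2.2 ⟨by linarith, by linarith⟩)
  have z2 := hC.zero c a b hac.symm hbc.symm hab (by linarith) (by linarith)
    (fun h => k2.2.2 ⟨by linarith, by linarith⟩)
  have z3 := z1.add z2
  have z4 : Filter.Tendsto (fun _ : ℝ => (1 : ℂ)) Filter.atTop (nhds (0 + 0)) := by
    refine z3.congr' ?_
    filter_upwards [Filter.eventually_gt_atTop (0 : ℝ)] with t ht
    have hi : x b t - x c t ≠ 0 := sub_ne_zero.2 fun h => hbc (hC.inj t ht h)
    have hi' : x c t - x b t ≠ 0 := sub_ne_zero.2 fun h => hbc (hC.inj t ht h.symm)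
    show (x b t - x a t) / (x b t - x c t) + (x c t - x a t) / (x c t - x b t) = 1
    have hneg : x c t - x b t = -(x b t - x c t) := by ring
    rw [hneg, div_neg, ← sub_eq_add_neg, ← sub_div]
    rw [show x b t - x a t - (x c t - x a t) = x b t - x c t by ring, div_self hi]
  have := tendsto_nhds_unique z4 tendsto_const_nhds
  norm_num at this

theorem Corner.wn_pt [Finite F] (hC : Corner g₀ g₂ x) (g : WG F) (hg : g₂ = g * g₀ * g⁻¹) (P : F)
    (hP : g.p P = P) (w : F) (hw : w ≠ P) : wn g₀ w P = wn g₂ w P := by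
  have hcj : ∀ v, wn g₂ (g.p v) P = wn g₀ v P := by
    intro v
    have h1 := wn_conj g g₀ v P
    rwa [hP, ← hg] at h1
  have hset : ∀ t : ℤ, {v : F | v ≠ P ∧ t ≤ wn g₀ v P} = {v : F | v ≠ P ∧ t ≤ wn g₂ v P} := by
    intro t
    have hcard : ({v : F | v ≠ P ∧ t ≤ wn g₀ v P} : Set F).ncard =
        ({v : F | v ≠ P ∧ t ≤ wn g₂ v P} : Set F).ncard := by
      rw [← Set.ncard_image_of_injective {v : F | v ≠ P ∧ t ≤ wn g₀ v P} g.p.injective]
      congr 1
      ext v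
      constructor
      · rintro ⟨u, ⟨h1, h2⟩, rfl⟩
        refine ⟨fun h => h1 (g.p.injective (h.trans hP.symm)), ?_⟩
        rw [hcj]
        exact h2
      · rintro ⟨h1, h2⟩
        refine ⟨g.p.symm v, ⟨fun h => h1 ?_, ?_⟩, g.p.apply_symm_apply v⟩
        · rw [← hP, ← h, Equiv.apply_symm_apply]
        · rw [← hcj, Equiv.apply_symm_apply]
          exact h2
    by_cases hsub : {v : F | v ≠ P ∧ t ≤ wn g₀ v P} ⊆ {v : F | v ≠ P ∧ t ≤ wn g₂ v P}
    · exact Set.eq_of_subset_of_ncard_le hsub hcard.ge (Set.toFinite _)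
    · have hsub' : {v : F | v ≠ P ∧ t ≤ wn g₂ v P} ⊆ {v : F | v ≠ P ∧ t ≤ wn g₀ v P} := by
        obtain ⟨a, ha, ha'⟩ := Set.not_subset.1 hsub
        intro b hb
        by_contra hb'
        have hab : a ≠ b := fun h => hb' (h ▸ ha)
        have h1 := hC.opp P a b ha.1.symm hb.1.symm hab
        have a2 : wn g₂ a P < t := by
          by_contra h
          exact ha' ⟨ha.1, not_lt.1 h⟩
        have b0 : wn g₀ b P < t := by
          by_contra h
          exact hb' ⟨hb.1, not_lt.1 h⟩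
        have a0 : t ≤ wn g₀ a P := ha.2
        have b2 : t ≤ wn g₂ b P := hb.2
        rw [hC.sym₀ P a, hC.sym₀ P b, hC.sym₂ P a, hC.sym₂ P b] at h1
        have h2 : 0 < wn g₀ a P - wn g₀ b P := by linarith
        have h3 : wn g₂ a P - wn g₂ b P < 0 := by linarith
        have := mul_neg_of_pos_of_neg h2 h3
        linarith
      exact (Set.eq_of_subset_of_ncard_le hsub' hcard.le (Set.toFinite _)).symm
  apply le_antisymm
  · have h1 : w ∈ {v : F | v ≠ P ∧ wn g₀ w P ≤ wn g₀ v P} := ⟨hw, le_refl _⟩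
    rw [hset] at h1
    exact h1.2
  · have h1 : w ∈ {v : F | v ≠ P ∧ wn g₂ w P ≤ wn g₂ v P} := ⟨hw, le_refl _⟩
    rw [← hset] at h1
    exact h1.2

theorem Corner.exists_X (hC : Corner g₀ g₂ x) (P w₁ : F) (h : w₁ ≠ P) :
    ∃ X : F → ℂ, XMap g₀ g₂ x P w₁ X := by
  have main : ∀ w, ∃ y : ℂ, (w = P → y = 0) ∧ (w = w₁ → y = 1) ∧ (InB g₀ g₂ P w₁ w →
      Filter.Tendsto (fun t => (x w t - x P t) / (x w₁ t - x P t)) Filter.atTop (nhds y)) ∧
      (w ≠ P → InB g₀ g₂ P w₁ w →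
        (y = 0 ↔ ¬ (wn g₀ w P = wn g₀ w₁ P ∧ wn g₂ w P = wn g₂ w₁ P))) := by
    intro w
    by_cases hP : w = P
    · refine ⟨0, fun _ => rfl, fun h1 => absurd (h1.symm.trans hP) h, fun _ => ?_,
        fun h1 => absurd hP h1⟩
      subst hP
      simp only [sub_self, zero_div]
      exact tendsto_const_nhds
    by_cases h1 : w = w₁
    · refine ⟨1, fun h2 => absurd h2 hP, fun _ => rfl, fun _ => ?_, fun _ _ => ?_⟩
      · subst h1
        refine Filter.Tendsto.congr' ?_ tendsto_const_nhds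
        filter_upwards [Filter.eventually_gt_atTop (0 : ℝ)] with t ht
        have hi : x w t - x P t ≠ 0 := sub_ne_zero.2 fun h2 => hP (hC.inj t ht h2)
        rw [div_self hi]
      · subst h1
        simp
    have hrat : ∀ t, rat x P w w₁ t = (x w t - x P t) / (x w₁ t - x P t) := by
      intro t
      unfold rat
      rw [← neg_sub (x w t) (x P t), ← neg_sub (x w₁ t) (x P t), neg_div_neg_eq]
    by_cases h2 : wn g₀ w P = wn g₀ w₁ P ∧ wn g₂ w P = wn g₂ w₁ P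
    · obtain ⟨r, hr, l1, -, -⟩ := hC.lim P w w₁ (Ne.symm hP) h.symm h1
        (by rw [hC.sym₀ P w, hC.sym₀ P w₁]; exact h2.1)
        (by rw [hC.sym₂ P w, hC.sym₂ P w₁]; exact h2.2)
      refine ⟨r, fun h3 => absurd h3 hP, fun h3 => absurd h3 h1, fun _ => ?_, fun _ _ => ?_⟩
      · exact l1.congr fun t => hrat t
      · constructor
        · intro h3
          exact absurd h3 hr
        · intro h3
          exact absurd h2 h3
    · refine ⟨0, fun _ => rfl, fun h3 => absurd h3 h1, fun h3 => ?_, fun _ _ => ?_⟩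
      · rcases h3 with h3 | ⟨h3, h4⟩
        · exact absurd h3 hP
        have z := hC.zero P w w₁ (Ne.symm hP) h.symm h1
          (by rw [hC.sym₀ P w, hC.sym₀ P w₁]; exact h3)
          (by rw [hC.sym₂ P w, hC.sym₂ P w₁]; exact h4)
          (by
            rw [hC.sym₀ P w, hC.sym₀ P w₁, hC.sym₂ P w, hC.sym₂ P w₁]
            exact h2)
        exact z.congr fun t => hrat t
      · simp [h2]
  choose X hX using main
  exact ⟨X, (hX P).1 rfl, (hX w₁).2.1 rfl, fun w hw => (hX w).2.2.1 hw,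
    fun w hP hw => (hX w).2.2.2 hP hw⟩

theorem Corner.X_mul [Finite F] (hC : Corner g₀ g₂ x) {P w₁ : F} (hw₁ : w₁ ≠ P) {X : F → ℂ}
    (hX : XMap g₀ g₂ x P w₁ X) (w₂ : F) (hw₂ : w₂ ≠ P) (e0 : wn g₀ w₂ P = wn g₀ w₁ P)
    (e2 : wn g₂ w₂ P = wn g₂ w₁ P) (hs : g₀.p P = w₂ ∨ g₀.p P = P) (w : F) (hw : InB g₀ g₂ P w₁ w)
    (hw' : InB g₀ g₂ P w₁ (g₀.p w)) :
    X (g₀.p w) = Complex.exp (2 * Real.pi * Complex.I * wn g₀ w₁ P / per F) * X w + X (g₀.p P) := by
  by_cases hwP : w = P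
  · subst hwP
    rw [hX.zero, mul_zero, zero_add]
  have c0 : ∀ a b, wn g₀ (g₀.p a) (g₀.p b) = wn g₀ a b := fun a b => wn_comm g₀ g₀ rfl a b
  have c2 : ∀ a b, wn g₂ (g₀.p a) (g₀.p b) = wn g₂ a b := fun a b => wn_comm g₀ g₂ hC.comm a b
  have hB₂ : InB g₀ g₂ P w₁ w₂ := Or.inr ⟨e0.ge, e2.ge⟩
  have hX₂ : X w₂ ≠ 0 := fun h => (hX.eq0 w₂ hw₂ hB₂).1 h ⟨e0, e2⟩
  have hBσ : InB g₀ g₂ P w₁ (g₀.p P) := by
    rcases hs with h | h
    · rw [h]
      exact hB₂
    · exact Or.inl h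
  have hwB : wn g₀ w₁ P ≤ wn g₀ w P ∧ wn g₂ w₁ P ≤ wn g₂ w P := by
    rcases hw with h | h
    · exact absurd h hwP
    · exact h
  have hne : ∀ a b : F, a ≠ b → ∀ t : ℝ, 0 < t → x a t - x b t ≠ 0 := fun a b hab t ht =>
    sub_ne_zero.2 fun h => hab (hC.inj t ht h)
  have hinj : ∀ a b : F, a ≠ b → g₀.p a ≠ g₀.p b := fun a b hab h => hab (g₀.p.injective h)
  have t1 := hC.mult₀ P w₂ hw₂.symm hs
  rw [hC.sym₀ P w₂, e0] at t1
  have t3 := hX.tend w₂ hB₂
  have t2 : Filter.Tendsto (fun t => (x (g₀.p w) t - x (g₀.p P) t) / (x (g₀.p w₂) t - x (g₀.p P) t))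
      Filter.atTop (nhds (X w / X w₂)) := by
    by_cases hww : w = w₂
    · subst hww
      rw [div_self hX₂]
      refine Filter.Tendsto.congr' ?_ tendsto_const_nhds
      filter_upwards [Filter.eventually_gt_atTop (0 : ℝ)] with t ht
      rw [div_self (hne _ _ (hinj _ _ hwP) t ht)]
    have hrat : ∀ t, rat x (g₀.p P) (g₀.p w) (g₀.p w₂) t =
        (x (g₀.p w) t - x (g₀.p P) t) / (x (g₀.p w₂) t - x (g₀.p P) t) := by
      intro t
      unfold rat
      rw [← neg_sub (x (g₀.p w) t) (x (g₀.p P) t), ← neg_sub (x (g₀.p w₂) t) (x (g₀.p P) t),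
        neg_div_neg_eq]
    by_cases heq : wn g₀ w P = wn g₀ w₁ P ∧ wn g₂ w P = wn g₂ w₁ P
    · obtain ⟨r, hr, l1, l2, -⟩ := hC.lim P w w₂ (Ne.symm hwP) hw₂.symm hww
        (by rw [hC.sym₀ P w, hC.sym₀ P w₂, heq.1, e0])
        (by rw [hC.sym₂ P w, hC.sym₂ P w₂, heq.2, e2])
      have l3 : Filter.Tendsto (rat x P w w₂) Filter.atTop (nhds (X w / X w₂)) := by
        refine ((hX.tend w hw).div t3 hX₂).congr' ?_
        filter_upwards [Filter.eventually_gt_atTop (0 : ℝ)] with t ht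
        have n1 := hne _ _ hw₁ t ht
        show (x w t - x P t) / (x w₁ t - x P t) / ((x w₂ t - x P t) / (x w₁ t - x P t)) = rat x P w w₂ t
        unfold rat
        rw [div_div_div_cancel_right₀ n1, ← neg_sub (x w t) (x P t), ← neg_sub (x w₂ t) (x P t),
          neg_div_neg_eq]
      rw [← tendsto_nhds_unique l1 l3]
      exact l2.congr hrat
    · rw [(hX.eq0 w hwP hw).2 heq, zero_div]
      have z := hC.zero (g₀.p P) (g₀.p w) (g₀.p w₂) (hinj _ _ (Ne.symm hwP)) (hinj _ _ hw₂.symm)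
        (hinj _ _ hww)
        (by rw [c0, c0, hC.sym₀ P w, hC.sym₀ P w₂, e0]; exact hwB.1)
        (by rw [c2, c2, hC.sym₂ P w, hC.sym₂ P w₂, e2]; exact hwB.2)
        (by
          rw [c0, c0, c2, c2, hC.sym₀ P w, hC.sym₀ P w₂, hC.sym₂ P w, hC.sym₂ P w₂, e0, e2]
          exact heq)
      exact z.congr hrat
  have t4 := hX.tend (g₀.p P) hBσ
  have t5 := hX.tend (g₀.p w) hw'
  have t6 : Filter.Tendsto (fun t => (x (g₀.p w) t - x P t) / (x w₁ t - x P t)) Filter.atTop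
      (nhds (X w / X w₂ * Complex.exp (2 * Real.pi * Complex.I * wn g₀ w₁ P / per F) * X w₂ +
        X (g₀.p P))) := by
    refine (((t2.mul t1).mul t3).add t4).congr' ?_
    filter_upwards [Filter.eventually_gt_atTop (0 : ℝ)] with t ht
    have n1 := hne _ _ hw₁ t ht
    have n2 := hne _ _ hw₂ t ht
    have n3 := hne _ _ (hinj _ _ hw₂) t ht
    rw [div_mul_div_cancel₀ n3, div_mul_div_cancel₀ n2, ← add_div]
    congr 1
    ring
  rw [tendsto_nhds_unique t5 t6]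
  rw [mul_assoc, mul_comm (Complex.exp _) (X w₂), ← mul_assoc, div_mul_cancel₀ _ hX₂, mul_comm (X w)]

end Pool.Agent.Helper96.LN3
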